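import Pool.Agent.H179.SDP.Design

set_option autoImplicit false
open Finset

namespace Pool.Agent.H179.SDP

variable {α : Type*} [DecidableEq α] [Fintype α]

/-- the standing situation: an `S(m + s, 2 m, |α|)` with the symmetric difference property -/
structure Sys (m s : ℕ) (B : Finset (Finset α)) : Prop where
  st : St (univ : Finset α) (m + s) (2 * m) B
  sdp : ∀ b ∈ B, ∀ c ∈ B, (b ∩ c).card = m → symmDiff b c ∈ B

/-- the sets `Y` of `m` points disjoint from `X` with `X ∪ Y` a block -/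
def D (m : ℕ) (B : Finset (Finset α)) (X : Finset α) : Finset (Finset α) :=
  (powersetCard m (univ \ X)).filter (fun Y => X ∪ Y ∈ B)

variable {m s : ℕ} {B : Finset (Finset α)}

theorem mem_D {X Y : Finset α} : Y ∈ D m B X ↔ Y.card = m ∧ Disjoint X Y ∧ X ∪ Y ∈ B := by
  unfold D
  simp only [mem_filter, mem_powersetCard]
  constructor
  · rintro ⟨⟨h1, h2⟩, h3⟩
    refine ⟨h2, ?_, h3⟩
    rw [disjoint_left]; intro x hx hx'
    exact (mem_sdiff.1 (h1 hx')).2 hx
  · rintro ⟨h1, h2, h3⟩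
    refine ⟨⟨?_, h1⟩, h3⟩
    intro x hx
    simp only [mem_sdiff, mem_univ, true_and]
    exact fun hx' => (disjoint_left.1 h2) hx' hx

theorem D_symm {X Y : Finset α} (hX : X.card = m) (h : Y ∈ D m B X) : X ∈ D m B Y := by
  rw [mem_D] at h ⊢
  exact ⟨hX, h.2.1.symm, by rw [union_comm]; exact h.2.2⟩

theorem Sys.trans (h : Sys m s B) {X Y Z : Finset α} (hY : Y ∈ D m B X)
    (hZ : Z ∈ D m B Y) (hd : Disjoint X Z) : Z ∈ D m B X := by
  rw [mem_D] at hY hZ ⊢
  refine ⟨hZ.1, hd, ?_⟩
  have hi : (X ∪ Y) ∩ (Y ∪ Z) = Y := by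
    ext x
    simp only [mem_inter, mem_union]
    constructor
    · rintro ⟨h1 | h1, h2 | h2⟩
      · exact h2
      · exact absurd h2 ((disjoint_left.1 hd) h1)
      · exact h1
      · exact h1
    · intro h1; exact ⟨Or.inr h1, Or.inl h1⟩
  have hs : symmDiff (X ∪ Y) (Y ∪ Z) = X ∪ Z := by
    ext x
    simp only [mem_symmDiff, mem_union]
    have a1 : x ∈ X → x ∉ Y := fun h1 => (disjoint_left.1 hY.2.1) h1
    have a2 : x ∈ Y → x ∉ Z := fun h1 => (disjoint_left.1 hZ.2.1) h1
    have a3 : x ∈ X → x ∉ Z := fun h1 => (disjoint_left.1 hd) h1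
    tauto
  rw [← hs]
  exact h.sdp _ hY.2.2 _ hZ.2.2 (by rw [hi]; exact hY.1)

theorem Sys.stD (h : Sys m s B) {X : Finset α} (hX : X.card = m) :
    St (univ \ X) s m (D m B X) := by
  refine ⟨?_, ?_, ?_, ?_⟩
  · intro Y hY
    unfold D at hY
    rw [mem_filter, mem_powersetCard] at hY
    exact hY.1.1
  · intro Y hY; exact (mem_D.1 hY).1
  · intro S hS hc
    have hd : Disjoint X S := by
      rw [disjoint_left]; intro x hx hx'
      exact (mem_sdiff.1 (hS hx')).2 hx
    obtain ⟨b, hb, hsb⟩ := h.st.ex (X ∪ S) (subset_univ _)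
      (by rw [card_union_of_disjoint hd, hX, hc])
    refine ⟨b \ X, ?_, ?_⟩
    · rw [mem_D]
      refine ⟨?_, disjoint_sdiff, ?_⟩
      · rw [card_sdiff_of_subset (subset_union_left.trans hsb), h.st.card b hb, hX]; omega
      · rw [union_sdiff_of_subset (subset_union_left.trans hsb)]; exact hb
    · intro x hx
      rw [mem_sdiff]
      exact ⟨hsb (mem_union_right _ hx), fun hx' => (disjoint_left.1 hd) hx' hx⟩
  · intro S hc b hb c hc' hSb hSc
    rw [mem_D] at hb hc'
    have hd : Disjoint X S := disjoint_of_subset_right hSb hb.2.1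
    have := h.st.uniq (X ∪ S) (by rw [card_union_of_disjoint hd, hX, hc]) (X ∪ b) hb.2.2
      (X ∪ c) hc'.2.2 (union_subset_union_right hSb) (union_subset_union_right hSc)
    have e1 : b = (X ∪ b) \ X := by
      rw [union_sdiff_left]; exact (sdiff_eq_self_of_disjoint hb.2.1.symm).symm
    have e2 : c = (X ∪ c) \ X := by
      rw [union_sdiff_left]; exact (sdiff_eq_self_of_disjoint hc'.2.1.symm).symm
    rw [e1, e2, this]

theorem card_P {X : Finset α} (hX : X.card = m) :
    ((univ : Finset α) \ X).card = Fintype.card α - m := by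
  rw [card_sdiff_of_subset (subset_univ _), card_univ, hX]

omit [Fintype α] in
/-- two distinct members of `D X` meet in fewer than `s` points -/
theorem St.inter_lt {P : Finset α} {t k : ℕ} {C : Finset (Finset α)} (h : St P t k C)
    {b c : Finset α} (hb : b ∈ C) (hc : c ∈ C) (hne : b ≠ c) : (b ∩ c).card < t := by
  by_contra hlt
  push Not at hlt
  obtain ⟨S, hS, hSc⟩ := exists_subset_card_eq hlt
  exact hne (h.uniq S hSc b hb c hc (hS.trans inter_subset_left) (hS.trans inter_subset_right))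

/-- **Main lemma**: if `Y'` is a common neighbour of `X` and `Z`, where `X` meets `Z`, and
`C ~ X` contains `s` points of `Z`, then `C` meets `Y'`. -/
theorem Sys.meets (h : Sys m s B) {X Y' Z C : Finset α} (hX : X.card = m)
    (hY1 : Y' ∈ D m B X) (hY2 : Y' ∈ D m B Z) (hZc : Z.card = m) (hXZ : ¬ Disjoint X Z)
    (hC : C ∈ D m B X) (hs : s ≤ (C ∩ Z).card) : ¬ Disjoint C Y' := by
  intro hd
  have hXY : X ∈ D m B Y' := D_symm hX hY1
  have hCc : C.card = m := (mem_D.1 hC).1
  have h1 : C ∈ D m B Y' := h.trans hXY hC hd.symm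
  have h2 : Z ∈ D m B Y' := D_symm hZc hY2
  have hYc : Y'.card = m := (mem_D.1 hY1).1
  obtain ⟨S, hS, hSc⟩ := exists_subset_card_eq hs
  have : C = Z := (h.stD hYc).uniq S hSc C h1 Z h2 (hS.trans inter_subset_left)
    (hS.trans inter_subset_right)
  subst this
  exact hXZ (mem_D.1 hC).2.1

/-- members of `D X` missing `Z` that are not neighbours of `Z` meet all common neighbours -/
theorem Sys.meets' (h : Sys m s B) {X Y' Z C : Finset α} (hX : X.card = m)
    (hY1 : Y' ∈ D m B X) (hY2 : Y' ∈ D m B Z) (hC : C ∈ D m B X) (hCZ : Disjoint C Z)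
    (hn : C ∉ D m B Z) : ¬ Disjoint C Y' := by
  intro hd
  have hXY : X ∈ D m B Y' := D_symm hX hY1
  have h1 : C ∈ D m B Y' := h.trans hXY hC hd.symm
  exact hn (h.trans hY2 h1 hCZ.symm)

/-- closure: neighbours of a common neighbour missing `X` and `Z` are common neighbours -/
theorem Sys.closed (h : Sys m s B) {X Y Z Y' : Finset α}
    (hY1 : Y ∈ D m B X) (hY2 : Y ∈ D m B Z) (hY' : Y' ∈ D m B Y) (h1 : Disjoint X Y')
    (h2 : Disjoint Z Y') : Y' ∈ D m B X ∧ Y' ∈ D m B Z :=
  ⟨h.trans hY1 hY' h1, h.trans hY2 hY' h2⟩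

end Pool.Agent.H179.SDP
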