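import Pool.Agent.H179.SDP.Star

set_option autoImplicit false
open Finset

namespace Pool.Agent.H179.SDP

/-- one test: `c` divides `x (x - 1)` with a large quotient and both divisibility conditions hold -/
def bad (c x : ℕ) : Bool :=
  let p := x * (x - 1)
  let w1 := p / c
  (p % c == 0) && Nat.ble 101 w1 && ((2 * (x - 1) * (x - 2) * (2 * x - 3)) % (w1 + 1) == 0)
    && (((x - 2) * (3 * x - 7) * (3 * x - 8) * (3 * x - 9)) % (w1 + 2) == 0)

def anyBelow (f : ℕ → Bool) : ℕ → Bool
  | 0 => false
  | n + 1 => f n || anyBelow f n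

theorem anyBelow_spec (f : ℕ → Bool) (n : ℕ) (h : anyBelow f n = false) : ∀ i < n, f i = false := by
  induction n with
  | zero => intro i hi; omega
  | succ n ih =>
    rw [anyBelow, Bool.or_eq_false_iff] at h
    intro i hi
    rcases Nat.lt_succ_iff_lt_or_eq.1 hi with h1 | rfl
    · exact ih h.2 i h1
    · exact h.1

set_option maxRecDepth 100000 in
theorem bad_none : ∀ c < 27, ∀ x < 2400, bad c x = false := by
  have h : anyBelow (fun c => anyBelow (fun x => bad c x) 2400) 27 = false := by decide +kernel
  intro c hc x hx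
  exact anyBelow_spec _ _ (anyBelow_spec _ _ h c hc) x hx

end Pool.Agent.H179.SDP
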