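import Pool.Agent.H179.SDP.Tits

set_option autoImplicit false
open Finset

namespace Pool.Agent.H179.SDP

section
variable {α : Type*} [DecidableEq α] {P : Finset α} {t k : ℕ} {B : Finset (Finset α)}

/-- a polynomial of degree `r` that is nonpositive at all positive integers certifies a block
through `A` that avoids `W` -/
theorem St.avoid (h : St P t k B) (htk : t ≤ k) (A W : Finset α) (hA : A ⊆ P) (hW : W ⊆ P)
    (hd : Disjoint A W) (r : ℕ) (hr : A.card + r ≤ t) (g : ℕ → ℚ)
    (hg : ∀ i, 1 ≤ i → ∑ l ∈ range (r + 1), g l * ff i l ≤ 0)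
    (hpos : 0 < ∑ l ∈ range (r + 1), g l * (ff W.card l * L P.card t k (A.card + l))) :
    ∃ b ∈ B, A ⊆ b ∧ Disjoint b W := by
  by_contra hno
  push Not at hno
  have h1 : ∑ b ∈ B.filter (A ⊆ ·), ∑ l ∈ range (r + 1), g l * ff (b ∩ W).card l
      = ∑ l ∈ range (r + 1), g l * (ff W.card l * L P.card t k (A.card + l)) := by
    rw [sum_comm]
    apply sum_congr rfl
    intro l hl
    rw [mem_range] at hl
    rw [← mul_sum, h.moment1 htk A W hA hW hd l (by omega)]
  rw [← h1] at hpos
  have : ∑ b ∈ B.filter (A ⊆ ·), ∑ l ∈ range (r + 1), g l * ff (b ∩ W).card l ≤ 0 := by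
    apply sum_nonpos
    intro b hb
    rw [mem_filter] at hb
    apply hg
    rw [Nat.one_le_iff_ne_zero, Ne, card_eq_zero, ← disjoint_iff_inter_eq_empty]
    exact hno b hb.1 hb.2
  linarith

end

section
variable {α : Type*} [DecidableEq α] [Fintype α] {m s : ℕ} {B : Finset (Finset α)}

theorem Sys.exists_far (h : Sys m s B) (hs : 2 ≤ s) (hsm : s ≤ m)
    {X Y : Finset α} (hX : X.card = m) (hY : Y ∈ D m B X) (hn : 2 * m + s ≤ Fintype.card α)
    (hv : Fintype.card α - m - s + 1 < (m - s + 1) * (Fintype.card α - 2 * m - s + 2)) :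
    ∃ Z ∈ D m B Y, ¬ Disjoint X Z ∧ s ≤ (Z \ X).card := by
  have hYc := (mem_D.1 hY).1
  have hXY := (mem_D.1 hY).2.1
  have hst := h.stD hYc
  have hP := card_P (m := m) hYc
  set n := Fintype.card α with hn'
  obtain ⟨x, hx⟩ : X.Nonempty := by rw [← card_pos]; omega
  have hOc : ((univ : Finset α) \ (X ∪ Y)).card = n - 2 * m := by
    rw [card_sdiff_of_subset (subset_univ _), card_union_of_disjoint hXY, card_univ, hX, hYc]
    omega
  obtain ⟨R, hR, hRc⟩ := exists_subset_card_eq (show s - 2 ≤ ((univ : Finset α) \ (X ∪ Y)).card by omega)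
  have hRX : ∀ z ∈ R, z ∉ X ∧ z ∉ Y := by
    intro z hz
    have := hR hz
    simp only [mem_sdiff, mem_union, not_or] at this
    exact this.2
  have hxR : x ∉ R := fun hx' => (hRX x hx').1 hx
  have hxY : x ∉ Y := (disjoint_left.1 hXY) hx
  have hAc : (insert x R).card = s - 1 := by rw [card_insert_of_notMem hxR, hRc]; omega
  have hAP : insert x R ⊆ univ \ Y := by
    intro z hz
    simp only [mem_sdiff, mem_univ, true_and]
    rcases mem_insert.1 hz with rfl | hz
    · exact hxY
    · exact (hRX z hz).2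
  by_contra hno
  push Not at hno
  -- all blocks through `insert x R` have fewer than `s` points outside `X`
  have hmul := hst.deg_mul (insert x R) hAP (by omega)
  rw [hAc, hP] at hmul
  have e1 : s - (s - 1) = 1 := by omega
  rw [e1, Nat.choose_one_right, Nat.choose_one_right] at hmul
  set F := (D m B Y).filter (insert x R ⊆ ·) with hF
  have hle : (((univ : Finset α) \ (X ∪ Y)) \ R).card ≤ F.card := by
    have hex : ∀ a ∈ ((univ : Finset α) \ (X ∪ Y)) \ R, ∃ Z ∈ F, a ∈ Z := by
      intro a ha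
      simp only [mem_sdiff, mem_univ, true_and, mem_union, not_or] at ha
      have haA : a ∉ insert x R := by
        rw [mem_insert, not_or]; exact ⟨by rintro rfl; exact ha.1.1 hx, ha.2⟩
      obtain ⟨Z, hZ, hsub⟩ := hst.ex (insert a (insert x R))
        (insert_subset (by simp only [mem_sdiff, mem_univ, true_and]; exact ha.1.2) hAP)
        (by rw [card_insert_of_notMem haA, hAc]; omega)
      exact ⟨Z, mem_filter.2 ⟨hZ, (subset_insert _ _).trans hsub⟩, hsub (mem_insert_self _ _)⟩
    choose! φ hφ hφ' using hex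
    apply card_le_card_of_injOn φ hφ
    intro a ha b hb hab
    by_contra hne
    have hZ := hφ a ha
    rw [hF, mem_filter] at hZ
    have h1 : s ≤ ((φ a) \ X).card := by
      have hsub : insert a (insert b R) ⊆ φ a \ X := by
        intro z hz
        rw [mem_coe] at ha hb
        simp only [mem_sdiff, mem_univ, true_and, mem_union, not_or] at ha hb
        rw [mem_sdiff]
        rcases mem_insert.1 hz with rfl | hz
        · exact ⟨hφ' _ (by simp only [mem_sdiff, mem_univ, true_and, mem_union, not_or]; exact ha),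
            ha.1.1⟩
        rcases mem_insert.1 hz with rfl | hz
        · refine ⟨?_, hb.1.1⟩
          rw [hab]
          exact hφ' _ (by simp only [mem_sdiff, mem_univ, true_and, mem_union, not_or]; exact hb)
        · exact ⟨hZ.2 (mem_insert_of_mem hz), (hRX z hz).1⟩
      refine le_trans ?_ (card_le_card hsub)
      rw [mem_coe] at ha hb
      simp only [mem_sdiff, mem_univ, true_and, mem_union, not_or] at ha hb
      rw [card_insert_of_notMem, card_insert_of_notMem hb.2, hRc]
      · omega
      · rw [mem_insert, not_or]; exact ⟨hne, ha.2⟩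
    have h2 : ¬ Disjoint X (φ a) := by
      rw [not_disjoint_iff]
      exact ⟨x, hx, hZ.2 (mem_insert_self _ _)⟩
    exact absurd h1 (not_le.2 (hno _ hZ.1 h2))
  rw [card_sdiff_of_subset hR, hOc, hRc] at hle
  have e2 : m - (s - 1) = m - s + 1 := by omega
  have e3 : n - m - (s - 1) = n - m - s + 1 := by omega
  rw [e2, e3] at hmul
  have e4 : n - 2 * m - (s - 2) = n - 2 * m - s + 2 := by omega
  rw [e4] at hle
  have : (m - s + 1) * (n - 2 * m - s + 2) ≤ (m - s + 1) * F.card := Nat.mul_le_mul_left _ hle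
  rw [mul_comm (m - s + 1) F.card, hmul] at this
  omega

/-- the direct argument -/
theorem Sys.direct (h : Sys m s B) (hs : 2 ≤ s) (hsm : s < m) (r : ℕ) (hr : r ≤ s)
    (hn : 4 * m ≤ Fintype.card α) (g : ℕ → ℚ)
    (hv : Fintype.card α - m - s + 1 < (m - s + 1) * (Fintype.card α - 2 * m - s + 2))
    (hg : ∀ i, 1 ≤ i → ∑ l ∈ range (r + 1), g l * ff i l ≤ 0)
    (hpos : 0 < ∑ l ∈ range (r + 1), g l *
      (ff (3 * m - s - 2) l * L (Fintype.card α - m) s m (s - r + l))) : False := by
  set n := Fintype.card α with hn'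
  obtain ⟨X, hX1, hX⟩ := exists_subset_card_eq (show m ≤ (univ : Finset α).card by
    rw [card_univ]; omega)
  have hPX := card_P (m := m) hX
  obtain ⟨Y, hY, _⟩ := (h.stD hX).exists_block (S := ∅) (empty_subset _) (by simp) (by omega)
  obtain ⟨Z, hZ, hXZ, hZX⟩ := h.exists_far hs hsm.le hX hY (by omega) (by omega)
  have hYc := (mem_D.1 hY).1
  have hZc := (mem_D.1 hZ).1
  have hXY := (mem_D.1 hY).2.1
  have hYZ := (mem_D.1 hZ).2.1
  have hPY := card_P (m := m) hYc
  have hYZ' : Y ∈ D m B Z := D_symm hYc hZ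
  obtain ⟨S, hS, hSc⟩ := exists_subset_card_eq hZX
  obtain ⟨C, hC, hSC⟩ := (h.stD hX).ex S (hS.trans (sdiff_subset_sdiff (subset_univ _) (Subset.refl _))) hSc
  have hCc := (mem_D.1 hC).1
  have hXC := (mem_D.1 hC).2.1
  have hCZ : s ≤ (C ∩ Z).card := by
    rw [← hSc]; exact card_le_card (subset_inter hSC (hS.trans sdiff_subset))
  have hCY := h.meets hX hY hYZ' hZc hXZ hC hCZ
  set W := (X ∪ Z ∪ C) \ Y with hW
  have hWc : W.card ≤ 3 * m - s - 2 := by
    have h1 : W ⊆ X ∪ ((Z \ X) ∪ ((C \ Z) \ Y)) := by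
      intro z hz
      simp only [hW, mem_sdiff, mem_union] at hz ⊢
      tauto
    have h2 : (Z \ X).card ≤ m - 1 := by
      have : (Z \ X).card + (Z ∩ X).card = Z.card := by
        rw [add_comm]; exact card_inter_add_card_sdiff _ _
      have h3 : 0 < (Z ∩ X).card := by
        rw [card_pos, nonempty_iff_ne_empty, Ne, ← disjoint_iff_inter_eq_empty]
        exact fun hd => hXZ hd.symm
      omega
    have h4 : ((C \ Z) \ Y).card ≤ m - s - 1 := by
      have e : (C \ Z) ∩ Y = C ∩ Y := by
        ext z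
        simp only [mem_inter, mem_sdiff]
        constructor
        · rintro ⟨⟨a, _⟩, b⟩; exact ⟨a, b⟩
        · rintro ⟨a, b⟩; exact ⟨⟨a, (disjoint_left.1 hYZ) b⟩, b⟩
      have h5 : (C \ Z).card + (C ∩ Z).card = C.card := by
        rw [add_comm]; exact card_inter_add_card_sdiff _ _
      have h6 : ((C \ Z) \ Y).card + ((C \ Z) ∩ Y).card = (C \ Z).card := by
        rw [add_comm]; exact card_inter_add_card_sdiff _ _
      have h7 : 0 < (C ∩ Y).card := by
        rw [card_pos, nonempty_iff_ne_empty, Ne, ← disjoint_iff_inter_eq_empty]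
        exact hCY
      rw [e] at h6
      omega
    calc W.card ≤ _ := card_le_card h1
      _ ≤ X.card + ((Z \ X) ∪ ((C \ Z) \ Y)).card := card_union_le _ _
      _ ≤ X.card + ((Z \ X).card + ((C \ Z) \ Y).card) := by
          gcongr; exact card_union_le _ _
      _ ≤ 3 * m - s - 2 := by omega
  have hWP : W ⊆ univ \ Y := sdiff_subset_sdiff (subset_univ _) (Subset.refl _)
  obtain ⟨W', hWW, hW'P, hW'c⟩ := exists_subsuperset_card_eq hWP hWc (by rw [hPY]; omega)
  have hR : s - r ≤ ((univ \ Y) \ W').card := by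
    rw [card_sdiff_of_subset hW'P, hPY, hW'c]; omega
  obtain ⟨A, hA, hAc⟩ := exists_subset_card_eq hR
  have hAP : A ⊆ univ \ Y := hA.trans sdiff_subset
  have hAW : Disjoint A W' := by
    rw [disjoint_left]; intro z hz; exact (mem_sdiff.1 (hA hz)).2
  obtain ⟨Y', hY', hAY', hd⟩ := (h.stD hYc).avoid hsm.le A W' hAP hW'P hAW r (by omega) g hg
    (by rw [hW'c, hAc, hPY]; exact hpos)
  have hd' : Disjoint Y' W := disjoint_of_subset_right hWW hd
  have hYY' := (mem_D.1 hY').2.1
  have dX : Disjoint X Y' := by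
    rw [disjoint_left]; intro z hz hz'
    refine (disjoint_left.1 hd') hz' ?_
    rw [hW, mem_sdiff]
    exact ⟨mem_union_left _ (mem_union_left _ hz), (disjoint_left.1 hXY) hz⟩
  have dZ : Disjoint Z Y' := by
    rw [disjoint_left]; intro z hz hz'
    refine (disjoint_left.1 hd') hz' ?_
    rw [hW, mem_sdiff]
    exact ⟨mem_union_left _ (mem_union_right _ hz), fun hz'' => (disjoint_left.1 hYZ) hz'' hz⟩
  have dC : Disjoint C Y' := by
    rw [disjoint_left]; intro z hz hz'
    refine (disjoint_left.1 hd') hz' ?_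
    rw [hW, mem_sdiff]
    exact ⟨mem_union_right _ hz, fun hz'' => (disjoint_left.1 hYY') hz'' hz'⟩
  obtain ⟨c1, c2⟩ := h.closed hY hYZ' hY' dX dZ
  exact h.meets hX c1 c2 hZc hXZ hC hCZ dC

end

end Pool.Agent.H179.SDP
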