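import Pool.Agent.H179.SDP.Mix

set_option autoImplicit false
open Finset

namespace Pool.Agent.H179.SDP

/-- value of a polynomial given by its coefficients in falling factorials -/
def qv (s : ℕ) (co : ℕ → ℕ → ℚ) (i j : ℕ) : ℚ :=
  ∑ a ∈ range (s + 1), ∑ c ∈ range (s + 1), co a c * (ff i a * ff j c)

/-- the sum of the polynomial over all blocks -/
def qs (s : ℕ) (co : ℕ → ℕ → ℚ) (v m i j : ℕ) : ℚ :=
  ∑ a ∈ range (s + 1), ∑ c ∈ range (s + 1), co a c * (ff i a * ff j c * L v s m (a + c))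

section
variable {α : Type*} [DecidableEq α]

theorem count_q {m s : ℕ} {P : Finset α} {E : Finset (Finset α)} (hE : St P s m E) (hsm : s ≤ m)
    (hs : 1 ≤ s) {X Z : Finset α} (hX : X ∈ E) (hZ : Z ∈ E) (hne : X ≠ Z) (co : ℕ → ℕ → ℚ)
    (hco : ∀ a c, s < a + c → co a c = 0)
    (hq : ∀ i < s, ∀ j < s, qv s co i j ≤ if (i = 0 ∧ j = 0) then 1 else 0) :
    qs s co P.card m m (Z \ X).card - qv s co m 0 - qv s co (Z ∩ X).card (Z \ X).card
      ≤ ((E.filter (fun C => Disjoint C X ∧ Disjoint C Z)).card : ℚ) := by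
  have hXc := hE.card X hX
  have hd : Disjoint X (Z \ X) := disjoint_sdiff
  have hsub : Z \ X ⊆ P := sdiff_subset.trans (hE.sub Z hZ)
  have h1 : ∑ C ∈ E, qv s co (C ∩ X).card (C ∩ (Z \ X)).card = qs s co P.card m m (Z \ X).card := by
    unfold qv qs
    rw [sum_comm]
    apply sum_congr rfl; intro a _
    rw [sum_comm]
    apply sum_congr rfl; intro c _
    rw [← mul_sum]
    by_cases hac : s < a + c
    · rw [hco a c hac, zero_mul, zero_mul]
    · have := hE.moment hsm ∅ X (Z \ X) (empty_subset _) (hE.sub X hX) hsub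
        (disjoint_empty_left _) (disjoint_empty_left _) hd a c (by simpa using not_lt.1 hac)
      simp only [empty_subset, filter_true, card_empty, zero_add] at this
      rw [this, hXc]
  have hXE : E = insert X (insert Z ((E.erase X).erase Z)) := by
    rw [insert_erase (mem_erase.2 ⟨hne.symm, hZ⟩), insert_erase hX]
  have hX' : X ∉ insert Z ((E.erase X).erase Z) := by
    rw [mem_insert, not_or]
    exact ⟨hne, fun hh => (mem_erase.1 (mem_of_mem_erase hh)).1 rfl⟩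
  have hZ' : Z ∉ (E.erase X).erase Z := fun hh => (mem_erase.1 hh).1 rfl
  have h2 : ∑ C ∈ E, qv s co (C ∩ X).card (C ∩ (Z \ X)).card
      = qv s co m 0 + (qv s co (Z ∩ X).card (Z \ X).card
        + ∑ C ∈ (E.erase X).erase Z, qv s co (C ∩ X).card (C ∩ (Z \ X)).card) := by
    conv_lhs => rw [hXE]
    rw [sum_insert hX', sum_insert hZ', inter_self, hXc, disjoint_iff_inter_eq_empty.1 hd, card_empty,
      inter_eq_right.2 (sdiff_subset : Z \ X ⊆ Z)]
  have h3 : ∑ C ∈ (E.erase X).erase Z, qv s co (C ∩ X).card (C ∩ (Z \ X)).card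
      ≤ ((E.filter (fun C => Disjoint C X ∧ Disjoint C Z)).card : ℚ) := by
    have h4 : ∀ C ∈ (E.erase X).erase Z, qv s co (C ∩ X).card (C ∩ (Z \ X)).card
        ≤ if (Disjoint C X ∧ Disjoint C Z) then (1:ℚ) else 0 := by
      intro C hC
      rw [mem_erase, mem_erase] at hC
      have i1 := hE.inter_lt hC.2.2 hX hC.2.1
      have i2 := hE.inter_lt hC.2.2 hZ hC.1
      have i3 : (C ∩ (Z \ X)).card ≤ (C ∩ Z).card :=
        card_le_card (inter_subset_inter_left sdiff_subset)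
      refine (hq _ i1 _ (by omega)).trans ?_
      by_cases hc : (C ∩ X).card = 0 ∧ (C ∩ (Z \ X)).card = 0
      · rw [if_pos hc]
        have d1 : Disjoint C X := by
          rw [disjoint_iff_inter_eq_empty]; exact card_eq_zero.1 hc.1
        have d2 : Disjoint C Z := by
          rw [disjoint_left]
          intro z hz hz'
          have hzX : z ∉ X := (disjoint_left.1 d1) hz
          have : z ∈ C ∩ (Z \ X) := mem_inter.2 ⟨hz, mem_sdiff.2 ⟨hz', hzX⟩⟩
          rw [card_eq_zero.1 hc.2] at this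
          exact absurd this (notMem_empty _)
        rw [if_pos ⟨d1, d2⟩]
      · rw [if_neg hc]; split_ifs <;> norm_num
    refine (sum_le_sum h4).trans ?_
    rw [← sum_filter, sum_const, nsmul_eq_mul, mul_one]
    exact_mod_cast card_le_card (filter_subset_filter _ ((erase_subset _ _).trans (erase_subset _ _)))
  rw [← h1, h2]; linarith

end

/-- coefficients for `s = 4` -/
def co4 : ℕ → ℕ → ℚ
  | 0, 0 => 1
  | 1, 0 => -1
  | 0, 1 => -1
  | 2, 0 => 1/2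
  | 0, 2 => 1/2
  | 3, 0 => -1/6
  | 0, 3 => -1/6
  | 1, 1 => 1
  | 1, 2 => -1/2
  | 2, 1 => -1/2
  | 1, 3 => 1/6
  | 3, 1 => 1/6
  | 2, 2 => 1/9
  | _, _ => 0

/-- coefficients for `s = 3` -/
def co3 : ℕ → ℕ → ℚ
  | 0, 0 => 1
  | 1, 0 => -1
  | 0, 1 => -1
  | 2, 0 => 1/2
  | 0, 2 => 1/2
  | 1, 1 => 3/4
  | 1, 2 => -1/4
  | 2, 1 => -1/4
  | _, _ => 0

theorem hco4 (a c : ℕ) (h : 4 < a + c) : co4 a c = 0 := by
  unfold co4
  split <;> first | rfl | omega

theorem hco3 (a c : ℕ) (h : 3 < a + c) : co3 a c = 0 := by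
  unfold co3
  split <;> first | rfl | omega

theorem qv4 (i j : ℕ) : qv 4 co4 i j = 1 - i - j + (1/2) * (i * (i - 1)) + (1/2) * (j * (j - 1))
    - (1/6) * (i * (i - 1) * (i - 2)) - (1/6) * (j * (j - 1) * (j - 2)) + i * j
    - (1/2) * (i * (j * (j - 1))) - (1/2) * (i * (i - 1) * j) + (1/6) * (i * (j * (j - 1) * (j - 2)))
    + (1/6) * (i * (i - 1) * (i - 2) * j) + (1/9) * (i * (i - 1) * (j * (j - 1))) := by
  unfold qv
  simp only [sum_range_succ, range_zero, sum_empty, co4, ff_zero, ff1, ff2, ff3, ff4]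
  ring

theorem qv3 (i j : ℕ) : qv 3 co3 i j = 1 - i - j + (1/2) * (i * (i - 1)) + (1/2) * (j * (j - 1))
    + (3/4) * (i * j) - (1/4) * (i * (j * (j - 1))) - (1/4) * (i * (i - 1) * j) := by
  unfold qv
  simp only [sum_range_succ, range_zero, sum_empty, co3, ff_zero, ff1, ff2, ff3]
  ring

theorem hq4 : ∀ i < 4, ∀ j < 4, qv 4 co4 i j ≤ if (i = 0 ∧ j = 0) then 1 else 0 := by
  intro i hi j hj
  rw [qv4]
  interval_cases i <;> interval_cases j <;> norm_num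

theorem hq3 : ∀ i < 3, ∀ j < 3, qv 3 co3 i j ≤ if (i = 0 ∧ j = 0) then 1 else 0 := by
  intro i hi j hj
  rw [qv3]
  interval_cases i <;> interval_cases j <;> norm_num

theorem qs4 (v m M j : ℕ) : qs 4 co4 v m M j = L v 4 m 0 - (M + j) * L v 4 m 1
    + ((1/2) * (M * (M - 1)) + (1/2) * (j * (j - 1)) + M * j) * L v 4 m 2
    + (- (1/6) * (M * (M - 1) * (M - 2)) - (1/6) * (j * (j - 1) * (j - 2))
      - (1/2) * (M * (j * (j - 1))) - (1/2) * (M * (M - 1) * j)) * L v 4 m 3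
    + ((1/6) * (M * (j * (j - 1) * (j - 2)))
    + (1/6) * (M * (M - 1) * (M - 2) * j) + (1/9) * (M * (M - 1) * (j * (j - 1)))) * L v 4 m 4 := by
  unfold qs
  simp only [sum_range_succ, range_zero, sum_empty, co4, ff_zero, ff1, ff2, ff3, ff4]
  norm_num
  ring

theorem qs3 (v m M j : ℕ) : qs 3 co3 v m M j = L v 3 m 0 - (M + j) * L v 3 m 1
    + ((1/2) * (M * (M - 1)) + (1/2) * (j * (j - 1)) + (3/4) * (M * j)) * L v 3 m 2
    + (- (1/4) * (M * (j * (j - 1))) - (1/4) * (M * (M - 1) * j)) * L v 3 m 3 := by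
  unfold qs
  simp only [sum_range_succ, range_zero, sum_empty, co3, ff_zero, ff1, ff2, ff3]
  norm_num
  ring

/-- the numbers `L` for `s = 4`, `m = w + 3`, `v = w (w + 1 + x) + 3` -/
theorem L4_vals (w x v m : ℕ) (hm : m = w + 3) (hv : v = w * (w + 1 + x) + 3) (hw : 1 ≤ w) :
    L v 4 m 4 = 1 ∧ L v 4 m 3 = (w:ℚ) + 1 + x ∧
    L v 4 m 2 * ((w:ℚ) + 1) = ((w:ℚ) + 1 + x) * ((w:ℚ) * (w + 1 + x) + 1) ∧
    L v 4 m 1 * ((w:ℚ) + 2) = L v 4 m 2 * ((w:ℚ) * (w + 1 + x) + 2) ∧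
    L v 4 m 0 * ((w:ℚ) + 3) = L v 4 m 1 * ((w:ℚ) * (w + 1 + x) + 3) := by
  have hv4 : 4 ≤ v := by rw [hv]; nlinarith
  have q3 := L_rec v 4 m 3 (by omega) (by omega) hv4
  have q2 := L_rec v 4 m 2 (by omega) (by omega) hv4
  have q1 := L_rec v 4 m 1 (by omega) (by omega) hv4
  have q0 := L_rec v 4 m 0 (by omega) (by omega) hv4
  have hmq : (m:ℚ) = w + 3 := by rw [hm]; push_cast; ring
  have hvq : (v:ℚ) = w * (w + 1 + x) + 3 := by rw [hv]; push_cast; ring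
  rw [hmq, hvq] at q3 q2 q1 q0
  simp only [Nat.reduceAdd, L_top] at q3 q2 q1 q0
  push_cast at q3 q2 q1 q0
  have hw0 : (w:ℚ) ≠ 0 := by
    have : (1:ℚ) ≤ w := by exact_mod_cast hw
    linarith
  have e3 : L v 4 m 3 = (w:ℚ) + 1 + x := by
    apply mul_right_cancel₀ hw0
    linear_combination q3
  refine ⟨L_top _ _ _, e3, ?_, ?_, ?_⟩
  · rw [e3] at q2; linear_combination q2
  · linear_combination q1
  · linear_combination q0

theorem L3_vals (w x v m : ℕ) (hm : m = w + 2) (hv : v = w * (w + 1 + x) + 2) (hw : 1 ≤ w) :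
    L v 3 m 3 = 1 ∧ L v 3 m 2 = (w:ℚ) + 1 + x ∧
    L v 3 m 1 * ((w:ℚ) + 1) = ((w:ℚ) + 1 + x) * ((w:ℚ) * (w + 1 + x) + 1) ∧
    L v 3 m 0 * ((w:ℚ) + 2) = L v 3 m 1 * ((w:ℚ) * (w + 1 + x) + 2) := by
  have hv4 : 3 ≤ v := by rw [hv]; nlinarith
  have q2 := L_rec v 3 m 2 (by omega) (by omega) hv4
  have q1 := L_rec v 3 m 1 (by omega) (by omega) hv4
  have q0 := L_rec v 3 m 0 (by omega) (by omega) hv4
  have hmq : (m:ℚ) = w + 2 := by rw [hm]; push_cast; ring
  have hvq : (v:ℚ) = w * (w + 1 + x) + 2 := by rw [hv]; push_cast; ring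
  rw [hmq, hvq] at q2 q1 q0
  simp only [Nat.reduceAdd, L_top] at q2 q1 q0
  push_cast at q2 q1 q0
  have hw0 : (w:ℚ) ≠ 0 := by
    have : (1:ℚ) ≤ w := by exact_mod_cast hw
    linarith
  have e3 : L v 3 m 2 = (w:ℚ) + 1 + x := by
    apply mul_right_cancel₀ hw0
    linear_combination q2
  refine ⟨L_top _ _ _, e3, ?_, ?_⟩
  · rw [e3] at q1; linear_combination q1
  · linear_combination q0

/-- the polynomial of `co4` -/
def qp4 (i j : ℚ) : ℚ := 1 - i - j + (1/2) * (i * (i - 1)) + (1/2) * (j * (j - 1))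
    - (1/6) * (i * (i - 1) * (i - 2)) - (1/6) * (j * (j - 1) * (j - 2)) + i * j
    - (1/2) * (i * (j * (j - 1))) - (1/2) * (i * (i - 1) * j) + (1/6) * (i * (j * (j - 1) * (j - 2)))
    + (1/6) * (i * (i - 1) * (i - 2) * j) + (1/9) * (i * (i - 1) * (j * (j - 1)))

/-- the polynomial of `co3` -/
def qp3 (i j : ℚ) : ℚ := 1 - i - j + (1/2) * (i * (i - 1)) + (1/2) * (j * (j - 1))
    + (3/4) * (i * j) - (1/4) * (i * (j * (j - 1))) - (1/4) * (i * (i - 1) * j)

/-- auxiliary polynomial -/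
def RH4 (W V R j : ℚ) : ℚ :=
  9 * (R * (V + 1) * (V + 2) * (V + 3))
  - 10 * ((W + 3) + (W + 3 - j)) * (W + 3) * (R * (V + 1) * (V + 2))
  + 10 * ((1/2) * ((W + 3) * ((W + 3) - 1)) + (1/2) * ((W + 3 - j) * ((W + 3 - j) - 1)) + (W + 3) * (W + 3 - j))
    * ((W + 2) * (W + 3)) * (R * (V + 1))
  + 10 * ((- (1/6) * ((W + 3) * ((W + 3) - 1) * ((W + 3) - 2)) - (1/6) * ((W + 3 - j) * ((W + 3 - j) - 1) * ((W + 3 - j) - 2))
          - (1/2) * ((W + 3) * ((W + 3 - j) * ((W + 3 - j) - 1))) - (1/2) * ((W + 3) * ((W + 3) - 1) * (W + 3 - j))) * R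
      + ((1/6) * ((W + 3) * ((W + 3 - j) * ((W + 3 - j) - 1) * ((W + 3 - j) - 2)))
        + (1/6) * ((W + 3) * ((W + 3) - 1) * ((W + 3) - 2) * (W + 3 - j)) + (1/9) * ((W + 3) * ((W + 3) - 1) * ((W + 3 - j) * ((W + 3 - j) - 1))))
      - qp4 (W + 3) 0 - qp4 j (W + 3 - j)) * ((W + 1) * (W + 2) * (W + 3))

/-- auxiliary polynomial -/
def RH3 (W V R j : ℚ) : ℚ :=
  9 * (R * (V + 1) * (V + 2))
  - 10 * ((W + 2) + (W + 2 - j)) * (W + 2) * (R * (V + 1))
  + 10 * (((1/2) * ((W + 2) * ((W + 2) - 1)) + (1/2) * ((W + 2 - j) * ((W + 2 - j) - 1)) + (3/4) * ((W + 2) * (W + 2 - j))) * R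
      + (- (1/4) * ((W + 2) * ((W + 2 - j) * ((W + 2 - j) - 1))) - (1/4) * ((W + 2) * ((W + 2) - 1) * (W + 2 - j)))
      - qp3 (W + 2) 0 - qp3 j (W + 2 - j)) * ((W + 1) * (W + 2))

/-- at least a tenth of the blocks, `s = 4` -/
theorem tenth4 (w x v m j : ℕ) (hm : m = w + 3) (hv : v = w * (w + 1 + x) + 3) (hw : 100 ≤ w)
    (hx : 4 ≤ x) (hj1 : 1 ≤ j) (hj3 : j ≤ 3) :
    L v 4 m 0 ≤ 10 * (qs 4 co4 v m m (m - j) - qv 4 co4 m 0 - qv 4 co4 j (m - j)) := by
  obtain ⟨h4, h3, h2, h1, h0⟩ := L4_vals w x v m hm hv (by omega)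
  rw [qs4, qv4, qv4, h4, h3]
  obtain ⟨w', rfl⟩ := Nat.exists_eq_add_of_le hw
  obtain ⟨x', rfl⟩ := Nat.exists_eq_add_of_le hx
  have hmj : ((m - j : ℕ) : ℚ) = (w':ℚ) + 103 - j := by
    rw [Nat.cast_sub (by omega), hm]; push_cast; ring
  have hmq : (m:ℚ) = w' + 103 := by rw [hm]; push_cast; ring
  rw [hmj, hmq]
  push_cast at h2 h1 h0 ⊢
  generalize L v 4 m 2 = y2 at *
  generalize L v 4 m 1 = y1 at *
  generalize L v 4 m 0 = y0 at *
  set W : ℚ := 100 + (w':ℚ) with hW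
  set V : ℚ := W * (W + 1 + (4 + x')) with hV
  have t1 : y1 * ((W + 1) * (W + 2)) = (W + 1 + (4 + x')) * (V + 1) * (V + 2) := by
    linear_combination (W + 1) * h1 + (V + 2) * h2
  have t0 : y0 * ((W + 1) * (W + 2) * (W + 3))
      = (W + 1 + (4 + x')) * (V + 1) * (V + 2) * (V + 3) := by
    linear_combination (W + 1) * (W + 2) * h0 + (V + 3) * t1
  have hK : 0 < (W + 1) * (W + 2) * (W + 3) := by positivity
  rw [← sub_nonneg]
  refine nonneg_of_mul_nonneg_left ?_ hK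
  have hj : j = 1 ∨ j = 2 ∨ j = 3 := by omega
  have key : ∀ j : ℚ,
      (10 * ((y0 - ((W + 3) + (W + 3 - j)) * y1
        + ((1/2) * ((W + 3) * ((W + 3) - 1)) + (1/2) * ((W + 3 - j) * ((W + 3 - j) - 1)) + (W + 3) * (W + 3 - j)) * y2
        + (- (1/6) * ((W + 3) * ((W + 3) - 1) * ((W + 3) - 2)) - (1/6) * ((W + 3 - j) * ((W + 3 - j) - 1) * ((W + 3 - j) - 2))
          - (1/2) * ((W + 3) * ((W + 3 - j) * ((W + 3 - j) - 1))) - (1/2) * ((W + 3) * ((W + 3) - 1) * (W + 3 - j))) * (W + 1 + (4 + x'))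
        + ((1/6) * ((W + 3) * ((W + 3 - j) * ((W + 3 - j) - 1) * ((W + 3 - j) - 2)))
        + (1/6) * ((W + 3) * ((W + 3) - 1) * ((W + 3) - 2) * (W + 3 - j)) + (1/9) * ((W + 3) * ((W + 3) - 1) * ((W + 3 - j) * ((W + 3 - j) - 1)))) * 1)
        - qp4 (W + 3) 0 - qp4 j (W + 3 - j)) - y0) * ((W + 1) * (W + 2) * (W + 3))
      = RH4 W V (W + 1 + (4 + x')) j := by
    intro j
    unfold RH4
    linear_combination 9 * t0 - 10 * ((W + 3) + (W + 3 - j)) * (W + 3) * t1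
      + 10 * ((1/2) * ((W + 3) * ((W + 3) - 1)) + (1/2) * ((W + 3 - j) * ((W + 3 - j) - 1)) + (W + 3) * (W + 3 - j))
        * ((W + 2) * (W + 3)) * h2
  rcases hj with rfl | rfl | rfl
  · have e := key (1:ℚ)
    have hp : 0 ≤ RH4 W V (W + 1 + (4 + x')) 1 := by
      unfold RH4 qp4
      simp only [hV, hW]
      ring_nf
      positivity
    refine hp.trans (le_of_eq ?_)
    rw [← e]
    simp only [hW, qp4]
    push_cast
    ring
  · have e := key (2:ℚ)
    have hp : 0 ≤ RH4 W V (W + 1 + (4 + x')) 2 := by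
      unfold RH4 qp4
      simp only [hV, hW]
      ring_nf
      positivity
    refine hp.trans (le_of_eq ?_)
    rw [← e]
    simp only [hW, qp4]
    push_cast
    ring
  · have e := key (3:ℚ)
    have hp : 0 ≤ RH4 W V (W + 1 + (4 + x')) 3 := by
      unfold RH4 qp4
      simp only [hV, hW]
      ring_nf
      positivity
    refine hp.trans (le_of_eq ?_)
    rw [← e]
    simp only [hW, qp4]
    push_cast
    ring

/-- at least a tenth of the blocks, `s = 3` -/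
theorem tenth3 (w x v m j : ℕ) (hm : m = w + 2) (hv : v = w * (w + 1 + x) + 2) (hw : 100 ≤ w)
    (hx : 4 ≤ x) (hj1 : 1 ≤ j) (hj3 : j ≤ 2) :
    L v 3 m 0 ≤ 10 * (qs 3 co3 v m m (m - j) - qv 3 co3 m 0 - qv 3 co3 j (m - j)) := by
  obtain ⟨h3, h2, h1, h0⟩ := L3_vals w x v m hm hv (by omega)
  rw [qs3, qv3, qv3, h3, h2]
  obtain ⟨w', rfl⟩ := Nat.exists_eq_add_of_le hw
  obtain ⟨x', rfl⟩ := Nat.exists_eq_add_of_le hx
  have hmj : ((m - j : ℕ) : ℚ) = (w':ℚ) + 102 - j := by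
    rw [Nat.cast_sub (by omega), hm]; push_cast; ring
  have hmq : (m:ℚ) = w' + 102 := by rw [hm]; push_cast; ring
  rw [hmj, hmq]
  push_cast at h1 h0 ⊢
  generalize L v 3 m 1 = y1 at *
  generalize L v 3 m 0 = y0 at *
  set W : ℚ := 100 + (w':ℚ) with hW
  set V : ℚ := W * (W + 1 + (4 + x')) with hV
  have t0 : y0 * ((W + 1) * (W + 2)) = (W + 1 + (4 + x')) * (V + 1) * (V + 2) := by
    linear_combination (W + 1) * h0 + (V + 2) * h1
  have hK : 0 < (W + 1) * (W + 2) := by positivity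
  rw [← sub_nonneg]
  refine nonneg_of_mul_nonneg_left ?_ hK
  have hj : j = 1 ∨ j = 2 := by omega
  have key : ∀ j : ℚ,
      (10 * ((y0 - ((W + 2) + (W + 2 - j)) * y1
        + ((1/2) * ((W + 2) * ((W + 2) - 1)) + (1/2) * ((W + 2 - j) * ((W + 2 - j) - 1)) + (3/4) * ((W + 2) * (W + 2 - j))) * (W + 1 + (4 + x'))
        + (- (1/4) * ((W + 2) * ((W + 2 - j) * ((W + 2 - j) - 1))) - (1/4) * ((W + 2) * ((W + 2) - 1) * (W + 2 - j))) * 1)
        - qp3 (W + 2) 0 - qp3 j (W + 2 - j)) - y0) * ((W + 1) * (W + 2))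
      = RH3 W V (W + 1 + (4 + x')) j := by
    intro j
    unfold RH3
    linear_combination 9 * t0 - 10 * ((W + 2) + (W + 2 - j)) * (W + 2) * h1
  rcases hj with rfl | rfl
  · have e := key (1:ℚ)
    have hp : 0 ≤ RH3 W V (W + 1 + (4 + x')) 1 := by
      unfold RH3 qp3
      simp only [hV, hW]
      ring_nf
      positivity
    refine hp.trans (le_of_eq ?_)
    rw [← e]
    simp only [hW, qp3]
    push_cast
    ring
  · have e := key (2:ℚ)
    have hp : 0 ≤ RH3 W V (W + 1 + (4 + x')) 2 := by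
      unfold RH3 qp3
      simp only [hV, hW]
      ring_nf
      positivity
    refine hp.trans (le_of_eq ?_)
    rw [← e]
    simp only [hW, qp3]
    push_cast
    ring

end Pool.Agent.H179.SDP
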