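import Mathlib

set_option autoImplicit false
open Finset

namespace Pool.Agent.H179.SDP

variable {α : Type*} [DecidableEq α]

/-- `B` is a Steiner system with parameters `t`, `k` on the point set `P`. -/
structure St (P : Finset α) (t k : ℕ) (B : Finset (Finset α)) : Prop where
  sub : ∀ b ∈ B, b ⊆ P
  card : ∀ b ∈ B, b.card = k
  ex : ∀ s, s ⊆ P → s.card = t → ∃ b ∈ B, s ⊆ b
  uniq : ∀ s : Finset α, s.card = t → ∀ b ∈ B, ∀ c ∈ B, s ⊆ b → s ⊆ c → b = c

/-- number of blocks through `a` points, as a rational number -/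
def L (v t k a : ℕ) : ℚ := ((v - a).choose (t - a) : ℚ) / ((k - a).choose (t - a) : ℚ)

variable {P : Finset α} {t k : ℕ} {B : Finset (Finset α)}

theorem card_supersets {P : Finset α} (A : Finset α) (hA : A ⊆ P) (t : ℕ) (ht : A.card ≤ t) :
    ((powersetCard t P).filter (A ⊆ ·)).card = (P.card - A.card).choose (t - A.card) := by
  rw [← card_sdiff_of_subset hA, ← card_powersetCard]
  apply card_bij' (fun s _ => s \ A) (fun s _ => s ∪ A)
  · intro s hs
    simp only [mem_filter, mem_powersetCard] at hs ⊢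
    refine ⟨sdiff_subset_sdiff hs.1.1 (Subset.refl _), ?_⟩
    rw [card_sdiff_of_subset hs.2, hs.1.2]
  · intro s hs
    simp only [mem_filter, mem_powersetCard] at hs ⊢
    have hd : Disjoint s A := by
      rw [disjoint_left]; intro x hx hx'
      exact (mem_sdiff.1 (hs.1 hx)).2 hx'
    refine ⟨⟨union_subset (hs.1.trans sdiff_subset) hA, ?_⟩, subset_union_right⟩
    rw [card_union_of_disjoint hd, hs.2]; omega
  · intro s hs
    simp only [mem_filter, mem_powersetCard] at hs
    exact sdiff_union_of_subset hs.2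
  · intro s hs
    simp only [mem_powersetCard] at hs
    have hd : Disjoint s A := by
      rw [disjoint_left]; intro x hx hx'
      exact (mem_sdiff.1 (hs.1 hx)).2 hx'
    ext x
    simp only [mem_sdiff, mem_union]
    constructor
    · rintro ⟨h | h, h'⟩
      · exact h
      · exact absurd h h'
    · intro h
      exact ⟨Or.inl h, fun h' => (disjoint_left.1 hd) h h'⟩

theorem St.deg_mul (h : St P t k B) (A : Finset α) (hA : A ⊆ P) (ht : A.card ≤ t) :
    (B.filter (A ⊆ ·)).card * (k - A.card).choose (t - A.card)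
      = (P.card - A.card).choose (t - A.card) := by
  rw [← card_supersets A hA t ht]
  -- double counting
  have h1 : ∀ b ∈ B.filter (A ⊆ ·),
      (((powersetCard t P).filter (A ⊆ ·)).filter (· ⊆ b)).card
        = (k - A.card).choose (t - A.card) := by
    intro b hb
    rw [mem_filter] at hb
    rw [← h.card b hb.1, ← card_supersets A hb.2 t ht]
    congr 1
    ext s
    simp only [mem_filter, mem_powersetCard]
    constructor
    · rintro ⟨⟨⟨h1, h2⟩, h3⟩, h4⟩; exact ⟨⟨h4, h2⟩, h3⟩
    · rintro ⟨⟨h4, h2⟩, h3⟩; exact ⟨⟨⟨h4.trans (h.sub b hb.1), h2⟩, h3⟩, h4⟩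
  have h2 : ∀ s ∈ (powersetCard t P).filter (A ⊆ ·),
      ((B.filter (A ⊆ ·)).filter (s ⊆ ·)).card = 1 := by
    intro s hs
    simp only [mem_filter, mem_powersetCard] at hs
    obtain ⟨b, hb, hsb⟩ := h.ex s hs.1.1 hs.1.2
    rw [card_eq_one]
    refine ⟨b, ?_⟩
    ext c
    simp only [mem_filter, mem_singleton]
    constructor
    · rintro ⟨⟨hc, _⟩, hsc⟩; exact (h.uniq s hs.1.2 b hb c hc hsb hsc).symm
    · rintro rfl; exact ⟨⟨hb, hs.2.trans hsb⟩, hsb⟩
  have := sum_card_bipartiteAbove_eq_sum_card_bipartiteBelow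
    (s := B.filter (A ⊆ ·)) (t := (powersetCard t P).filter (A ⊆ ·)) (fun b s => s ⊆ b)
  simp only [bipartiteAbove, bipartiteBelow] at this
  rw [sum_congr rfl h1, sum_congr rfl h2] at this
  simpa using this

theorem St.deg (h : St P t k B) (htk : t ≤ k) (A : Finset α) (hA : A ⊆ P) (ht : A.card ≤ t) :
    ((B.filter (A ⊆ ·)).card : ℚ) = L P.card t k A.card := by
  have h1 := h.deg_mul A hA ht
  have h2 : 0 < (k - A.card).choose (t - A.card) := Nat.choose_pos (by omega)
  rw [L, eq_div_iff (by positivity)]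
  exact_mod_cast h1

theorem L_top (v t k : ℕ) : L v t k t = 1 := by simp [L]

theorem L_rec (v t k a : ℕ) (ha : a < t) (htk : t ≤ k) (hv : t ≤ v) :
    L v t k a * (k - a) = L v t k (a + 1) * (v - a) := by
  have e1 : v - a = (v - (a+1)) + 1 := by omega
  have e2 : t - a = (t - (a+1)) + 1 := by omega
  have e3 : k - a = (k - (a+1)) + 1 := by omega
  have c1 := Nat.add_one_mul_choose_eq (v - (a+1)) (t - (a+1))
  have c2 := Nat.add_one_mul_choose_eq (k - (a+1)) (t - (a+1))
  have p1 : 0 < (k - (a+1)).choose (t - (a+1)) := Nat.choose_pos (by omega)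
  have p2 : 0 < (k - a).choose (t - a) := Nat.choose_pos (by omega)
  unfold L
  have c1' : ((v - a : ℚ)) * ((v - (a+1)).choose (t - (a+1)) : ℚ) = ((v - a).choose (t - a) : ℚ) * ((t - (a+1) + 1 : ℕ) : ℚ) := by
    have : ((v:ℚ) - a) = ((v - (a+1) + 1 : ℕ) : ℚ) := by
      rw [← e1]; rw [Nat.cast_sub (by omega)]
    rw [this, e1, e2]; exact_mod_cast c1
  have c2' : ((k - a : ℚ)) * ((k - (a+1)).choose (t - (a+1)) : ℚ) = ((k - a).choose (t - a) : ℚ) * ((t - (a+1) + 1 : ℕ) : ℚ) := by
    have : ((k:ℚ) - a) = ((k - (a+1) + 1 : ℕ) : ℚ) := by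
      rw [← e3]; rw [Nat.cast_sub (by omega)]
    rw [this, e3, e2]; exact_mod_cast c2
  have p1' : (0:ℚ) < ((k - (a+1)).choose (t - (a+1)) : ℚ) := by exact_mod_cast p1
  have p2' : (0:ℚ) < ((k - a).choose (t - a) : ℚ) := by exact_mod_cast p2
  have hp : (0:ℚ) < ((t - (a+1) + 1 : ℕ) : ℚ) := by positivity
  rw [div_mul_eq_mul_div, div_mul_eq_mul_div, div_eq_div_iff p2'.ne' p1'.ne']
  apply mul_right_cancel₀ hp.ne'
  linear_combination (((v - a).choose (t - a) : ℚ) * ((t - (a+1) + 1 : ℕ) : ℚ)) * c2'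
    - (((k - a).choose (t - a) : ℚ) * ((t - (a+1) + 1 : ℕ) : ℚ)) * c1'

/-- falling factorial of a natural number, as a rational number -/
def ff (n i : ℕ) : ℚ := (n.descFactorial i : ℚ)

theorem ff_zero (n : ℕ) : ff n 0 = 1 := by simp [ff]

theorem ff_succ (n i : ℕ) : ff n (i + 1) = (n - i) * ff n i := by
  unfold ff
  rw [Nat.descFactorial_succ]
  by_cases h : i ≤ n
  · push_cast [Nat.cast_sub h]; ring
  · have : n.descFactorial i = 0 := Nat.descFactorial_eq_zero_iff_lt.2 (by omega)
    simp [this]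

theorem ff_eq (n i : ℕ) : ff n i = (i.factorial : ℚ) * (n.choose i : ℚ) := by
  unfold ff
  rw [Nat.descFactorial_eq_factorial_mul_choose]; push_cast; ring

theorem card_choose_eq (b W : Finset α) (i : ℕ) :
    ((b ∩ W).card.choose i : ℚ) = ∑ I ∈ powersetCard i W, if I ⊆ b then (1:ℚ) else 0 := by
  rw [← sum_filter, sum_const, nsmul_eq_mul, mul_one, ← card_powersetCard]
  congr 2
  ext s
  simp only [mem_powersetCard, mem_filter, subset_inter_iff]
  tauto

/-- mixed factorial moments -/
theorem St.moment (h : St P t k B) (htk : t ≤ k) (A W₁ W₂ : Finset α) (hA : A ⊆ P) (h1 : W₁ ⊆ P)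
    (h2 : W₂ ⊆ P) (d1 : Disjoint A W₁) (d2 : Disjoint A W₂) (d12 : Disjoint W₁ W₂) (i j : ℕ)
    (hij : A.card + i + j ≤ t) :
    ∑ b ∈ B.filter (A ⊆ ·), ff (b ∩ W₁).card i * ff (b ∩ W₂).card j
      = ff W₁.card i * ff W₂.card j * L P.card t k (A.card + i + j) := by
  have key : ∑ b ∈ B.filter (A ⊆ ·), ((b ∩ W₁).card.choose i : ℚ) * ((b ∩ W₂).card.choose j : ℚ)
      = (W₁.card.choose i : ℚ) * (W₂.card.choose j : ℚ) * L P.card t k (A.card + i + j) := by
    simp_rw [card_choose_eq, sum_mul_sum]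
    rw [sum_comm]
    have : ∀ I ∈ powersetCard i W₁, ∑ b ∈ B.filter (A ⊆ ·), ∑ J ∈ powersetCard j W₂,
        (if I ⊆ b then (1:ℚ) else 0) * (if J ⊆ b then (1:ℚ) else 0)
        = (W₂.card.choose j : ℚ) * L P.card t k (A.card + i + j) := by
      intro I hI
      rw [mem_powersetCard] at hI
      rw [sum_comm]
      have : ∀ J ∈ powersetCard j W₂, ∑ b ∈ B.filter (A ⊆ ·),
          (if I ⊆ b then (1:ℚ) else 0) * (if J ⊆ b then (1:ℚ) else 0)
          = L P.card t k (A.card + i + j) := by
        intro J hJ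
        rw [mem_powersetCard] at hJ
        have hdIA : Disjoint A I := disjoint_of_subset_right hI.1 d1
        have hdJA : Disjoint (A ∪ I) J := by
          rw [disjoint_union_left]
          exact ⟨disjoint_of_subset_right hJ.1 d2,
            disjoint_of_subset_left hI.1 (disjoint_of_subset_right hJ.1 d12)⟩
        have hc : ((A ∪ I) ∪ J).card = A.card + i + j := by
          rw [card_union_of_disjoint hdJA, card_union_of_disjoint hdIA, hI.2, hJ.2]
        rw [← hc, ← h.deg htk ((A ∪ I) ∪ J)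
          (union_subset (union_subset hA (hI.1.trans h1)) (hJ.1.trans h2)) (by omega)]
        rw [card_eq_sum_ones]
        push_cast
        have e0 : ∀ b : Finset α, (if I ⊆ b then (1:ℚ) else 0) * (if J ⊆ b then (1:ℚ) else 0)
            = if (I ⊆ b ∧ J ⊆ b) then 1 else 0 := by
          intro b
          by_cases hI' : I ⊆ b <;> by_cases hJ' : J ⊆ b <;> simp [hI', hJ']
        simp_rw [e0]
        rw [← sum_filter, filter_filter]
        congr 1
        ext b
        simp only [mem_filter, union_subset_iff]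
        tauto
      rw [sum_congr rfl this, sum_const, card_powersetCard, nsmul_eq_mul]
    rw [sum_congr rfl this, sum_const, card_powersetCard, nsmul_eq_mul]; ring
  simp_rw [ff_eq]
  have e : ∀ b ∈ B.filter (A ⊆ ·), ((i.factorial : ℚ) * ((b ∩ W₁).card.choose i : ℚ)) *
      ((j.factorial : ℚ) * ((b ∩ W₂).card.choose j : ℚ)) = ((i.factorial : ℚ) * (j.factorial : ℚ)) *
      (((b ∩ W₁).card.choose i : ℚ) * ((b ∩ W₂).card.choose j : ℚ)) := by
    intro b _; ring
  rw [sum_congr rfl e, ← mul_sum, key]; ring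

/-- moments for one set -/
theorem St.moment1 (h : St P t k B) (htk : t ≤ k) (A W : Finset α) (hA : A ⊆ P) (h1 : W ⊆ P)
    (d1 : Disjoint A W) (i : ℕ) (hij : A.card + i ≤ t) :
    ∑ b ∈ B.filter (A ⊆ ·), ff (b ∩ W).card i = ff W.card i * L P.card t k (A.card + i) := by
  have := h.moment htk A W ∅ hA h1 (empty_subset _) d1 (disjoint_empty_right _)
    (disjoint_empty_right _) i 0 (by omega)
  simpa [ff_zero] using this

/-- linear and quadratic sums -/
theorem St.lin (h : St P t k B) (htk : t ≤ k) (A T : Finset α) (hA : A ⊆ P) (hT : T ⊆ P)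
    (hd : Disjoint A T) (hc : A.card + 1 ≤ t) (f : α → ℚ) :
    ∑ b ∈ B.filter (A ⊆ ·), ∑ q ∈ b ∩ T, f q = L P.card t k (A.card + 1) * ∑ q ∈ T, f q := by
  have e : ∀ b ∈ B.filter (A ⊆ ·), ∑ q ∈ b ∩ T, f q = ∑ q ∈ T, if q ∈ b then f q else 0 := by
    intro b _
    rw [← sum_filter]
    congr 1
    ext x; simp only [mem_inter, mem_filter]; tauto
  rw [sum_congr rfl e, sum_comm, mul_sum]
  apply sum_congr rfl
  intro q hq
  have hq' : q ∉ A := fun hx => (disjoint_left.1 hd) hx hq
  rw [← sum_filter, sum_const, nsmul_eq_mul, filter_filter]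
  congr 1
  have hc' : (insert q A).card = A.card + 1 := card_insert_of_notMem hq'
  rw [← hc', ← h.deg htk (insert q A) (insert_subset (hT hq) hA) (by omega)]
  congr 2
  ext b
  simp only [mem_filter, insert_subset_iff]
  tauto

theorem St.sq (h : St P t k B) (htk : t ≤ k) (A T : Finset α) (hA : A ⊆ P) (hT : T ⊆ P)
    (hd : Disjoint A T) (hc : A.card + 2 ≤ t) (f : α → ℚ) :
    ∑ b ∈ B.filter (A ⊆ ·), (∑ q ∈ b ∩ T, f q) ^ 2
      = (L P.card t k (A.card + 1) - L P.card t k (A.card + 2)) * ∑ q ∈ T, f q ^ 2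
        + L P.card t k (A.card + 2) * (∑ q ∈ T, f q) ^ 2 := by
  have e : ∀ b ∈ B.filter (A ⊆ ·), (∑ q ∈ b ∩ T, f q) ^ 2
      = ∑ q ∈ T, ∑ r ∈ T, if (q ∈ b ∧ r ∈ b) then f q * f r else 0 := by
    intro b _
    have e1 : ∑ q ∈ b ∩ T, f q = ∑ q ∈ T, if q ∈ b then f q else 0 := by
      rw [← sum_filter]
      congr 1
      ext x; simp only [mem_inter, mem_filter]; tauto
    rw [e1, pow_two, sum_mul_sum]
    apply sum_congr rfl; intro q _; apply sum_congr rfl; intro r _
    by_cases hq : q ∈ b <;> by_cases hr : r ∈ b <;> simp [hq, hr]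
  rw [sum_congr rfl e, sum_comm]
  have e2 : ∀ q ∈ T, ∑ b ∈ B.filter (A ⊆ ·), ∑ r ∈ T, (if (q ∈ b ∧ r ∈ b) then f q * f r else 0)
      = (L P.card t k (A.card + 1) - L P.card t k (A.card + 2)) * f q ^ 2
        + L P.card t k (A.card + 2) * (f q * ∑ r ∈ T, f r) := by
    intro q hq
    have hq' : q ∉ A := fun hx => (disjoint_left.1 hd) hx hq
    rw [sum_comm]
    have e3 : ∀ r ∈ T, ∑ b ∈ B.filter (A ⊆ ·), (if (q ∈ b ∧ r ∈ b) then f q * f r else 0)
        = (if q = r then (L P.card t k (A.card + 1) - L P.card t k (A.card + 2)) * f q ^ 2 else 0)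
          + L P.card t k (A.card + 2) * (f q * f r) := by
      intro r hr
      have hr' : r ∉ A := fun hx => (disjoint_left.1 hd) hx hr
      rw [← sum_filter, sum_const, nsmul_eq_mul, filter_filter]
      by_cases hqr : q = r
      · subst hqr
        rw [if_pos rfl]
        have hc' : (insert q A).card = A.card + 1 := card_insert_of_notMem hq'
        have : (({b ∈ B | A ⊆ b ∧ q ∈ b ∧ q ∈ b}).card : ℚ) = L P.card t k (A.card + 1) := by
          rw [← hc', ← h.deg htk (insert q A) (insert_subset (hT hq) hA) (by omega)]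
          congr 2
          ext b
          simp only [mem_filter, insert_subset_iff]
          tauto
        rw [this]; ring
      · rw [if_neg hqr, zero_add]
        have hc' : (insert r (insert q A)).card = A.card + 2 := by
          rw [card_insert_of_notMem, card_insert_of_notMem hq']
          simp only [mem_insert, not_or]; exact ⟨fun h => hqr h.symm, hr'⟩
        have : (({b ∈ B | A ⊆ b ∧ q ∈ b ∧ r ∈ b}).card : ℚ) = L P.card t k (A.card + 2) := by
          rw [← hc', ← h.deg htk (insert r (insert q A))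
            (insert_subset (hT hr) (insert_subset (hT hq) hA)) (by omega)]
          congr 2
          ext b
          simp only [mem_filter, insert_subset_iff]
          tauto
        rw [this]
    rw [sum_congr rfl e3, sum_add_distrib, sum_ite_eq, if_pos hq, ← mul_sum, ← mul_sum]
  rw [sum_congr rfl e2, sum_add_distrib, ← mul_sum, ← mul_sum, ← sum_mul]
  ring

end Pool.Agent.H179.SDP
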