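import Pool.Agent.H179.SDP.Avoid

set_option autoImplicit false
open Finset

namespace Pool.Agent.H179.SDP

theorem pair_nonneg (i a : ℕ) : 0 ≤ ((i:ℚ) - a) * ((i:ℚ) - (a + 1)) := by
  rcases Nat.lt_or_ge i (a + 1) with h | h
  · have h1 : (i:ℚ) ≤ a := by exact_mod_cast Nat.lt_succ_iff.1 h
    nlinarith
  · have h1 : (a:ℚ) + 1 ≤ i := by exact_mod_cast h
    nlinarith

/-- coefficients of `-(i-1)(i-3)(i-4)(i-6)(i-7)` in falling factorials -/
def g5 : ℕ → ℚ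
  | 0 => 504
  | 1 => -504
  | 2 => 232
  | 3 => -64
  | 4 => 11
  | 5 => -1
  | _ => 0

/-- coefficients of `-(i-1)(i-2)(i-3)(i-5)(i-6)` in falling factorials -/
def g5' : ℕ → ℚ
  | 0 => 180
  | 1 => -180
  | 2 => 90
  | 3 => -30
  | 4 => 7
  | 5 => -1
  | _ => 0

/-- coefficients of `-(i-1)(i-3)(i-4)` in falling factorials -/
def g3 : ℕ → ℚ
  | 0 => 12
  | 1 => -12
  | 2 => 5
  | 3 => -1
  | _ => 0

theorem ff1 (n : ℕ) : ff n 1 = n := by rw [ff_succ, ff_zero]; push_cast; ring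
theorem ff2 (n : ℕ) : ff n 2 = n * (n - 1) := by rw [ff_succ, ff1]; push_cast; ring
theorem ff3 (n : ℕ) : ff n 3 = n * (n - 1) * (n - 2) := by rw [ff_succ, ff2]; push_cast; ring
theorem ff4 (n : ℕ) : ff n 4 = n * (n - 1) * (n - 2) * (n - 3) := by
  rw [ff_succ, ff3]; push_cast; ring
theorem ff5 (n : ℕ) : ff n 5 = n * (n - 1) * (n - 2) * (n - 3) * (n - 4) := by
  rw [ff_succ, ff4]; push_cast; ring

theorem hg5 (i : ℕ) (hi : 1 ≤ i) : ∑ l ∈ range (5 + 1), g5 l * ff i l ≤ 0 := by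
  have h1 : (1:ℚ) ≤ i := by exact_mod_cast hi
  have h3 := pair_nonneg i 3
  have h6 := pair_nonneg i 6
  push_cast at h3 h6
  have e : ∑ l ∈ range (5 + 1), g5 l * ff i l
      = - (((i:ℚ) - 1) * ((((i:ℚ) - 3) * ((i:ℚ) - (3 + 1))) * (((i:ℚ) - 6) * ((i:ℚ) - (6 + 1))))) := by
    simp only [sum_range_succ, range_zero, sum_empty, g5, ff_zero, ff1, ff2, ff3, ff4, ff5]
    ring
  rw [e]
  have := mul_nonneg (sub_nonneg.2 h1) (mul_nonneg h3 h6)
  linarith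

theorem hg5' (i : ℕ) (hi : 1 ≤ i) : ∑ l ∈ range (5 + 1), g5' l * ff i l ≤ 0 := by
  have h1 : (1:ℚ) ≤ i := by exact_mod_cast hi
  have h3 := pair_nonneg i 2
  have h6 := pair_nonneg i 5
  push_cast at h3 h6
  have e : ∑ l ∈ range (5 + 1), g5' l * ff i l
      = - (((i:ℚ) - 1) * ((((i:ℚ) - 2) * ((i:ℚ) - (2 + 1))) * (((i:ℚ) - 5) * ((i:ℚ) - (5 + 1))))) := by
    simp only [sum_range_succ, range_zero, sum_empty, g5', ff_zero, ff1, ff2, ff3, ff4, ff5]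
    ring
  rw [e]
  have := mul_nonneg (sub_nonneg.2 h1) (mul_nonneg h3 h6)
  linarith

theorem hg3 (i : ℕ) (hi : 1 ≤ i) : ∑ l ∈ range (3 + 1), g3 l * ff i l ≤ 0 := by
  have h1 : (1:ℚ) ≤ i := by exact_mod_cast hi
  have h3 := pair_nonneg i 3
  push_cast at h3
  have e : ∑ l ∈ range (3 + 1), g3 l * ff i l
      = - (((i:ℚ) - 1) * ((((i:ℚ) - 3) * ((i:ℚ) - (3 + 1))))) := by
    simp only [sum_range_succ, range_zero, sum_empty, g3, ff_zero, ff1, ff2, ff3]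
    ring
  rw [e]
  have := mul_nonneg (sub_nonneg.2 h1) h3
  linarith

/-- product form of the numbers of blocks -/
theorem L_down (v s m i : ℕ) (hi : i < s) (hsm : s ≤ m) (hv : s ≤ v) (q : ℚ)
    (hq : L v s m (s - i) = q) :
    L v s m (s - (i + 1)) * ((m:ℚ) - s + (i + 1)) = q * ((v:ℚ) - s + (i + 1)) := by
  have h := L_rec v s m (s - (i + 1)) (by omega) hsm hv
  have e : s - (i + 1) + 1 = s - i := by omega
  rw [e, hq] at h
  have c : ((s - (i + 1) : ℕ) : ℚ) = (s:ℚ) - (i + 1) := by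
    rw [Nat.cast_sub (by omega)]; push_cast; ring
  rw [c] at h
  linear_combination h


/-- the product formula for the target of the degree five certificates -/
theorem target5 (v s m : ℕ) (hs : 5 ≤ s) (hsm : s ≤ m) (hv : s ≤ v) (w N : ℚ) (hw : w = (m:ℚ) - s + 1)
    (hN : N = (v:ℚ) - s) (om : ℕ) (g : ℕ → ℚ) :
    (∑ l ∈ range (5 + 1), g l * (ff om l * L v s m (s - 5 + l))) * (w * (w+1) * (w+2) * (w+3) * (w+4))
    = g 0 * (N+1) * (N+2) * (N+3) * (N+4) * (N+5)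
      + g 1 * ff om 1 * (w+4) * (N+1) * (N+2) * (N+3) * (N+4)
      + g 2 * ff om 2 * (w+4) * (w+3) * (N+1) * (N+2) * (N+3)
      + g 3 * ff om 3 * (w+4) * (w+3) * (w+2) * (N+1) * (N+2)
      + g 4 * ff om 4 * (w+4) * (w+3) * (w+2) * (w+1) * (N+1)
      + g 5 * ff om 5 * (w+4) * (w+3) * (w+2) * (w+1) * w := by
  have q0 : L v s m (s - 0) = 1 := by simpa using L_top v s m
  have q1 := L_down v s m 0 (by omega) hsm hv _ q0
  have q2 := L_down v s m 1 (by omega) hsm hv _ rfl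
  have q3 := L_down v s m 2 (by omega) hsm hv _ rfl
  have q4 := L_down v s m 3 (by omega) hsm hv _ rfl
  have q5 := L_down v s m 4 (by omega) hsm hv _ rfl
  have i0 : s - 5 + 0 = s - (4 + 1) := by omega
  have i1 : s - 5 + 1 = s - (3 + 1) := by omega
  have i2 : s - 5 + 2 = s - (2 + 1) := by omega
  have i3 : s - 5 + 3 = s - (1 + 1) := by omega
  have i4 : s - 5 + 4 = s - (0 + 1) := by omega
  have i5 : s - 5 + 5 = s - 0 := by omega
  simp only [sum_range_succ, range_zero, sum_empty, i0, i1, i2, i3, i4, i5, q0]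
  push_cast at q1 q2 q3 q4 q5
  rw [show ((m:ℚ) - s) = w - 1 by rw [hw]; ring, show ((v:ℚ) - s) = N by rw [hN]] at q1 q2 q3 q4 q5
  simp only [zero_add] at q1 q2 q3 q4 q5 ⊢
  generalize L v s m (s - 1) = y1 at *
  generalize L v s m (s - (1 + 1)) = y2 at *
  generalize L v s m (s - (2 + 1)) = y3 at *
  generalize L v s m (s - (3 + 1)) = y4 at *
  generalize L v s m (s - (4 + 1)) = y5 at *
  rw [ff_zero]
  have r1 : y1 * w = N + 1 := by linear_combination q1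
  have r2 : y2 * (w + 1) = y1 * (N + 2) := by linear_combination q2
  have r3 : y3 * (w + 2) = y2 * (N + 3) := by linear_combination q3
  have r4 : y4 * (w + 3) = y3 * (N + 4) := by linear_combination q4
  have r5 : y5 * (w + 4) = y4 * (N + 5) := by linear_combination q5
  have t2 : y2 * (w * (w + 1)) = (N + 1) * (N + 2) := by
    linear_combination w * r2 + (N + 2) * r1
  have t3 : y3 * (w * (w + 1) * (w + 2)) = (N + 1) * (N + 2) * (N + 3) := by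
    linear_combination w * (w + 1) * r3 + (N + 3) * t2
  have t4 : y4 * (w * (w + 1) * (w + 2) * (w + 3)) = (N + 1) * (N + 2) * (N + 3) * (N + 4) := by
    linear_combination w * (w + 1) * (w + 2) * r4 + (N + 4) * t3
  have t5 : y5 * (w * (w + 1) * (w + 2) * (w + 3) * (w + 4))
      = (N + 1) * (N + 2) * (N + 3) * (N + 4) * (N + 5) := by
    linear_combination w * (w + 1) * (w + 2) * (w + 3) * r5 + (N + 5) * t4
  linear_combination g 0 * t5 + g 1 * ff om 1 * (w + 4) * t4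
    + g 2 * ff om 2 * (w + 3) * (w + 4) * t3
    + g 3 * ff om 3 * (w + 2) * (w + 3) * (w + 4) * t2
    + g 4 * ff om 4 * (w + 1) * (w + 2) * (w + 3) * (w + 4) * r1

theorem target3 (v s m : ℕ) (hs : 3 ≤ s) (hsm : s ≤ m) (hv : s ≤ v) (w N : ℚ) (hw : w = (m:ℚ) - s + 1)
    (hN : N = (v:ℚ) - s) (om : ℕ) (g : ℕ → ℚ) :
    (∑ l ∈ range (3 + 1), g l * (ff om l * L v s m (s - 3 + l))) * (w * (w+1) * (w+2))
    = g 0 * (N+1) * (N+2) * (N+3)
      + g 1 * ff om 1 * (w+2) * (N+1) * (N+2)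
      + g 2 * ff om 2 * (w+2) * (w+1) * (N+1)
      + g 3 * ff om 3 * (w+2) * (w+1) * w := by
  have q0 : L v s m (s - 0) = 1 := by simpa using L_top v s m
  have q1 := L_down v s m 0 (by omega) hsm hv _ q0
  have q2 := L_down v s m 1 (by omega) hsm hv _ rfl
  have q3 := L_down v s m 2 (by omega) hsm hv _ rfl
  have i2 : s - 3 + 0 = s - (2 + 1) := by omega
  have i3 : s - 3 + 1 = s - (1 + 1) := by omega
  have i4 : s - 3 + 2 = s - (0 + 1) := by omega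
  have i5 : s - 3 + 3 = s - 0 := by omega
  simp only [sum_range_succ, range_zero, sum_empty, i2, i3, i4, i5, q0]
  push_cast at q1 q2 q3
  rw [show ((m:ℚ) - s) = w - 1 by rw [hw]; ring, show ((v:ℚ) - s) = N by rw [hN]] at q1 q2 q3
  simp only [zero_add] at q1 q2 q3 ⊢
  generalize L v s m (s - 1) = y1 at *
  generalize L v s m (s - (1 + 1)) = y2 at *
  generalize L v s m (s - (2 + 1)) = y3 at *
  rw [ff_zero]
  have r1 : y1 * w = N + 1 := by linear_combination q1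
  have r2 : y2 * (w + 1) = y1 * (N + 2) := by linear_combination q2
  have r3 : y3 * (w + 2) = y2 * (N + 3) := by linear_combination q3
  have t2 : y2 * (w * (w + 1)) = (N + 1) * (N + 2) := by
    linear_combination w * r2 + (N + 2) * r1
  have t3 : y3 * (w * (w + 1) * (w + 2)) = (N + 1) * (N + 2) * (N + 3) := by
    linear_combination w * (w + 1) * r3 + (N + 3) * t2
  linear_combination g 0 * t3 + g 1 * ff om 1 * (w + 2) * t2
    + g 2 * ff om 2 * (w + 1) * (w + 2) * r1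

/-- positivity for `s ≥ 5`, `w ≥ 5` -/
theorem pos5 (a b x : ℕ) (v m : ℕ) (hm : m = a + b + 9)
    (hv : v = (2 * (a + 5) + (b + 5)) * (b + 4) + 6 + x + a) :
    0 < ∑ l ∈ range (5 + 1), g5 l * (ff (3 * m - (a + 5) - 2) l * L v (a + 5) m (a + 5 - 5 + l)) := by
  have ho : 3 * m - (a + 5) - 2 = 2 * a + 3 * b + 20 := by omega
  rw [ho]
  have hv5 : a + 5 ≤ v := by rw [hv]; nlinarith
  have ht := target5 v (a + 5) m (by omega) (by omega) hv5 _ _ rfl rfl (2 * a + 3 * b + 20) g5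
  have hw : (m:ℚ) - ((a + 5 : ℕ) : ℚ) + 1 = (b:ℚ) + 5 := by rw [hm]; push_cast; ring
  have hN : (v:ℚ) - ((a + 5 : ℕ) : ℚ) = (2 * ((a:ℚ) + 5) + (b + 5)) * (b + 4) + 1 + x := by
    rw [hv]; push_cast; ring
  rw [hw, hN] at ht
  have hK : (0:ℚ) < ((b:ℚ) + 5) * ((b:ℚ) + 5 + 1) * ((b:ℚ) + 5 + 2) * ((b:ℚ) + 5 + 3) * ((b:ℚ) + 5 + 4) := by
    positivity
  refine (mul_pos_iff_of_pos_right hK).1 ?_
  rw [ht]
  simp only [g5, ff1, ff2, ff3, ff4, ff5]
  push_cast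
  ring_nf
  positivity

/-- positivity for `s ≥ 5`, `w = 4` -/
theorem pos5' (a x : ℕ) (v m : ℕ) (hm : m = a + 8)
    (hv : v = (2 * (a + 5) + 4) * 3 + 6 + x + a) :
    0 < ∑ l ∈ range (5 + 1), g5' l * (ff (3 * m - (a + 5) - 2) l * L v (a + 5) m (a + 5 - 5 + l)) := by
  have ho : 3 * m - (a + 5) - 2 = 2 * a + 17 := by omega
  rw [ho]
  have hv5 : a + 5 ≤ v := by rw [hv]; nlinarith
  have ht := target5 v (a + 5) m (by omega) (by omega) hv5 _ _ rfl rfl (2 * a + 17) g5'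
  have hw : (m:ℚ) - ((a + 5 : ℕ) : ℚ) + 1 = 4 := by rw [hm]; push_cast; ring
  have hN : (v:ℚ) - ((a + 5 : ℕ) : ℚ) = (2 * ((a:ℚ) + 5) + 4) * 3 + 1 + x := by
    rw [hv]; push_cast; ring
  rw [hw, hN] at ht
  have hK : (0:ℚ) < (4:ℚ) * (4 + 1) * (4 + 2) * (4 + 3) * (4 + 4) := by norm_num
  refine (mul_pos_iff_of_pos_right hK).1 ?_
  rw [ht]
  simp only [g5', ff1, ff2, ff3, ff4, ff5]
  push_cast
  ring_nf
  positivity

/-- positivity for `s = 3`, `x ≥ w / 2 + 4` -/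
theorem pos3_3 (w x : ℕ) (hw : 4 ≤ w) (hx : w + 8 ≤ 2 * x) (v m : ℕ) (hm : m = w + 2)
    (hv : v = w * (w + 1 + x) + 2) :
    0 < ∑ l ∈ range (3 + 1), g3 l * (ff (3 * m - 3 - 2) l * L v 3 m (3 - 3 + l)) := by
  have ho : 3 * m - 3 - 2 = 3 * w + 1 := by omega
  rw [ho]
  obtain ⟨b, rfl⟩ := Nat.exists_eq_add_of_le hw
  have hv5 : 3 ≤ v := by rw [hv]; nlinarith
  have ht := target3 v 3 m (by omega) (by omega) hv5 _ _ rfl rfl (3 * (4 + b) + 1) g3
  obtain ⟨y, hy⟩ : ∃ y : ℚ, 0 ≤ y ∧ (x:ℚ) = b / 2 + 6 + y := by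
    refine ⟨x - (b / 2 + 6), ?_, by ring⟩
    have : ((4 + b : ℕ) : ℚ) + 8 ≤ 2 * x := by exact_mod_cast hx
    push_cast at this; linarith
  have hw : (m:ℚ) - ((3 : ℕ) : ℚ) + 1 = (b:ℚ) + 4 := by rw [hm]; push_cast; ring
  have hN : (v:ℚ) - ((3 : ℕ) : ℚ) = ((b:ℚ) + 4) * ((b:ℚ) + 5 + (b / 2 + 6 + y)) - 1 := by
    rw [hv, ← hy.2]; push_cast; ring
  rw [hw, hN] at ht
  have hK : (0:ℚ) < ((b:ℚ) + 4) * ((b:ℚ) + 4 + 1) * ((b:ℚ) + 4 + 2) := by positivity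
  refine (mul_pos_iff_of_pos_right hK).1 ?_
  rw [ht]
  have hy0 := hy.1
  simp only [g3, ff1, ff2, ff3]
  push_cast
  ring_nf
  positivity

/-- positivity for `s = 4`, `x ≥ w / 2 + 4` -/
theorem pos3_4 (w x : ℕ) (hw : 4 ≤ w) (hx : w + 8 ≤ 2 * x) (v m : ℕ) (hm : m = w + 3)
    (hv : v = w * (w + 1 + x) + 3) :
    0 < ∑ l ∈ range (3 + 1), g3 l * (ff (3 * m - 4 - 2) l * L v 4 m (4 - 3 + l)) := by
  have ho : 3 * m - 4 - 2 = 3 * w + 3 := by omega
  rw [ho]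
  obtain ⟨b, rfl⟩ := Nat.exists_eq_add_of_le hw
  have hv5 : 4 ≤ v := by rw [hv]; nlinarith
  have ht := target3 v 4 m (by omega) (by omega) hv5 _ _ rfl rfl (3 * (4 + b) + 3) g3
  obtain ⟨y, hy⟩ : ∃ y : ℚ, 0 ≤ y ∧ (x:ℚ) = b / 2 + 6 + y := by
    refine ⟨x - (b / 2 + 6), ?_, by ring⟩
    have : ((4 + b : ℕ) : ℚ) + 8 ≤ 2 * x := by exact_mod_cast hx
    push_cast at this; linarith
  have hw : (m:ℚ) - ((4 : ℕ) : ℚ) + 1 = (b:ℚ) + 4 := by rw [hm]; push_cast; ring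
  have hN : (v:ℚ) - ((4 : ℕ) : ℚ) = ((b:ℚ) + 4) * ((b:ℚ) + 5 + (b / 2 + 6 + y)) - 1 := by
    rw [hv, ← hy.2]; push_cast; ring
  rw [hw, hN] at ht
  have hK : (0:ℚ) < ((b:ℚ) + 4) * ((b:ℚ) + 4 + 1) * ((b:ℚ) + 4 + 2) := by positivity
  refine (mul_pos_iff_of_pos_right hK).1 ?_
  rw [ht]
  have hy0 := hy.1
  simp only [g3, ff1, ff2, ff3]
  push_cast
  ring_nf
  positivity

end Pool.Agent.H179.SDP
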