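import Pool.Agent.H179.SDP.Fin34

set_option autoImplicit false
open Finset

namespace Pool.Agent.H179.SDP

theorem anyBelow_intro (f : ℕ → Bool) (n : ℕ) (h : ∀ i < n, f i = false) : anyBelow f n = false := by
  induction n with
  | zero => rfl
  | succ n ih =>
    rw [anyBelow, Bool.or_eq_false_iff]
    exact ⟨h n (Nat.lt_succ_self n), ih (fun i hi => h i (Nat.lt_succ_of_lt hi))⟩

/-- the test for small `w` -/
def fin34 (s I w x : ℕ) : Bool :=
  Nat.ble 4 w && (Nat.ble (2 * x + 1) (w + 8) && (Nat.ble (w * (w + 2 * s)) (w * (w + 1 + x) + (w + 2 * s - 2))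
    && !(anyBelow (fun i => !(((w * (w + 1 + x)).ascFactorial (i + 1)) % (w.ascFactorial (i + 1)) == 0)) I)))

set_option maxRecDepth 100000 in
theorem fin4_none : ∀ w < 100, ∀ x < 60, fin34 4 10 w x = false := by
  have h : anyBelow (fun w => anyBelow (fun x => fin34 4 10 w x) 60) 100 = false := by decide +kernel
  intro c hc x hx
  exact anyBelow_spec _ _ (anyBelow_spec _ _ h c hc) x hx

set_option maxRecDepth 100000 in
theorem fin3_none : ∀ w < 100, ∀ x < 60, (fin34 3 5 w x && !(w == 4 && x == 5)) = false := by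
  have h : anyBelow (fun w => anyBelow (fun x => (fin34 3 5 w x && !(w == 4 && x == 5))) 60) 100 = false := by
    decide +kernel
  intro c hc x hx
  exact anyBelow_spec _ _ (anyBelow_spec _ _ h c hc) x hx

theorem fin34_intro (s I w x : ℕ) (hw : 4 ≤ w) (hx : 2 * x < w + 8)
    (ht : w * (w + 2 * s) ≤ w * (w + 1 + x) + (w + 2 * s - 2))
    (hd : ∀ i ≤ I, w.ascFactorial i ∣ (w * (w + 1 + x)).ascFactorial i) : fin34 s I w x = true := by
  unfold fin34
  have b1 : Nat.ble 4 w = true := by rw [Nat.ble_eq]; exact hw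
  have b2 : Nat.ble (2 * x + 1) (w + 8) = true := by rw [Nat.ble_eq]; exact hx
  have b3 : Nat.ble (w * (w + 2 * s)) (w * (w + 1 + x) + (w + 2 * s - 2)) = true := by
    rw [Nat.ble_eq]; exact ht
  have b4 : anyBelow (fun i => !(((w * (w + 1 + x)).ascFactorial (i + 1)) % (w.ascFactorial (i + 1)) == 0)) I
      = false := by
    apply anyBelow_intro
    intro i hi
    rw [Nat.mod_eq_zero_of_dvd (hd (i + 1) hi)]
    rfl
  rw [b1, b2, b3, b4]
  rfl

end Pool.Agent.H179.SDP
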