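import Pool.Agent.H179.SDP.Mixed

set_option autoImplicit false
open Finset

namespace Pool.Agent.H179.SDP

/-- divisibility in terms of ascending products -/
theorem St.asc {α : Type*} [DecidableEq α] {P : Finset α} {t k : ℕ} {B : Finset (Finset α)}
    (h : St P t k B) (i : ℕ) (hi : i ≤ t) (htk : t ≤ k) (htP : t ≤ P.card) :
    (k - t + 1).ascFactorial i ∣ (P.card - t + 1).ascFactorial i := by
  have := h.dvd i hi htk htP
  rw [Nat.ascFactorial_eq_factorial_mul_choose, Nat.ascFactorial_eq_factorial_mul_choose]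
  exact Nat.mul_dvd_mul_left _ this

theorem asc2 (n : ℕ) : n.ascFactorial 2 = n * (n + 1) := by
  simp [Nat.ascFactorial]; ring

theorem asc3 (n : ℕ) : n.ascFactorial 3 = n * ((n + 1) * (n + 2)) := by
  simp [Nat.ascFactorial]; ring

theorem asc4 (n : ℕ) : n.ascFactorial 4 = n * ((n + 1) * (n + 2) * (n + 3)) := by
  simp [Nat.ascFactorial]; ring

/-- the three divisibility conditions -/
theorem three_dvd (w x : ℕ) (hw : 1 ≤ w) (hx : 4 ≤ x)
    (h2 : w.ascFactorial 2 ∣ (w * (w + 1 + x)).ascFactorial 2)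
    (h3 : w.ascFactorial 3 ∣ (w * (w + 1 + x)).ascFactorial 3)
    (h4 : w.ascFactorial 4 ∣ (w * (w + 1 + x)).ascFactorial 4) :
    (w + 1) ∣ x * (x - 1) ∧ (w + 2) ∣ 2 * (x - 1) * (x - 2) * (2 * x - 3)
      ∧ (w + 3) ∣ (x - 2) * (3 * x - 7) * (3 * x - 8) * (3 * x - 9) := by
  rw [asc2, asc2, mul_assoc] at h2
  rw [asc3, asc3, mul_assoc] at h3
  rw [asc4, asc4, mul_assoc w (w + 1 + x)] at h4
  have d2 := Nat.dvd_of_mul_dvd_mul_left hw h2
  have d3 := (Nat.dvd_mul_left (w + 2) (w + 1)).trans (Nat.dvd_of_mul_dvd_mul_left hw h3)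
  have d4 := (Nat.dvd_mul_left (w + 3) ((w + 1) * (w + 2))).trans (Nat.dvd_of_mul_dvd_mul_left hw h4)
  obtain ⟨y, rfl⟩ := Nat.exists_eq_add_of_le hx
  have z2 : ((w:ℤ) + 1) ∣ (w + 1 + (4 + y)) * (w * (w + 1 + (4 + y)) + 1) := by exact_mod_cast d2
  have z3 : ((w:ℤ) + 2) ∣ (w + 1 + (4 + y)) * ((w * (w + 1 + (4 + y)) + 1) * (w * (w + 1 + (4 + y)) + 2)) := by
    exact_mod_cast d3
  have z4 : ((w:ℤ) + 3) ∣ (w + 1 + (4 + y)) * ((w * (w + 1 + (4 + y)) + 1) * (w * (w + 1 + (4 + y)) + 2)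
      * (w * (w + 1 + (4 + y)) + 3)) := by exact_mod_cast d4
  refine ⟨?_, ?_, ?_⟩
  · have e : (4 + y) * (4 + y - 1) = (4 + y) * (3 + y) := by congr 1; omega
    rw [e]
    have a1 : ((w:ℤ) + 1) ∣ (w + 1 + (4 + y)) * (w * (w + 1 + (4 + y)) + 1) + (4 + y) * (3 + y) := by
      refine ⟨((w:ℤ) + 1 + (4 + y) - 1) * (w + 1 + (4 + y)) - (3 + y), by ring⟩
    have a2 : ((w:ℤ) + 1) ∣ (4 + y) * (3 + y) := (dvd_add_right z2).1 a1
    exact_mod_cast a2
  · have e : 2 * (4 + y - 1) * (4 + y - 2) * (2 * (4 + y) - 3) = 2 * (3 + y) * (2 + y) * (2 * y + 5) := by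
      congr 1
      · congr 1
        · congr 1; omega
        · omega
      · omega
    rw [e]
    have m1 : (w + 1 + (4 + y) : ℤ) ≡ (3 + y) [ZMOD (w + 2)] := by
      rw [Int.modEq_iff_dvd]; exact ⟨-1, by ring⟩
    have m2 : (w * (w + 1 + (4 + y)) : ℤ) ≡ (-2) * (3 + y) [ZMOD (w + 2)] := by
      apply Int.ModEq.mul _ m1
      rw [Int.modEq_iff_dvd]; exact ⟨-1, by ring⟩
    have m3 : ((w:ℤ) + 1 + (4 + y)) * ((w * (w + 1 + (4 + y)) + 1) * (w * (w + 1 + (4 + y)) + 2))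
        ≡ (3 + y) * (((-2) * (3 + y) + 1) * ((-2) * (3 + y) + 2)) [ZMOD (w + 2)] :=
      m1.mul ((m2.add_right 1).mul (m2.add_right 2))
    have a2 := (m3.symm.trans (Int.modEq_zero_iff_dvd.2 z3))
    have a3 := Int.modEq_zero_iff_dvd.1 a2
    have e2 : ((3 + y : ℤ)) * (((-2) * (3 + y) + 1) * ((-2) * (3 + y) + 2))
        = 2 * (3 + y) * (2 + y) * (2 * y + 5) := by ring
    rw [e2] at a3
    exact_mod_cast a3
  · have e : (4 + y - 2) * (3 * (4 + y) - 7) * (3 * (4 + y) - 8) * (3 * (4 + y) - 9)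
        = (2 + y) * (3 * y + 5) * (3 * y + 4) * (3 * y + 3) := by
      congr 1
      · congr 1
        · congr 1
          · omega
          · omega
        · omega
      · omega
    rw [e]
    have m1 : (w + 1 + (4 + y) : ℤ) ≡ (2 + y) [ZMOD (w + 3)] := by
      rw [Int.modEq_iff_dvd]; exact ⟨-1, by ring⟩
    have m2 : (w * (w + 1 + (4 + y)) : ℤ) ≡ (-3) * (2 + y) [ZMOD (w + 3)] := by
      apply Int.ModEq.mul _ m1
      rw [Int.modEq_iff_dvd]; exact ⟨-1, by ring⟩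
    have m3 : ((w:ℤ) + 1 + (4 + y)) * ((w * (w + 1 + (4 + y)) + 1) * (w * (w + 1 + (4 + y)) + 2)
        * (w * (w + 1 + (4 + y)) + 3))
        ≡ (2 + y) * (((-3) * (2 + y) + 1) * ((-3) * (2 + y) + 2) * ((-3) * (2 + y) + 3)) [ZMOD (w + 3)] :=
      m1.mul (((m2.add_right 1).mul (m2.add_right 2)).mul (m2.add_right 3))
    have a2 := (m3.symm.trans (Int.modEq_zero_iff_dvd.2 z4))
    have a3 := Int.modEq_zero_iff_dvd.1 a2
    have e2 : ((2 + y : ℤ)) * (((-3) * (2 + y) + 1) * ((-3) * (2 + y) + 2) * ((-3) * (2 + y) + 3))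
        = - ((2 + y) * (3 * y + 5) * (3 * y + 4) * (3 * y + 3)) := by ring
    rw [e2, dvd_neg] at a3
    exact_mod_cast a3

/-- no solution of the three divisibility conditions with a small quotient -/
theorem no_sol (w x : ℕ) (hw : 100 ≤ w) (hx : 4 ≤ x) (hc : x * (x - 1) < 27 * (w + 1))
    (h2 : (w + 1) ∣ x * (x - 1)) (h3 : (w + 2) ∣ 2 * (x - 1) * (x - 2) * (2 * x - 3))
    (h4 : (w + 3) ∣ (x - 2) * (3 * x - 7) * (3 * x - 8) * (3 * x - 9)) : False := by
  obtain ⟨c, hcx⟩ := h2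
  have hc27 : c < 27 := by
    by_contra hcon
    push Not at hcon
    have : 27 * (w + 1) ≤ (w + 1) * c := by nlinarith
    omega
  have hpos : 0 < x * (x - 1) := Nat.mul_pos (by omega) (by omega)
  have hc0 : 0 < c := by
    rcases Nat.eq_zero_or_pos c with rfl | h
    · omega
    · exact h
  -- `x < 2400`
  have hx2400 : x < 2400 := by
    by_contra hcon
    push Not at hcon
    obtain ⟨y, hy⟩ := Nat.exists_eq_add_of_le hcon
    have hcq : (x:ℤ) * (x - 1) = (w + 1) * c := by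
      have : ((x * (x - 1) : ℕ) : ℤ) = (((w + 1) * c : ℕ) : ℤ) := by rw [hcx]
      push_cast [Nat.cast_sub (show 1 ≤ x by omega)] at this
      exact this
    have hd : ((w:ℤ) + 2) ∣ 2 * (x - 1) * (x - 2) * (2 * x - 3) := by
      have : (((w + 2 : ℕ)) : ℤ) ∣ ((2 * (x - 1) * (x - 2) * (2 * x - 3) : ℕ) : ℤ) := by
        exact_mod_cast h3
      push_cast [Nat.cast_sub (show 1 ≤ x by omega), Nat.cast_sub (show 2 ≤ x by omega),
        Nat.cast_sub (show 3 ≤ 2 * x by omega)] at this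
      exact this
    have hd1 : ((w:ℤ) + 2) * c ∣ 2 * (x - 1) * (x - 2) * (2 * x - 3) * c := mul_dvd_mul_right hd _
    have e1 : ((w:ℤ) + 2) * c = x ^ 2 - x + c := by linear_combination -hcq
    rw [e1] at hd1
    have hd2 : ((x:ℤ) ^ 2 - x + c) ∣ 2 * c * ((6 - 2 * c) * x + 7 * c - 6) := by
      have : ((x:ℤ) ^ 2 - x + c) ∣ 2 * (x - 1) * (x - 2) * (2 * x - 3) * c
          - 2 * c * ((6 - 2 * c) * x + 7 * c - 6) := ⟨2 * c * (2 * x - 7), by ring⟩
      exact (dvd_sub_right hd1).1 this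
    have hxz : (2400:ℤ) ≤ x := by exact_mod_cast hcon
    have hcz : (c:ℤ) ≤ 26 := by exact_mod_cast (by omega : c ≤ 26)
    have hcz0 : (1:ℤ) ≤ c := by exact_mod_cast hc0
    have hne : 2 * (c:ℤ) * ((6 - 2 * c) * x + 7 * c - 6) ≠ 0 := by
      apply mul_ne_zero (by omega)
      rcases lt_or_ge c 4 with h | h
      · interval_cases c <;> push_cast <;> omega
      · have h' : (4:ℤ) ≤ c := by exact_mod_cast h
        have : (6 - 2 * (c:ℤ)) * x ≤ (6 - 2 * c) * 2400 := by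
          apply mul_le_mul_of_nonpos_left hxz
          linarith
        have : (6 - 2 * (c:ℤ)) * x + 7 * c - 6 < 0 := by linarith
        exact this.ne
    have hle := Int.le_of_dvd (abs_pos.2 hne) ((dvd_abs _ _).2 hd2)
    have hab : |2 * (c:ℤ) * ((6 - 2 * c) * x + 7 * c - 6)| ≤ 52 * (46 * x) := by
      rw [abs_mul]
      apply mul_le_mul _ _ (abs_nonneg _) (by norm_num)
      · rw [abs_of_pos (by linarith)]; linarith
      · rw [abs_le]
        constructor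
        · nlinarith
        · nlinarith
    have : ((x:ℤ)) ^ 2 - x + c ≤ 2392 * x := by linarith
    nlinarith
  have hb := bad_none c hc27 x hx2400
  have hw1 : x * (x - 1) / c = w + 1 := by rw [hcx]; exact Nat.mul_div_cancel _ hc0
  have hm : x * (x - 1) % c = 0 := by rw [hcx]; exact Nat.mul_mod_left _ _
  unfold bad at hb
  simp only [hw1, hm] at hb
  have b1 : Nat.ble 101 (w + 1) = true := by
    rw [Nat.ble_eq]; omega
  have b2 : (2 * (x - 1) * (x - 2) * (2 * x - 3)) % (w + 1 + 1) = 0 := Nat.mod_eq_zero_of_dvd h3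
  have b3 : ((x - 2) * (3 * x - 7) * (3 * x - 8) * (3 * x - 9)) % (w + 1 + 2) = 0 :=
    Nat.mod_eq_zero_of_dvd h4
  rw [b1, b2, b3] at hb
  simp at hb

end Pool.Agent.H179.SDP
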