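import Pool.Agent.H179.SDP.Direct

set_option autoImplicit false
open Finset

namespace Pool.Agent.H179.SDP

variable {α : Type*} [DecidableEq α]

/-- divisibility conditions -/
theorem St.dvd {P : Finset α} {t k : ℕ} {B : Finset (Finset α)} (h : St P t k B) (i : ℕ)
    (hi : i ≤ t) (htk : t ≤ k) (htP : t ≤ P.card) :
    (k - t + i).choose i ∣ (P.card - t + i).choose i := by
  obtain ⟨A, hA, hAc⟩ := exists_subset_card_eq (show t - i ≤ P.card by omega)
  have := h.deg_mul A hA (by omega)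
  rw [hAc] at this
  have e1 : t - (t - i) = i := by omega
  have e2 : k - (t - i) = k - t + i := by omega
  have e3 : P.card - (t - i) = P.card - t + i := by omega
  rw [e1, e2, e3] at this
  exact ⟨_, by rw [← this]; ring⟩

variable [Fintype α] {m s : ℕ} {B : Finset (Finset α)}

theorem Sys.tits (h : Sys m s B) (hsm : s < m) (hn : 2 * m < Fintype.card α) :
    (m + s + 1) * (m - s + 1) ≤ Fintype.card α := by
  have := h.st.tits (by omega) (by rw [card_univ]; exact hn)
  rw [card_univ] at this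
  have e : 2 * m - (m + s) + 1 = m - s + 1 := by omega
  rwa [e] at this

theorem Sys.no_s_ge5 (h : Sys m s B) (hs : 5 ≤ s) (hsm : s + 3 ≤ m)
    (hn : 2 * m < Fintype.card α) : False := by
  have ht := h.tits (by omega) hn
  obtain ⟨a, rfl⟩ := Nat.exists_eq_add_of_le' hs
  obtain ⟨b', rfl⟩ := Nat.exists_eq_add_of_le' hsm
  -- w = b' + 4
  have e1 : b' + (a + 5 + 3) - (a + 5) + 1 = b' + 4 := by omega
  rw [e1] at ht
  obtain ⟨y, hy⟩ := Nat.exists_eq_add_of_le' ht
  have hexp : (b' + (a + 5 + 3) + (a + 5) + 1) * (b' + 4)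
      = (2 * (a + 5) + (b' + 4)) * (b' + 3) + 6 + a + (b' + (a + 5 + 3)) := by ring
  have hv : Fintype.card α - (b' + (a + 5 + 3)) = (2 * (a + 5) + (b' + 4)) * (b' + 3) + 6 + y + a := by
    rw [hy, hexp]; omega
  have hbig : (2 * (a + 5) + (b' + 4)) * (b' + 3) ≥ 3 * (2 * (a + 5) + (b' + 4)) := by nlinarith
  have hn4 : 4 * (b' + (a + 5 + 3)) ≤ Fintype.card α := by
    rw [hy, hexp]; omega
  have hfar : Fintype.card α - (b' + (a + 5 + 3)) - (a + 5) + 1
      < (b' + (a + 5 + 3) - (a + 5) + 1) * (Fintype.card α - 2 * (b' + (a + 5 + 3)) - (a + 5) + 2) := by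
    rw [e1]
    obtain ⟨z, hz⟩ : ∃ z, Fintype.card α = z + (2 * (b' + (a + 5 + 3)) + (a + 5)) :=
      Nat.exists_eq_add_of_le' (by rw [hy, hexp]; omega)
    have l1 : Fintype.card α - (b' + (a + 5 + 3)) - (a + 5) + 1 = z + (b' + (a + 5 + 3)) + 1 := by omega
    have l2 : Fintype.card α - 2 * (b' + (a + 5 + 3)) - (a + 5) + 2 = z + 2 := by omega
    rw [l1, l2]
    have hz2 : b' + a + 8 ≤ z := by
      have : z + (2 * (b' + (a + 5 + 3)) + (a + 5)) = _ := hz.symm.trans hy
      rw [hexp] at this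
      omega
    nlinarith
  rcases Nat.eq_zero_or_pos b' with rfl | hb
  · refine h.direct (by omega) (by omega) 5 (by omega) hn4 g5' hfar hg5' ?_
    have := pos5' a y (Fintype.card α - (0 + (a + 5 + 3))) (0 + (a + 5 + 3)) (by omega)
      (by rw [hv])
    exact this
  · obtain ⟨b, rfl⟩ := Nat.exists_eq_add_of_le' hb
    refine h.direct (by omega) (by omega) 5 (by omega) hn4 g5 hfar hg5 ?_
    have := pos5 a b y (Fintype.card α - (b + 1 + (a + 5 + 3))) (b + 1 + (a + 5 + 3)) (by omega)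
      (by rw [hv])
    exact this

/-- writing `|α| - t + 1 = w r` -/
theorem Sys.exists_r (h : Sys m s B) (hsm : s < m) (hs : 1 ≤ s) (hn : 2 * m < Fintype.card α) :
    ∃ r, Fintype.card α - (m + s) + 1 = (m - s + 1) * r := by
  have := h.st.dvd 1 (by omega) (by omega) (by rw [card_univ]; omega)
  rw [card_univ, Nat.choose_one_right, Nat.choose_one_right] at this
  have e : 2 * m - (m + s) + 1 = m - s + 1 := by omega
  rw [e] at this
  exact this

theorem Sys.no_s3_big {w x : ℕ} {B : Finset (Finset α)} (h : Sys (w + 2) 3 B) (hw : 4 ≤ w)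
    (hn : Fintype.card α = w * (w + 1 + x) + 2 + (w + 2)) (hx : w + 8 ≤ 2 * x) : False := by
  have hbig : 4 * (w + 1 + x) ≤ w * (w + 1 + x) := Nat.mul_le_mul_right _ hw
  have e1 : w + 2 - 3 + 1 = w := by omega
  refine h.direct (by omega) (by omega) 3 (by omega) (by rw [hn]; omega) g3 ?_ hg3 ?_
  · rw [e1]
    obtain ⟨z, hz⟩ : ∃ z, Fintype.card α = z + (2 * (w + 2) + 3) :=
      Nat.exists_eq_add_of_le' (by rw [hn]; omega)
    have l1 : Fintype.card α - (w + 2) - 3 + 1 = z + (w + 2) + 1 := by omega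
    have l2 : Fintype.card α - 2 * (w + 2) - 3 + 2 = z + 2 := by omega
    rw [l1, l2]
    have hz2 : w ≤ z := by rw [hz] at hn; omega
    nlinarith
  · exact pos3_3 w x hw hx _ _ rfl (by rw [hn]; omega)

theorem Sys.no_s4_big {w x : ℕ} {B : Finset (Finset α)} (h : Sys (w + 3) 4 B) (hw : 4 ≤ w)
    (hn : Fintype.card α = w * (w + 1 + x) + 3 + (w + 3)) (hx : w + 8 ≤ 2 * x) : False := by
  have hbig : 4 * (w + 1 + x) ≤ w * (w + 1 + x) := Nat.mul_le_mul_right _ hw
  have e1 : w + 3 - 4 + 1 = w := by omega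
  refine h.direct (by omega) (by omega) 3 (by omega) (by rw [hn]; omega) g3 ?_ hg3 ?_
  · rw [e1]
    obtain ⟨z, hz⟩ : ∃ z, Fintype.card α = z + (2 * (w + 3) + 4) :=
      Nat.exists_eq_add_of_le' (by rw [hn]; omega)
    have l1 : Fintype.card α - (w + 3) - 4 + 1 = z + (w + 3) + 1 := by omega
    have l2 : Fintype.card α - 2 * (w + 3) - 4 + 2 = z + 2 := by omega
    rw [l1, l2]
    have hz2 : w ≤ z := by rw [hz] at hn; omega
    nlinarith
  · exact pos3_4 w x hw hx _ _ rfl (by rw [hn]; omega)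

end Pool.Agent.H179.SDP
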