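import Pool.Agent.H179.SDP.Fin100

set_option autoImplicit false
open Finset

namespace Pool.Agent.H179.SDP

variable {α : Type*} [DecidableEq α] [Fintype α] {m s : ℕ} {B : Finset (Finset α)}

/-- the exceptional parameter set `S(9, 12, 48)` -/
theorem Sys.no_48 (h : Sys 6 3 B) (hn : Fintype.card α = 48) : False := by
  refine h.direct (by omega) (by omega) 3 (by omega) (by rw [hn]; omega) g3
    (by rw [hn]; norm_num) hg3 ?_
  rw [hn]
  simp only [sum_range_succ, range_zero, sum_empty, g3, ff_zero, ff1, ff2, ff3, L]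
  norm_num [Nat.choose]

theorem Sys.no_s3 {w x : ℕ} {B : Finset (Finset α)} (h : Sys (w + 2) 3 B) (hw : 4 ≤ w)
    (hn : Fintype.card α = w * (w + 1 + x) + 2 + (w + 2)) : False := by
  rcases le_or_gt (w + 8) (2 * x) with hx | hx
  · exact h.no_s3_big hw hn hx
  have hbig : 4 * (w + 1 + x) ≤ w * (w + 1 + x) := Nat.mul_le_mul_right _ hw
  have ht := h.tits (by omega) (by omega)
  have e0 : w + 2 - 3 + 1 = w := by omega
  rw [e0, hn] at ht
  have ht' : w * (w + 2 * 3) ≤ w * (w + 1 + x) + (w + 2 * 3 - 2) := by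
    have : (w + 2 + 3 + 1) * w = w * (w + 2 * 3) := by ring
    rw [this] at ht; omega
  have hasc : ∀ i ≤ w + 5, w.ascFactorial i ∣ (w * (w + 1 + x)).ascFactorial i := by
    intro i hi
    have := h.st.asc i (by omega) (by omega) (by rw [card_univ]; omega)
    rw [card_univ, hn] at this
    have e1 : 2 * (w + 2) - (w + 2 + 3) + 1 = w := by omega
    have e2 : w * (w + 1 + x) + 2 + (w + 2) - (w + 2 + 3) + 1 = w * (w + 1 + x) := by omega
    rwa [e1, e2] at this
  rcases lt_or_ge w 100 with hw100 | hw100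
  · have h1 := fin34_intro 3 5 w x hw hx ht' (fun i hi => hasc i (by omega))
    have h2 := fin3_none w hw100 x (by omega)
    rw [h1, Bool.true_and, Bool.not_eq_false', Bool.and_eq_true, beq_iff_eq, beq_iff_eq] at h2
    obtain ⟨rfl, rfl⟩ := h2
    exact Sys.no_48 h (by rw [hn])
  · have hx4 : 4 ≤ x := by
      by_contra hlt
      push Not at hlt
      have h1 : w * (w + 1 + x) ≤ w * (w + 4) := Nat.mul_le_mul_left _ (by omega)
      have h2 : w * (w + 2 * 3) = w * (w + 4) + w * 2 := by ring
      omega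
    have h30 : 30 * (w + 2) < w * w := by
      have : 100 * w ≤ w * w := Nat.mul_le_mul_right _ hw100
      omega
    have hcm : Fintype.card α - (w + 2) = w * (w + 1 + x) + 2 := by omega
    have hmix := h.mixed (by omega) (by omega) w x (by omega) (by omega) h30 (by omega) (by rw [hn]) co3 hco3 hq3
      (by
        rw [hcm]
        intro j hj1 hj2
        exact tenth3 w x _ (w + 2) j rfl rfl hw100 hx4 hj1 (by omega))
    have hb := bound3 w x hw100 hx4 (by omega) (by push_cast at hmix ⊢; exact hmix)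
    obtain ⟨d1, d2, d3⟩ := three_dvd w x (by omega) hx4 (hasc 2 (by omega)) (hasc 3 (by omega))
      (hasc 4 (by omega))
    exact no_sol w x hw100 hx4 hb d1 d2 d3

theorem Sys.no_s4 {w x : ℕ} {B : Finset (Finset α)} (h : Sys (w + 3) 4 B) (hw : 4 ≤ w)
    (hn : Fintype.card α = w * (w + 1 + x) + 3 + (w + 3)) : False := by
  rcases le_or_gt (w + 8) (2 * x) with hx | hx
  · exact h.no_s4_big hw hn hx
  have hbig : 4 * (w + 1 + x) ≤ w * (w + 1 + x) := Nat.mul_le_mul_right _ hw
  have ht := h.tits (by omega) (by omega)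
  have e0 : w + 3 - 4 + 1 = w := by omega
  rw [e0, hn] at ht
  have ht' : w * (w + 2 * 4) ≤ w * (w + 1 + x) + (w + 2 * 4 - 2) := by
    have : (w + 3 + 4 + 1) * w = w * (w + 2 * 4) := by ring
    rw [this] at ht; omega
  have hasc : ∀ i ≤ w + 7, w.ascFactorial i ∣ (w * (w + 1 + x)).ascFactorial i := by
    intro i hi
    have := h.st.asc i (by omega) (by omega) (by rw [card_univ]; omega)
    rw [card_univ, hn] at this
    have e1 : 2 * (w + 3) - (w + 3 + 4) + 1 = w := by omega
    have e2 : w * (w + 1 + x) + 3 + (w + 3) - (w + 3 + 4) + 1 = w * (w + 1 + x) := by omega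
    rwa [e1, e2] at this
  rcases lt_or_ge w 100 with hw100 | hw100
  · have h1 := fin34_intro 4 10 w x hw hx ht' (fun i hi => hasc i (by omega))
    have h2 := fin4_none w hw100 x (by omega)
    rw [h1] at h2
    exact Bool.noConfusion h2
  · have hx4 : 4 ≤ x := by
      by_contra hlt
      push Not at hlt
      have h1 : w * (w + 1 + x) ≤ w * (w + 4) := Nat.mul_le_mul_left _ (by omega)
      have h2 : w * (w + 2 * 4) = w * (w + 4) + w * 4 := by ring
      omega
    have h30 : 30 * (w + 3) < w * w := by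
      have : 100 * w ≤ w * w := Nat.mul_le_mul_right _ hw100
      omega
    have hcm : Fintype.card α - (w + 3) = w * (w + 1 + x) + 3 := by omega
    have hmix := h.mixed (by omega) (by omega) w x (by omega) (by omega) h30 (by omega) (by rw [hn]) co4 hco4 hq4
      (by
        rw [hcm]
        intro j hj1 hj2
        exact tenth4 w x _ (w + 3) j rfl rfl hw100 hx4 hj1 (by omega))
    have hb := bound4 w x hw100 hx4 (by omega) (by push_cast at hmix ⊢; exact hmix)
    obtain ⟨d1, d2, d3⟩ := three_dvd w x (by omega) hx4 (hasc 2 (by omega)) (hasc 3 (by omega))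
      (hasc 4 (by omega))
    exact no_sol w x hw100 hx4 hb d1 d2 d3

/-- **The classification.** -/
theorem Sys.classify (h : Sys m s B) (hs : 1 ≤ s) (hsm : s < m) (hn : 2 * m < Fintype.card α) :
    s = 1 ∨ (m = 3 ∧ s = 2 ∧ Fintype.card α = 12) := by
  rcases Nat.lt_or_ge s 2 with h1 | h2
  · left; omega
  rcases Nat.lt_or_ge s 3 with h1 | h3
  · have hs2 : s = 2 := by omega
    subst hs2
    obtain ⟨a, b⟩ := h.s2 (by omega) hn
    right; exact ⟨a, rfl, b⟩
  exfalso
  rcases Nat.lt_or_ge m (s + 2) with h4 | h4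
  · exact h.no_w2 (by omega) (by omega) hn
  rcases Nat.lt_or_ge m (s + 3) with h5 | h5
  · exact h.no_w3 (by omega) (by omega) hn
  rcases Nat.lt_or_ge s 5 with h6 | h6
  swap
  · exact h.no_s_ge5 h6 h5 hn
  obtain ⟨r, hr⟩ := h.exists_r hsm (by omega) hn
  have ht := h.tits hsm hn
  obtain ⟨w, hw⟩ : ∃ w, w = m - s + 1 := ⟨_, rfl⟩
  rw [← hw] at hr ht
  have hrw : w + 1 ≤ r := by
    by_contra hlt
    push Not at hlt
    have e1 : w * r ≤ w * w := Nat.mul_le_mul_left _ (by omega)
    have e2 : (m + s + 1) * w = w * w + w * (2 * s) := by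
      have : m + s + 1 = w + 2 * s := by omega
      rw [this]; ring
    have e3 : w * 6 ≤ w * (2 * s) := Nat.mul_le_mul_left _ (by omega)
    omega
  obtain ⟨x, rfl⟩ := Nat.exists_eq_add_of_le hrw
  have hs34 : s = 3 ∨ s = 4 := by omega
  rcases hs34 with rfl | rfl
  · have hm : m = w + 2 := by omega
    subst hm
    exact h.no_s3 (w := w) (x := x) (by omega) (by omega)
  · have hm : m = w + 3 := by omega
    subst hm
    exact h.no_s4 (w := w) (x := x) (by omega) (by omega)

end Pool.Agent.H179.SDP
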