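import Pool.Agent.H179.SDP.S2main

set_option autoImplicit false
open Finset

namespace Pool.Agent.H179.SDP

section
variable {α : Type*} [DecidableEq α]

/-- the theorem of de Bruijn and Erdős for traces of blocks -/
theorem dbe (Z0 : Finset α) (O : Finset (Finset α)) (hc : 2 ≤ Z0.card)
    (hex : ∀ x ∈ Z0, ∀ y ∈ Z0, x ≠ y → ∃ C ∈ O, x ∈ C ∧ y ∈ C)
    (hun : ∀ x ∈ Z0, ∀ y ∈ Z0, x ≠ y → ∀ C ∈ O, ∀ C' ∈ O, x ∈ C → y ∈ C → x ∈ C' → y ∈ C' → C = C')
    (hno : ∀ C ∈ O, ¬ Z0 ⊆ C) : Z0.card ≤ O.card := by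
  classical
  let P' := {x // x ∈ Z0}
  let L' := {C // C ∈ O}
  letI : Membership P' L' := ⟨fun C x => x.1 ∈ C.1⟩
  have mem_def : ∀ (x : P') (C : L'), (x ∈ C) = (x.1 ∈ C.1) := fun _ _ => rfl
  have hline : ∀ {p q : P'}, p ≠ q → ∃ C : L', p ∈ C ∧ q ∈ C := by
    intro p q hpq
    obtain ⟨C, hC, h1, h2⟩ := hex p.1 p.2 q.1 q.2 (fun e => hpq (Subtype.ext e))
    exact ⟨⟨C, hC⟩, h1, h2⟩
  have heq : ∀ {p₁ p₂ : P'} {l₁ l₂ : L'}, p₁ ∈ l₁ → p₂ ∈ l₁ → p₁ ∈ l₂ → p₂ ∈ l₂ →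
      p₁ = p₂ ∨ l₁ = l₂ := by
    intro p₁ p₂ l₁ l₂ h1 h2 h3 h4
    by_cases hp : p₁ = p₂
    · exact Or.inl hp
    · right
      apply Subtype.ext
      exact hun p₁.1 p₁.2 p₂.1 p₂.2 (fun e => hp (Subtype.ext e)) l₁.1 l₁.2 l₂.1 l₂.2 h1 h2 h3 h4
  have hpt : ∀ l : L', ∃ p : P', p ∉ l := by
    intro l
    obtain ⟨x, hx, hx'⟩ := not_subset.1 (hno l.1 l.2)
    exact ⟨⟨x, hx⟩, hx'⟩
  letI : Configuration.HasLines P' L' :=
    { exists_point := hpt
      exists_line := by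
        intro p
        by_contra hall
        push Not at hall
        obtain ⟨q, hq, hqp⟩ := exists_mem_ne (show 1 < Z0.card by omega) p.1
        have hpq : p ≠ ⟨q, hq⟩ := fun e => hqp (congrArg Subtype.val e).symm
        obtain ⟨l, h1, h2⟩ := hline hpq
        obtain ⟨r, hr⟩ := hpt l
        have hrq : (⟨q, hq⟩ : P') ≠ r := fun e => hr (e ▸ h2)
        obtain ⟨l', h3, h4⟩ := hline hrq
        rcases heq h1 h2 (hall l') h3 with h5 | h5
        · exact hpq h5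
        · exact hr (h5 ▸ h4)
      eq_or_eq := heq
      mkLine := fun h => (hline h).choose
      mkLine_ax := fun h => (hline h).choose_spec }
  have := Configuration.HasLines.card_le P' L'
  simpa [P', L', Fintype.card_coe] using this

end

variable {α : Type*} [DecidableEq α] [Fintype α] {m s : ℕ} {B : Finset (Finset α)}

/-- the second moment argument with the blocks through `s - 2` points of `Z \ X` -/
theorem Sys.mixing (h : Sys m s B) (hs : 2 ≤ s) (hsm : s < m) {X Z A : Finset α} (hX : X.card = m)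
    (hZc : Z.card = m) (hXZ : ¬ Disjoint X Z) (hA : A ⊆ Z \ X) (hAc : A.card = s - 2)
    (O : Finset (Finset α)) (hO : ∀ C ∈ O, C ∈ D m B X ∧ A ⊆ C ∧ s ≤ (C ∩ Z).card)
    (v T : ℕ) (hv : ((univ : Finset α) \ X).card = v) (hT : ((univ : Finset α) \ (X ∪ Z)).card = T)
    (hTpos : m * (m - s) ≤ T) (hT0 : 0 < T)
    (hK : 0 ≤ L v s m 1 - L v s m 2) :
    (O.card : ℚ) * ((((D m B X).filter (· ∈ D m B Z)).card : ℚ)
        * ((T:ℚ) - m * ((m:ℚ) - s)) / T) ^ 2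
      ≤ (L v s m (s - 1) - 1) * ((L v s m 1 - L v s m 2)
        * (((D m B X).filter (· ∈ D m B Z)).card : ℚ)) := by
  set F := (D m B X).filter (· ∈ D m B Z) with hF
  set y : ℚ := (F.card : ℚ) with hy
  have hstX := h.stD hX
  have hFX : F ⊆ D m B X := filter_subset _ _
  have hFZ : ∀ C ∈ F, C ∈ D m B Z := fun C hC => (mem_filter.1 hC).2
  have hFT : ∀ C ∈ F, C ⊆ univ \ (X ∪ Z) := by
    intro C hC z hz
    simp only [mem_sdiff, mem_univ, true_and, mem_union, not_or]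
    exact ⟨fun hx => (disjoint_left.1 (mem_D.1 (hFX hC)).2.1) hx hz,
      fun hx => (disjoint_left.1 (mem_D.1 (hFZ C hC)).2.1) hx hz⟩
  have hTP : (univ : Finset α) \ (X ∪ Z) ⊆ univ \ X := sdiff_subset_sdiff (Subset.refl _) subset_union_left
  have hTv : T ≤ v := by rw [← hT, ← hv]; exact card_le_card hTP
  have hT0' : (0:ℚ) < T := by exact_mod_cast hT0
  have hv0 : (0:ℚ) < v := by exact_mod_cast (by omega : 0 < v)
  have hG : ∀ C : Finset α, ∑ q ∈ C, dg F q = ∑ Y'' ∈ F, ((C ∩ Y'').card : ℚ) := sum_dg F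
  have hcap : ∀ (U : Finset α), (∀ C ∈ F, C ⊆ U) → ∑ q ∈ U, dg F q = m * y := by
    intro U hU
    rw [hG]
    have : ∀ Y'' ∈ F, ((U ∩ Y'').card : ℚ) = m := by
      intro Y'' hY''
      rw [inter_eq_right.2 (hU _ hY''), (mem_D.1 (hFX hY'')).1]
    rw [sum_congr rfl this, sum_const, nsmul_eq_mul]; ring
  have hsP : ∑ q ∈ univ \ X, dg F q = m * y := hcap _ (fun C hC => (hFT C hC).trans hTP)
  have hsT : ∑ q ∈ univ \ (X ∪ Z), dg F q = m * y := hcap _ hFT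
  have hq2 : ∑ q ∈ univ \ (X ∪ Z), dg F q ^ 2 = ∑ q ∈ univ \ X, dg F q ^ 2 := by
    rw [sum_dg_sq F _ hFT, sum_dg_sq F _ (fun C hC => (hFT C hC).trans hTP)]
  set K1 : ℚ := L v s m 1 - L v s m 2 with hK1
  -- variance on `P`
  set μ₀ : ℚ := m * y / v with hμ₀
  set Q : ℚ := ∑ q ∈ univ \ X, (dg F q - μ₀) ^ 2 with hQ
  have hQ0 : 0 ≤ Q := sum_nonneg (fun _ _ => sq_nonneg _)
  have hsum0 : ∑ q ∈ univ \ X, (dg F q - μ₀) = 0 := by
    rw [sum_sub_distrib, hsP, sum_const, hv, nsmul_eq_mul, hμ₀]; field_simp; ring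
  have hQexp : Q = ∑ q ∈ univ \ X, dg F q ^ 2 - (m * y) ^ 2 / v := by
    have e : ∀ q ∈ univ \ X, (dg F q - μ₀) ^ 2 = dg F q ^ 2 - 2 * μ₀ * dg F q + μ₀ ^ 2 := by
      intro q _; ring
    rw [hQ, sum_congr rfl e, sum_add_distrib, sum_sub_distrib, ← mul_sum, hsP, sum_const, hv,
      nsmul_eq_mul, hμ₀]
    field_simp; ring
  have hQF : Q = ∑ C ∈ F, ∑ q ∈ C, (dg F q - μ₀) := by
    have e1 : ∀ C ∈ F, ∑ q ∈ C, (dg F q - μ₀) = ∑ q ∈ C, dg F q - m * μ₀ := by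
      intro C hC
      rw [sum_sub_distrib, sum_const, (mem_D.1 (hFX hC)).1, nsmul_eq_mul]
    rw [sum_congr rfl e1, sum_sub_distrib, ← sum_dg_sq F (univ \ X) (fun C hC => (hFT C hC).trans hTP),
      sum_const, nsmul_eq_mul, hQexp, hμ₀, ← hy]
    field_simp
  have hsqD : ∑ C ∈ D m B X, (∑ q ∈ C, (dg F q - μ₀)) ^ 2 = K1 * Q := by
    have := hstX.sq (by omega) ∅ (univ \ X) (empty_subset _) (Subset.refl _)
      (disjoint_empty_left _) (by simpa using hs) (fun q => dg F q - μ₀)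
    simp only [empty_subset, filter_true, card_empty, zero_add] at this
    rw [hsum0, hv] at this
    rw [hK1, hQ]
    have e : ∀ C ∈ D m B X, (∑ q ∈ C, (dg F q - μ₀)) ^ 2
        = (∑ q ∈ C ∩ (univ \ X), (dg F q - μ₀)) ^ 2 := by
      intro C hC; rw [inter_eq_left.2 (hstX.sub C hC)]
    rw [sum_congr rfl e, this]; ring
  have hQle : Q ≤ K1 * y := by
    have c1 : Q ^ 2 ≤ y * ∑ C ∈ F, (∑ q ∈ C, (dg F q - μ₀)) ^ 2 := by
      rw [hQF]; exact sq_sum_le_card_mul_sum_sq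
    have c2 : ∑ C ∈ F, (∑ q ∈ C, (dg F q - μ₀)) ^ 2 ≤ K1 * Q := by
      rw [← hsqD]
      exact sum_le_sum_of_subset_of_nonneg hFX (fun _ _ _ => sq_nonneg _)
    have hy0 : 0 ≤ y := by positivity
    have c3 : Q ^ 2 ≤ y * (K1 * Q) := c1.trans (mul_le_mul_of_nonneg_left c2 hy0)
    rcases hQ0.eq_or_lt with h0 | h0
    · rw [← h0]; exact mul_nonneg hK hy0
    · by_contra hcon
      push Not at hcon
      nlinarith
  -- variance on `T`
  set μ : ℚ := m * y / T with hμ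
  have hQT : ∑ q ∈ univ \ (X ∪ Z), (dg F q - μ) ^ 2 ≤ Q := by
    have e : ∀ q ∈ univ \ (X ∪ Z), (dg F q - μ) ^ 2 = dg F q ^ 2 - 2 * μ * dg F q + μ ^ 2 := by
      intro q _; ring
    have e2 : ∑ q ∈ univ \ (X ∪ Z), (dg F q - μ) ^ 2
        = ∑ q ∈ univ \ X, dg F q ^ 2 - (m * y) ^ 2 / T := by
      rw [sum_congr rfl e, sum_add_distrib, sum_sub_distrib, ← mul_sum, hsT, hq2, sum_const, hT,
        nsmul_eq_mul, hμ]
      field_simp; ring
    rw [e2, hQexp]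
    have : (m * y) ^ 2 / v ≤ (m * y) ^ 2 / T := by
      apply div_le_div_of_nonneg_left (sq_nonneg _) hT0' (by exact_mod_cast hTv)
    linarith
  have hsumT0 : ∑ q ∈ univ \ (X ∪ Z), (dg F q - μ) = 0 := by
    rw [sum_sub_distrib, hsT, sum_const, hT, nsmul_eq_mul, hμ]; field_simp; ring
  have hAP : A ⊆ univ \ X := hA.trans (sdiff_subset_sdiff (subset_univ _) (Subset.refl _))
  have hAT : Disjoint A (univ \ (X ∪ Z)) := by
    rw [disjoint_left]; intro z hz hz'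
    simp only [mem_sdiff, mem_univ, true_and, mem_union, not_or] at hz'
    exact hz'.2 (mem_sdiff.1 (hA hz)).1
  have hlines : ∑ C ∈ (D m B X).filter (A ⊆ ·), (∑ q ∈ C ∩ (univ \ (X ∪ Z)), (dg F q - μ)) ^ 2
      = (L v s m (s - 1) - 1) * ∑ q ∈ univ \ (X ∪ Z), (dg F q - μ) ^ 2 := by
    have := hstX.sq (by omega) A (univ \ (X ∪ Z)) hAP hTP hAT (by omega) (fun q => dg F q - μ)
    rw [hsumT0, hv, hAc] at this
    have e1 : s - 2 + 1 = s - 1 := by omega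
    have e2 : s - 2 + 2 = s := by omega
    rw [e1, e2, L_top] at this
    rw [this]; ring
  have hval : ∀ C ∈ O, y * ((T:ℚ) - m * ((m:ℚ) - s)) / T
      ≤ ∑ q ∈ C ∩ (univ \ (X ∪ Z)), (dg F q - μ) := by
    intro C hC
    obtain ⟨hCX, _, hCZ⟩ := hO C hC
    have hCc := (mem_D.1 hCX).1
    have hXC := (mem_D.1 hCX).2.1
    have hcapT : (C ∩ (univ \ (X ∪ Z))).card + (C ∩ Z).card = m := by
      rw [← hCc]
      have e1 : C ∩ (univ \ (X ∪ Z)) = C \ Z := by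
        ext z
        simp only [mem_inter, mem_sdiff, mem_univ, true_and, mem_union, not_or]
        exact ⟨fun hh => ⟨hh.1, hh.2.2⟩, fun hh => ⟨hh.1, fun hx => (disjoint_left.1 hXC) hx hh.1, hh.2⟩⟩
      rw [e1, add_comm]; exact card_inter_add_card_sdiff _ _
    have hle : ((C ∩ (univ \ (X ∪ Z))).card : ℚ) ≤ (m:ℚ) - s := by
      have : (C ∩ (univ \ (X ∪ Z))).card + s ≤ m := by omega
      have : (((C ∩ (univ \ (X ∪ Z))).card + s : ℕ) : ℚ) ≤ m := by exact_mod_cast this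
      push_cast at this; linarith
    have hge : y ≤ ∑ q ∈ C ∩ (univ \ (X ∪ Z)), dg F q := by
      rw [hG]
      have : ∀ Y'' ∈ F, (1:ℚ) ≤ (((C ∩ (univ \ (X ∪ Z))) ∩ Y'').card : ℚ) := by
        intro Y'' hY''
        have e1 : (C ∩ (univ \ (X ∪ Z))) ∩ Y'' = C ∩ Y'' := by
          ext z
          simp only [mem_inter]
          exact ⟨fun hh => ⟨hh.1.1, hh.2⟩, fun hh => ⟨⟨hh.1, hFT _ hY'' hh.2⟩, hh.2⟩⟩
        rw [e1]
        have hnd := h.meets hX (hFX hY'') (hFZ _ hY'') hZc hXZ hCX hCZ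
        have : 0 < (C ∩ Y'').card := by
          rw [card_pos, nonempty_iff_ne_empty, Ne, ← disjoint_iff_inter_eq_empty]; exact hnd
        exact_mod_cast this
      have := sum_le_sum this
      rw [sum_const, nsmul_eq_mul, mul_one] at this
      exact this
    rw [sum_sub_distrib, sum_const, nsmul_eq_mul]
    have hμ0 : 0 ≤ μ := by rw [hμ]; positivity
    have h3 : ((C ∩ (univ \ (X ∪ Z))).card : ℚ) * μ ≤ ((m:ℚ) - s) * μ :=
      mul_le_mul_of_nonneg_right hle hμ0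
    have h4 : y * ((T:ℚ) - m * ((m:ℚ) - s)) / T = y - ((m:ℚ) - s) * μ := by
      rw [hμ]; field_simp
    rw [h4]; linarith
  have hg0 : 0 ≤ y * ((T:ℚ) - m * ((m:ℚ) - s)) / T := by
    apply div_nonneg _ hT0'.le
    apply mul_nonneg (by positivity)
    have : ((m * (m - s) : ℕ) : ℚ) ≤ T := by exact_mod_cast hTpos
    push_cast [Nat.cast_sub hsm.le] at this
    linarith
  have hOsub : O ⊆ (D m B X).filter (A ⊆ ·) := fun C hC =>
    mem_filter.2 ⟨(hO C hC).1, (hO C hC).2.1⟩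
  have hOsum : (O.card : ℚ) * (y * ((T:ℚ) - m * ((m:ℚ) - s)) / T) ^ 2
      ≤ ∑ C ∈ O, (∑ q ∈ C ∩ (univ \ (X ∪ Z)), (dg F q - μ)) ^ 2 := by
    rw [← nsmul_eq_mul, ← sum_const]
    apply sum_le_sum
    intro C hC
    exact pow_le_pow_left₀ hg0 (hval C hC) 2
  have hr1 : 0 ≤ L v s m (s - 1) - 1 := by
    have hsv : s ≤ v := by
      have : s ≤ m * (m - s) := by
        have h1 : 1 ≤ m - s := by omega
        nlinarith
      omega
    have hh := L_rec v s m (s - 1) (by omega) hsm.le hsv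
    have e2 : s - 1 + 1 = s := by omega
    rw [e2, L_top, Nat.cast_sub (by omega)] at hh
    push_cast at hh
    have hms : (0:ℚ) < (m:ℚ) - (s - 1) := by
      have : ((s:ℕ):ℚ) + 1 ≤ m := by exact_mod_cast hsm
      linarith
    have hmv : (m:ℚ) ≤ v := by
      have h1 : 1 ≤ m - s := by omega
      have : m ≤ m * (m - s) := Nat.le_mul_of_pos_right _ h1
      exact_mod_cast (by omega : m ≤ v)
    by_contra hcon
    push Not at hcon
    have h5 : L v s m (s - 1) < 1 := by linarith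
    have := mul_lt_mul_of_pos_right h5 hms
    linarith
  calc (O.card : ℚ) * (y * ((T:ℚ) - m * ((m:ℚ) - s)) / T) ^ 2
      ≤ ∑ C ∈ O, (∑ q ∈ C ∩ (univ \ (X ∪ Z)), (dg F q - μ)) ^ 2 := hOsum
    _ ≤ ∑ C ∈ (D m B X).filter (A ⊆ ·), (∑ q ∈ C ∩ (univ \ (X ∪ Z)), (dg F q - μ)) ^ 2 :=
        sum_le_sum_of_subset_of_nonneg hOsub (fun _ _ _ => sq_nonneg _)
    _ = (L v s m (s - 1) - 1) * ∑ q ∈ univ \ (X ∪ Z), (dg F q - μ) ^ 2 := hlines
    _ ≤ (L v s m (s - 1) - 1) * (K1 * y) :=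
        mul_le_mul_of_nonneg_left (hQT.trans hQle) hr1

end Pool.Agent.H179.SDP
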