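import Pool.Agent.H179.SDP.Arith

set_option autoImplicit false
open Finset

namespace Pool.Agent.H179.SDP

variable {α : Type*} [DecidableEq α] [Fintype α] {m s : ℕ} {B : Finset (Finset α)}

theorem Sys.mixed (h : Sys m s B) (hs : 2 ≤ s) (hs4 : s ≤ 4) (w x : ℕ) (hm : m + 1 = w + s)
    (hsw : s ≤ w) (hw : 30 * m < w * w) (hx : s ≤ x)
    (hn : Fintype.card α = w * (w + 1 + x) + (s - 1) + m) (co : ℕ → ℕ → ℚ)
    (hco : ∀ a c, s < a + c → co a c = 0)
    (hq : ∀ i < s, ∀ j < s, qv s co i j ≤ if (i = 0 ∧ j = 0) then 1 else 0)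
    (ht : ∀ j, 1 ≤ j → j < s → L (Fintype.card α - m) s m 0 ≤
      10 * (qs s co (Fintype.card α - m) m m (m - j) - qv s co m 0 - qv s co j (m - j))) :
    ((w:ℚ) + 2 - s) * w * ((x:ℚ) - s + 2) ^ 2 ≤ 10 * m * ((w:ℚ) + x) ^ 2 := by
  have hsm : s < m := by omega
  have hww : w * 2 ≤ w * (w + 1 + x) := Nat.mul_le_mul_left _ (by omega)
  have hbig : 2 * (w + 1 + x) ≤ w * (w + 1 + x) := Nat.mul_le_mul_right _ (by omega)
  have hw30 : 30 ≤ w := by
    by_contra hlt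
    push Not at hlt
    have h1 : w * w ≤ 30 * w := Nat.mul_le_mul_right _ hlt.le
    omega
  have hbig2 : 30 * (w + 1 + x) ≤ w * (w + 1 + x) := Nat.mul_le_mul_right _ hw30
  obtain ⟨X, _, hX⟩ := exists_subset_card_eq (show m ≤ (univ : Finset α).card by
    rw [card_univ]; omega)
  have hPX := card_P (m := m) hX
  obtain ⟨Y, hY, _⟩ := (h.stD hX).exists_block (S := ∅) (empty_subset _) (by simp) (by omega)
  have hfar : Fintype.card α - m - s + 1 < (m - s + 1) * (Fintype.card α - 2 * m - s + 2) := by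
    have e1 : m - s + 1 = w := by omega
    rw [e1]
    obtain ⟨z, hz⟩ : ∃ z, Fintype.card α = z + (2 * m + s) :=
      Nat.exists_eq_add_of_le' (by rw [hn]; omega)
    have l1 : Fintype.card α - m - s + 1 = z + m + 1 := by omega
    have l2 : Fintype.card α - 2 * m - s + 2 = z + 2 := by omega
    rw [l1, l2]
    have hz2 : m ≤ z := by omega
    nlinarith
  obtain ⟨Z, hZ, hXZ, hZX⟩ := h.exists_far hs hsm.le hX hY (by omega) hfar
  have hYc := (mem_D.1 hY).1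
  have hZc := (mem_D.1 hZ).1
  have hXDY : X ∈ D m B Y := D_symm hX hY
  have hYDZ : Y ∈ D m B Z := D_symm hYc hZ
  have hPY := card_P (m := m) hYc
  have hne : X ≠ Z := by
    rintro rfl; simp at hZX; omega
  have hjs : (Z ∩ X).card < s := by
    have := (h.stD hYc).inter_lt hXDY hZ hne
    rwa [inter_comm] at this
  have hj0 : 0 < (Z ∩ X).card := by
    rw [card_pos, nonempty_iff_ne_empty, Ne, ← disjoint_iff_inter_eq_empty]
    exact fun hd => hXZ hd.symm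
  have hZXc : (Z \ X).card = m - (Z ∩ X).card := by
    have : (Z \ X).card + (Z ∩ X).card = Z.card := by
      rw [add_comm]; exact card_inter_add_card_sdiff _ _
    omega
  have hc := count_q (h.stD hYc) hsm.le (by omega) hXDY hZ hne co hco hq
  rw [hPY, hZXc] at hc
  have hsub : ((D m B Y).filter (fun C => Disjoint C X ∧ Disjoint C Z)).card
      ≤ ((D m B X).filter (· ∈ D m B Z)).card := by
    apply card_le_card
    intro C hC
    rw [mem_filter] at hC ⊢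
    exact h.closed hY hYDZ hC.1 hC.2.1.symm hC.2.2.symm
  have hsubq : (((D m B Y).filter (fun C => Disjoint C X ∧ Disjoint C Z)).card : ℚ)
      ≤ (((D m B X).filter (· ∈ D m B Z)).card : ℚ) := by exact_mod_cast hsub
  have ht' := ht _ hj0 hjs
  have hmain := h.star_gen hs w x hm hsw hw hs4 hx hn hX hY hZ hXZ hZX (by linarith)
  rw [inter_comm] at hmain
  have hjq : (((Z ∩ X).card : ℕ) : ℚ) + 1 ≤ s := by exact_mod_cast hjs
  have hpos : 0 ≤ (w:ℚ) * ((x:ℚ) - s + 2) ^ 2 := by positivity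
  have : ((w:ℚ) + 2 - s) * (w * ((x:ℚ) - s + 2) ^ 2)
      ≤ ((w:ℚ) + 1 - (Z ∩ X).card) * (w * ((x:ℚ) - s + 2) ^ 2) :=
    mul_le_mul_of_nonneg_right (by linarith) hpos
  linarith

/-- bound on `c` where `x (x - 1) = c (w + 1)`, `s = 4` -/
theorem bound4 (w x : ℕ) (hw : 100 ≤ w) (hx : 4 ≤ x) (hx2 : 2 * x ≤ w + 7)
    (hm : ((w:ℚ) + 2 - 4) * w * ((x:ℚ) - 4 + 2) ^ 2 ≤ 10 * (w + 3) * ((w:ℚ) + x) ^ 2) :
    x * (x - 1) < 27 * (w + 1) := by
  by_contra hcon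
  push Not at hcon
  have hcq : 27 * ((w:ℚ) + 1) ≤ x * (x - 1) := by
    have : ((27 * (w + 1) : ℕ) : ℚ) ≤ ((x * (x - 1) : ℕ) : ℚ) := by exact_mod_cast hcon
    push_cast [Nat.cast_sub (show 1 ≤ x by omega)] at this
    exact this
  have hxq : 2 * (x:ℚ) ≤ w + 7 := by exact_mod_cast hx2
  obtain ⟨u, rfl⟩ := Nat.exists_eq_add_of_le hw
  push_cast at *
  have hu : (0:ℚ) ≤ u := by positivity
  have hx4 : (4:ℚ) ≤ x := by exact_mod_cast hx
  set W : ℚ := 100 + (u:ℚ) with hW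
  have h1 : 27 * (W + 1) - 3 * ((W + 7) / 2) + 4 ≤ ((x:ℚ) - 4 + 2) ^ 2 := by nlinarith
  have h2 : (W + x) ^ 2 ≤ (W + (W + 7) / 2) ^ 2 := by
    apply pow_le_pow_left₀ (by positivity)
    linarith
  have h3 : (W + 2 - 4) * W * (27 * (W + 1) - 3 * ((W + 7) / 2) + 4)
      ≤ (W + 2 - 4) * W * ((x:ℚ) - 4 + 2) ^ 2 := by
    apply mul_le_mul_of_nonneg_left h1
    have : 0 ≤ W - 2 := by rw [hW]; linarith
    have e : W + 2 - 4 = W - 2 := by ring
    rw [e]; positivity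
  have h4 : 10 * (W + 3) * (W + x) ^ 2 ≤ 10 * (W + 3) * (W + (W + 7) / 2) ^ 2 :=
    mul_le_mul_of_nonneg_left h2 (by positivity)
  have h5 : 10 * (W + 3) * (W + (W + 7) / 2) ^ 2
      < (W + 2 - 4) * W * (27 * (W + 1) - 3 * ((W + 7) / 2) + 4) := by
    rw [← sub_pos, hW]
    ring_nf
    positivity
  linarith

/-- bound on `c` where `x (x - 1) = c (w + 1)`, `s = 3` -/
theorem bound3 (w x : ℕ) (hw : 100 ≤ w) (hx : 4 ≤ x) (hx2 : 2 * x ≤ w + 7)
    (hm : ((w:ℚ) + 2 - 3) * w * ((x:ℚ) - 3 + 2) ^ 2 ≤ 10 * (w + 2) * ((w:ℚ) + x) ^ 2) :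
    x * (x - 1) < 27 * (w + 1) := by
  by_contra hcon
  push Not at hcon
  have hcq : 27 * ((w:ℚ) + 1) ≤ x * (x - 1) := by
    have : ((27 * (w + 1) : ℕ) : ℚ) ≤ ((x * (x - 1) : ℕ) : ℚ) := by exact_mod_cast hcon
    push_cast [Nat.cast_sub (show 1 ≤ x by omega)] at this
    exact this
  have hxq : 2 * (x:ℚ) ≤ w + 7 := by exact_mod_cast hx2
  obtain ⟨u, rfl⟩ := Nat.exists_eq_add_of_le hw
  push_cast at *
  have hu : (0:ℚ) ≤ u := by positivity
  have hx4 : (4:ℚ) ≤ x := by exact_mod_cast hx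
  set W : ℚ := 100 + (u:ℚ) with hW
  have h1 : 27 * (W + 1) - ((W + 7) / 2) + 1 ≤ ((x:ℚ) - 3 + 2) ^ 2 := by nlinarith
  have h2 : (W + x) ^ 2 ≤ (W + (W + 7) / 2) ^ 2 := by
    apply pow_le_pow_left₀ (by positivity)
    linarith
  have h3 : (W + 2 - 3) * W * (27 * (W + 1) - ((W + 7) / 2) + 1)
      ≤ (W + 2 - 3) * W * ((x:ℚ) - 3 + 2) ^ 2 := by
    apply mul_le_mul_of_nonneg_left h1
    have : 0 ≤ W - 1 := by rw [hW]; linarith
    have e : W + 2 - 3 = W - 1 := by ring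
    rw [e]; positivity
  have h4 : 10 * (W + 2) * (W + x) ^ 2 ≤ 10 * (W + 2) * (W + (W + 7) / 2) ^ 2 :=
    mul_le_mul_of_nonneg_left h2 (by positivity)
  have h5 : 10 * (W + 2) * (W + (W + 7) / 2) ^ 2
      < (W + 2 - 3) * W * (27 * (W + 1) - ((W + 7) / 2) + 1) := by
    rw [← sub_pos, hW]
    ring_nf
    positivity
  linarith

end Pool.Agent.H179.SDP
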