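import Pool.Agent.H179.SDP.SmallW

set_option autoImplicit false
open Finset

namespace Pool.Agent.H179.SDP

section
variable {α : Type*} [DecidableEq α]

/-- number of members of `F` through a point -/
def dg (F : Finset (Finset α)) (q : α) : ℚ := ((F.filter (q ∈ ·)).card : ℚ)

theorem sum_dg (F : Finset (Finset α)) (C : Finset α) :
    ∑ q ∈ C, dg F q = ∑ Y ∈ F, ((C ∩ Y).card : ℚ) := by
  have e1 : ∀ q ∈ C, dg F q = ∑ Y ∈ F, if q ∈ Y then (1:ℚ) else 0 := by
    intro q _
    rw [dg, ← sum_filter, sum_const, nsmul_eq_mul, mul_one]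
  rw [sum_congr rfl e1, sum_comm]
  apply sum_congr rfl
  intro Y _
  rw [← sum_filter, sum_const, nsmul_eq_mul, mul_one]
  congr 2

theorem sum_dg_sq (F : Finset (Finset α)) (P : Finset α) (hF : ∀ Y ∈ F, Y ⊆ P) :
    ∑ q ∈ P, dg F q ^ 2 = ∑ Y ∈ F, ∑ q ∈ Y, dg F q := by
  have e1 : ∀ q ∈ P, dg F q ^ 2 = ∑ Y ∈ F, if q ∈ Y then dg F q else 0 := by
    intro q _
    rw [← sum_filter, sum_const, nsmul_eq_mul, dg]; ring
  rw [sum_congr rfl e1, sum_comm]
  apply sum_congr rfl
  intro Y hY
  rw [← sum_filter]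
  congr 1
  ext x
  simp only [mem_filter]
  exact ⟨fun h => h.2, fun h => ⟨hF Y hY h, h⟩⟩

end

/-- the algebra of the case `s = 2` -/
theorem s2_algebra (m ρ r b y e c1 v : ℚ) (hm : 3 ≤ m) (hρ : 2 ≤ ρ) (hr : r = m + ρ)
    (hv : v = (m - 1) * r + 1) (hb : b * m = v * r) (hy : 1 ≤ y) (hyb : y ≤ b)
    (he : e * m = (m - 1) * (ρ ^ 2 - ρ - m)) (he0 : 0 ≤ e) (hc0 : 0 ≤ c1)
    (hc1 : c1 < (m - 1) * r)
    (hI : (r * m * y - y * (y - e) - (b - y - c1) * y) ^ 2
      ≤ c1 * ((r - 1) * (y * (y - e)) + (m * y) ^ 2 - y * (y - e) ^ 2 - (b - y - c1) * y ^ 2))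
    (hII : (r * m * y - y * (y - e)) ^ 2
      ≤ (b - y) * ((r - 1) * (y * (y - e)) + (m * y) ^ 2 - y * (y - e) ^ 2)) : False := by
  have hm0 : (0:ℚ) < m := by linarith
  have hy0 : (0:ℚ) < y := by linarith
  have hvpos : 0 < v := by rw [hv, hr]; nlinarith
  -- second inequality
  have h2 : y * ρ ≤ r * (r - 1 + e) := by
    set u : ℚ := y - e with hu
    set δ : ℚ := u * v - m ^ 2 * y with hδ
    have key : b * δ ≤ (r - 1) * (b - y) * v := by
      rcases le_or_gt δ 0 with h | h
      · have hb0 : 0 ≤ b := by linarith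
        have h1 : b * δ ≤ 0 := mul_nonpos_of_nonneg_of_nonpos hb0 h
        have h3 : 0 ≤ (r - 1) * (b - y) * v :=
          mul_nonneg (mul_nonneg (by rw [hr]; linarith) (by linarith)) hvpos.le
        linarith
      · have e1 : v ^ 2 * ((r * m * y - y * u) ^ 2
            - (b - y) * ((r - 1) * (y * u) + (m * y) ^ 2 - y * u ^ 2))
            = y * δ * (b * δ - (r - 1) * (b - y) * v) := by
          rw [hδ]
          linear_combination (m * y ^ 2 * (- v ^ 2 + 2 * u * v - m ^ 2 * y - (r - 1) * v)) * hb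
            - m * y ^ 2 * v * (r * v - y * m) * hv
        have e2 : y * δ * (b * δ - (r - 1) * (b - y) * v) ≤ 0 := by
          rw [← e1]
          exact mul_nonpos_of_nonneg_of_nonpos (by positivity) (by linarith)
        have h3 : 0 < y * δ := mul_pos hy0 h
        by_contra hcon
        push Not at hcon
        have : 0 < y * δ * (b * δ - (r - 1) * (b - y) * v) := mul_pos h3 (by linarith)
        linarith
    have k3 : (b * m) * δ ≤ (r - 1) * (b * m - m * y) * v := by
      have := mul_le_mul_of_nonneg_left key hm0.le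
      linarith
    rw [hb] at k3
    have k4 : r * δ ≤ (r - 1) * (v * r - m * y) := by
      by_contra hcon
      push Not at hcon
      have := mul_lt_mul_of_pos_right hcon hvpos
      linarith
    have k5 : (v * r - m ^ 2 * r + (r - 1) * m) = ρ * v := by rw [hv, hr]; ring
    have k6 : y * (ρ * v) ≤ v * r * (r - 1 + e) := by
      rw [← k5]
      rw [hδ, hu] at k4
      linarith
    by_contra hcon
    push Not at hcon
    have := mul_lt_mul_of_pos_right hcon hvpos
    linarith
  -- first inequality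
  have h1 : y * ((m - 1) ^ 2 * ρ ^ 2) ≤ c1 * (y * (e + m - 1) - e * (e + r - 1)) := by
    have hbe : b = e + (2 * m - 1) * r - m * (m - 1) := by
      have : b * m = (e + (2 * m - 1) * r - m * (m - 1)) * m := by
        rw [hb, hv, hr]
        linear_combination - he
      exact mul_right_cancel₀ hm0.ne' this
    have e1 : c1 * ((r - 1) * (y * (y - e)) + (m * y) ^ 2 - y * (y - e) ^ 2 - (b - y - c1) * y ^ 2)
        - (r * m * y - y * (y - e) - (b - y - c1) * y) ^ 2
        = y * (c1 * (y * (e + m - 1) - e * (e + r - 1)) - y * ((m - 1) ^ 2 * ρ ^ 2)) := by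
      rw [hbe, hr]; ring
    have e2 : 0 ≤ y * (c1 * (y * (e + m - 1) - e * (e + r - 1)) - y * ((m - 1) ^ 2 * ρ ^ 2)) := by
      rw [← e1]; linarith
    have := nonneg_of_mul_nonneg_right e2 hy0
    linarith
  set K : ℚ := y * (e + m - 1) - e * (e + r - 1) with hK
  have hm1 : 0 < m - 1 := by linarith
  have hL : 0 < y * ((m - 1) ^ 2 * ρ ^ 2) := by positivity
  have hKpos : 0 < K := by
    by_contra hcon
    push Not at hcon
    have : c1 * K ≤ 0 := mul_nonpos_of_nonneg_of_nonpos hc0 hcon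
    linarith
  have h3 : c1 * K < (m - 1) * r * K := mul_lt_mul_of_pos_right hc1 hKpos
  have h4 : y * ((m - 1) * ρ ^ 2) < r * K := by
    by_contra hcon
    push Not at hcon
    have := mul_le_mul_of_nonneg_left hcon hm1.le
    nlinarith [this, h1, h3]
  have h5 : r * (e + m - 1) - (m - 1) * ρ ^ 2 = e * ρ := by
    rw [hr]; linear_combination he
  have h6 : 0 < e * (y * ρ - r * (r - 1 + e)) := by
    have : r * K - y * ((m - 1) * ρ ^ 2) = e * (y * ρ - r * (r - 1 + e)) := by
      rw [hK]; linear_combination y * h5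
    linarith
  have h7 : e * (y * ρ - r * (r - 1 + e)) ≤ 0 := mul_nonpos_of_nonneg_of_nonpos he0 (by linarith)
  linarith

variable {α : Type*} [DecidableEq α] [Fintype α] {m : ℕ} {B : Finset (Finset α)}

theorem L2_0 (v m : ℕ) (hm : 2 ≤ m) (hv : 2 ≤ v) (r : ℚ) (hr : L v 2 m 1 = r) :
    L v 2 m 0 * m = v * r := by
  have := L_rec v 2 m 0 (by omega) hm hv
  rw [zero_add, hr] at this
  push_cast at this
  linear_combination this

theorem L2_1 (v m : ℕ) (hm : 2 ≤ m) (hv : 2 ≤ v) : L v 2 m 1 * ((m:ℚ) - 1) = v - 1 := by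
  have := L_rec v 2 m 1 (by omega) hm hv
  rw [show (1 + 1 = 2) from rfl, L_top] at this
  push_cast at this
  linear_combination this

omit [Fintype α] in
/-- number of members of `D Y'` missing two members of `D Y'` that meet in one point -/
theorem count_z2 {v : ℕ} {P : Finset α} {E : Finset (Finset α)} (hE : St P 2 m E) (hm : 3 ≤ m)
    (hv : P.card = v) {X Z : Finset α} (hX : X ∈ E) (hZ : Z ∈ E)
    (hXZ : (X ∩ Z).card = 1) (r b : ℚ) (hr : L v 2 m 1 = r) (hb : L v 2 m 0 = b) :
    ((E.filter (fun C => Disjoint C X ∧ Disjoint C Z)).card : ℚ)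
      = b - (2 * m - 1) * r + (m * m - 1) := by
  have hXc := hE.card X hX
  have hZc := hE.card Z hZ
  have hne : X ≠ Z := by rintro rfl; rw [inter_self, hXc] at hXZ; omega
  have hZX : (Z \ X).card = m - 1 := by
    have : (Z \ X).card + (Z ∩ X).card = Z.card := by
      rw [add_comm]; exact card_inter_add_card_sdiff _ _
    rw [inter_comm] at this; omega
  have hd : Disjoint X (Z \ X) := disjoint_sdiff
  have hsub : Z \ X ⊆ P := sdiff_subset.trans (hE.sub Z hZ)
  have M : ∀ i j : ℕ, i + j ≤ 2 →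
      ∑ C ∈ E, ff (C ∩ X).card i * ff (C ∩ (Z \ X)).card j
        = ff m i * ff (m - 1) j * L v 2 m (i + j) := by
    intro i j hij
    have := hE.moment (by omega) ∅ X (Z \ X) (empty_subset _) (hE.sub X hX) hsub
      (disjoint_empty_left _) (disjoint_empty_left _) hd i j (by simpa using hij)
    rw [hXc, hZX, hv] at this
    simpa using this
  have m00 := M 0 0 (by omega)
  have m10 := M 1 0 (by omega)
  have m01 := M 0 1 (by omega)
  have m11 := M 1 1 (by omega)
  simp only [ff_zero, ff1, one_mul, mul_one, add_zero, zero_add] at m00 m10 m01 m11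
  rw [hb] at m00
  rw [hr] at m10 m01
  rw [show (1 + 1 = 2) from rfl, L_top] at m11
  have hc1 : ((m - 1 : ℕ) : ℚ) = (m:ℚ) - 1 := by rw [Nat.cast_sub (by omega)]; simp
  rw [hc1] at m01 m11
  have hsum : ∑ C ∈ E, (1 - ((C ∩ X).card : ℚ)) * (1 - ((C ∩ (Z \ X)).card : ℚ))
      = b - m * r - (m - 1) * r + m * (m - 1) := by
    have e : ∀ C ∈ E, (1 - ((C ∩ X).card : ℚ)) * (1 - ((C ∩ (Z \ X)).card : ℚ))
        = 1 - ((C ∩ X).card : ℚ) - ((C ∩ (Z \ X)).card : ℚ)
          + ((C ∩ X).card : ℚ) * ((C ∩ (Z \ X)).card : ℚ) := by intro C _; ring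
    rw [sum_congr rfl e, sum_add_distrib, sum_sub_distrib, sum_sub_distrib, m00, m10, m01, m11]
    ring
  have hval : ∀ C ∈ E, (1 - ((C ∩ X).card : ℚ)) * (1 - ((C ∩ (Z \ X)).card : ℚ))
      = (if (Disjoint C X ∧ Disjoint C Z) then (1:ℚ) else 0) + (if C = X then (1 - (m:ℚ)) else 0) := by
    intro C hC
    by_cases hCX : C = X
    · subst hCX
      have e1 : ¬ (Disjoint C C ∧ Disjoint C Z) := by
        rintro ⟨h1, _⟩
        rw [disjoint_self] at h1
        rw [h1] at hXc
        simp at hXc; omega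
      rw [if_neg e1, if_pos rfl, inter_self, hXc]
      have e2 : C ∩ (Z \ C) = ∅ := disjoint_iff_inter_eq_empty.1 hd
      rw [e2]; simp
    rw [if_neg hCX, add_zero]
    have i1 := hE.inter_lt hC hX hCX
    by_cases hCZ : C = Z
    · subst hCZ
      have e1 : ¬ (Disjoint C X ∧ Disjoint C C) := by
        rintro ⟨_, h1⟩
        rw [disjoint_self] at h1
        rw [h1] at hZc
        simp at hZc; omega
      rw [if_neg e1, inter_comm, hXZ]; simp
    have i2 := hE.inter_lt hC hZ hCZ
    have i3 : (C ∩ (Z \ X)).card ≤ (C ∩ Z).card :=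
      card_le_card (inter_subset_inter_left sdiff_subset)
    by_cases h1 : Disjoint C X
    · have e1 : (C ∩ X).card = 0 := by rw [card_eq_zero]; exact disjoint_iff_inter_eq_empty.1 h1
      have e3 : C ∩ (Z \ X) = C ∩ Z := by
        ext x
        simp only [mem_inter, mem_sdiff]
        exact ⟨fun h => ⟨h.1, h.2.1⟩, fun h => ⟨h.1, h.2, (disjoint_left.1 h1) h.1⟩⟩
      rw [e1, e3]
      by_cases h2 : Disjoint C Z
      · have e2 : (C ∩ Z).card = 0 := by rw [card_eq_zero]; exact disjoint_iff_inter_eq_empty.1 h2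
        rw [e2, if_pos ⟨h1, h2⟩]; simp
      · have e2 : (C ∩ Z).card = 1 := by
          have : (C ∩ Z).card ≠ 0 := by
            rw [Ne, card_eq_zero, ← disjoint_iff_inter_eq_empty]; exact h2
          omega
        rw [e2, if_neg (fun h => h2 h.2)]; simp
    · have e1 : (C ∩ X).card = 1 := by
        have : (C ∩ X).card ≠ 0 := by
          rw [Ne, card_eq_zero, ← disjoint_iff_inter_eq_empty]; exact h1
        omega
      rw [e1, if_neg (fun h => h1 h.1)]; simp
  rw [sum_congr rfl hval, sum_add_distrib, sum_ite_eq' E X, if_pos hX, ← sum_filter, sum_const,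
    nsmul_eq_mul, mul_one] at hsum
  linear_combination hsum

end Pool.Agent.H179.SDP
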