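import Pool.Agent.H179.SDP.S2

set_option autoImplicit false
open Finset

namespace Pool.Agent.H179.SDP

variable {α : Type*} [DecidableEq α] [Fintype α] {m : ℕ} {B : Finset (Finset α)}

theorem Sys.s2_r (h : Sys m 2 B) (hm : 3 ≤ m) (hn : 2 * m < Fintype.card α) (r : ℕ)
    (hr : Fintype.card α - (m + 2) + 1 = (m - 1) * r) (hr2 : m + 2 ≤ r) : False := by
  obtain ⟨X, hX1, hX⟩ := exists_subset_card_eq (show m ≤ (univ : Finset α).card by
    rw [card_univ]; omega)
  have hPX := card_P (m := m) hX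
  have hstX := h.stD hX
  set v := Fintype.card α - m with hvdef
  have hv1 : v = (m - 1) * r + 1 := by omega
  have hm2 : 2 ≤ m - 1 := by omega
  have hvbig : m + 2 ≤ v := by rw [hv1]; nlinarith
  obtain ⟨Y, hY, _⟩ := hstX.exists_block (S := ∅) (empty_subset _) (by simp) (by omega)
  have hYc := (mem_D.1 hY).1
  have hXY := (mem_D.1 hY).2.1
  have hPY := card_P (m := m) hYc
  obtain ⟨x, hx⟩ : X.Nonempty := by rw [← card_pos]; omega
  obtain ⟨q, hq⟩ : ((univ : Finset α) \ (X ∪ Y)).Nonempty := by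
    rw [← card_pos, card_sdiff_of_subset (subset_univ _), card_union_of_disjoint hXY, card_univ]
    omega
  simp only [mem_sdiff, mem_univ, true_and, mem_union, not_or] at hq
  have hxY : x ∉ Y := (disjoint_left.1 hXY) hx
  have hxq : x ≠ q := by rintro rfl; exact hq.1 hx
  obtain ⟨Z, hZ, hZsub⟩ := (h.stD hYc).ex {x, q} (by
    intro z hz
    simp only [mem_sdiff, mem_univ, true_and]
    simp only [mem_insert, mem_singleton] at hz
    rcases hz with rfl | rfl
    · exact hxY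
    · exact hq.2) (card_pair hxq)
  have hxZ : x ∈ Z := hZsub (by simp)
  have hqZ : q ∈ Z := hZsub (by simp)
  have hZc := (mem_D.1 hZ).1
  have hYZ := (mem_D.1 hZ).2.1
  have hXDY : X ∈ D m B Y := D_symm hX hY
  have hYDZ : Y ∈ D m B Z := D_symm hYc hZ
  have hXneZ : X ≠ Z := by rintro rfl; exact hq.1 hqZ
  have hXZ1 : (X ∩ Z).card = 1 := by
    have h1 := (h.stD hYc).inter_lt hXDY hZ hXneZ
    have h2 : 0 < (X ∩ Z).card := card_pos.2 ⟨x, mem_inter.2 ⟨hx, hxZ⟩⟩
    omega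
  have hXZnd : ¬ Disjoint X Z := not_disjoint_iff.2 ⟨x, hx, hxZ⟩
  -- parameters
  set rq : ℚ := L v 2 m 1 with hrq
  set bq : ℚ := L v 2 m 0 with hbq
  have hL1 := L2_1 v m (by omega) (by omega)
  have hmpos : (0:ℚ) < (m:ℚ) - 1 := by
    have : (3:ℚ) ≤ m := by exact_mod_cast hm
    linarith
  have hvq : (v:ℚ) = ((m:ℚ) - 1) * r + 1 := by
    rw [hv1]; push_cast [Nat.cast_sub (show 1 ≤ m by omega)]; ring
  have hrr : rq = (r:ℚ) := by
    have : rq * ((m:ℚ) - 1) = (r:ℚ) * ((m:ℚ) - 1) := by rw [hL1, hvq]; ring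
    exact mul_right_cancel₀ hmpos.ne' this
  have hbm : bq * m = v * r := by
    rw [← hrr]; exact L2_0 v m (by omega) (by omega) rq rfl
  -- the common neighbours
  set F := (D m B X).filter (· ∈ D m B Z) with hF
  have hYF : Y ∈ F := mem_filter.2 ⟨hY, hYDZ⟩
  have hFX : F ⊆ D m B X := filter_subset _ _
  have hFZ : ∀ C ∈ F, C ∈ D m B Z := fun C hC => (mem_filter.1 hC).2
  have hFdZ : ∀ C ∈ F, Disjoint Z C := fun C hC => (mem_D.1 (hFZ C hC)).2.1
  set y : ℚ := (F.card : ℚ) with hy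
  -- z2
  have hz : ∀ C ∈ F, ((F.filter (fun Y'' => Disjoint C Y'')).card : ℚ)
      = bq - (2 * m - 1) * r + (m * m - 1) := by
    intro C hC
    have hCX := hFX hC
    have hCZ := hFZ C hC
    have hCc := (mem_D.1 hCX).1
    have e : F.filter (fun Y'' => Disjoint C Y'')
        = (D m B C).filter (fun E => Disjoint E X ∧ Disjoint E Z) := by
      ext E
      simp only [mem_filter]
      constructor
      · rintro ⟨hE, hd⟩
        have hEF := mem_filter.1 hE
        exact ⟨h.trans (D_symm hX hCX) hEF.1 hd, (mem_D.1 hEF.1).2.1.symm, (mem_D.1 hEF.2).2.1.symm⟩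
      · rintro ⟨hE, hd1, hd2⟩
        obtain ⟨c1, c2⟩ := h.closed hCX hCZ hE hd1.symm hd2.symm
        exact ⟨mem_filter.2 ⟨c1, c2⟩, (mem_D.1 hE).2.1⟩
    rw [e, ← hrr]
    exact count_z2 (h.stD hCc) hm (card_P hCc) (D_symm hX hCX) (D_symm hZc hCZ) hXZ1 rq bq rfl rfl
  obtain ⟨zc, hzc⟩ : ∃ zc : ℕ, (zc : ℚ) = bq - (2 * m - 1) * r + (m * m - 1) :=
    ⟨_, hz Y hYF⟩
  set e : ℚ := (zc : ℚ) - (m - 1) with he
  -- column sums
  have hG : ∀ C : Finset α, ∑ q ∈ C, dg F q = ∑ Y'' ∈ F, ((C ∩ Y'').card : ℚ) := sum_dg F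
  have hFsub : ∀ C ∈ D m B X, C ⊆ univ \ X := hstX.sub
  have hGF : ∀ C ∈ F, ∑ q ∈ C, dg F q = y - e := by
    intro C hC
    rw [hG]
    have hCc := (mem_D.1 (hFX hC)).1
    have e1 : ∀ Y'' ∈ F, ((C ∩ Y'').card : ℚ)
        = 1 - (if Disjoint C Y'' then (1:ℚ) else 0) + (if C = Y'' then ((m:ℚ) - 1) else 0) := by
      intro Y'' hY''
      by_cases hCY : C = Y''
      · subst hCY
        have : ¬ Disjoint C C := by
          rw [disjoint_self]; rintro h0; rw [h0] at hCc; simp at hCc; omega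
        rw [if_neg this, if_pos rfl, inter_self, hCc]; ring
      · rw [if_neg hCY]
        have i1 := hstX.inter_lt (hFX hC) (hFX hY'') hCY
        by_cases hd : Disjoint C Y''
        · rw [if_pos hd, disjoint_iff_inter_eq_empty.1 hd]; simp
        · have : (C ∩ Y'').card ≠ 0 := by
            rw [Ne, card_eq_zero, ← disjoint_iff_inter_eq_empty]; exact hd
          have : (C ∩ Y'').card = 1 := by omega
          rw [if_neg hd, this]; simp
    rw [sum_congr rfl e1, sum_add_distrib, sum_sub_distrib, sum_ite_eq F C, if_pos hC,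
      ← sum_filter, sum_const, sum_const, nsmul_eq_mul, nsmul_eq_mul, mul_one, mul_one, hz C hC,
      ← hzc, he]
    ring
  have hGO : ∀ C ∈ D m B X, C ∉ F → (C ∩ Z).card ≠ 1 → ∑ q ∈ C, dg F q = y := by
    intro C hC hCF hCZ
    rw [hG]
    have e1 : ∀ Y'' ∈ F, ((C ∩ Y'').card : ℚ) = 1 := by
      intro Y'' hY''
      have hne : C ≠ Y'' := by rintro rfl; exact hCF hY''
      have i1 := hstX.inter_lt hC (hFX hY'') hne
      have hnd : ¬ Disjoint C Y'' := by
        rcases Nat.lt_or_ge (C ∩ Z).card 2 with h2 | h2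
        · have h0 : (C ∩ Z).card = 0 := by omega
          have hd : Disjoint C Z := by
            rw [disjoint_iff_inter_eq_empty]; exact card_eq_zero.1 h0
          exact h.meets' hX (hFX hY'') (hFZ _ hY'') hC hd (fun hn => hCF (mem_filter.2 ⟨hC, hn⟩))
        · exact h.meets hX (hFX hY'') (hFZ _ hY'') hZc hXZnd hC h2
      have : (C ∩ Y'').card ≠ 0 := by
        rw [Ne, card_eq_zero, ← disjoint_iff_inter_eq_empty]; exact hnd
      have : (C ∩ Y'').card = 1 := by omega
      rw [this]; simp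
    rw [sum_congr rfl e1, sum_const, nsmul_eq_mul, mul_one]
  -- global sums
  have hcapP : ∀ C ∈ D m B X, C ∩ (univ \ X) = C := fun C hC => inter_eq_left.2 (hFsub C hC)
  have hsumd : ∑ q ∈ univ \ X, dg F q = m * y := by
    rw [hG]
    have : ∀ Y'' ∈ F, (((univ \ X) ∩ Y'').card : ℚ) = m := by
      intro Y'' hY''
      rw [inter_comm, hcapP _ (hFX hY''), (mem_D.1 (hFX hY'')).1]
    rw [sum_congr rfl this, sum_const, nsmul_eq_mul]; ring
  have hsumd2 : ∑ q ∈ univ \ X, dg F q ^ 2 = y * (y - e) := by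
    rw [sum_dg_sq F (univ \ X) (fun C hC => hFsub C (hFX hC)), sum_congr rfl hGF, sum_const,
      nsmul_eq_mul]
  have hlin : ∑ C ∈ D m B X, ∑ q ∈ C, dg F q = r * (m * y) := by
    have := hstX.lin (by omega) ∅ (univ \ X) (empty_subset _) (Subset.refl _)
      (disjoint_empty_left _) (by simp) (dg F)
    simp only [empty_subset, filter_true, card_empty, zero_add] at this
    rw [hPX, hsumd, ← hrq, hrr] at this
    rw [← this]
    exact sum_congr rfl (fun C hC => by rw [hcapP C hC])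
  have hsq : ∑ C ∈ D m B X, (∑ q ∈ C, dg F q) ^ 2 = (r - 1) * (y * (y - e)) + (m * y) ^ 2 := by
    have := hstX.sq (by omega) ∅ (univ \ X) (empty_subset _) (Subset.refl _)
      (disjoint_empty_left _) (by simp) (dg F)
    simp only [empty_subset, filter_true, card_empty, zero_add] at this
    rw [hPX, hsumd, hsumd2, L_top, ← hrq, hrr] at this
    rw [show (r - 1) * (y * (y - e)) + (m * y) ^ 2
      = (r - 1) * (y * (y - e)) + 1 * (m * y) ^ 2 by ring, ← this]
    exact sum_congr rfl (fun C hC => by rw [hcapP C hC])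
  have hcardD : ((D m B X).card : ℚ) = bq := by
    have := hstX.deg (by omega) ∅ (empty_subset _) (by simp)
    simp only [empty_subset, filter_true, card_empty] at this
    rw [this, hPX]
  -- classes
  set I := (D m B X).filter (fun C => (C ∩ Z).card = 1) with hI
  set O := ((D m B X).filter (fun C => ¬ (C ∩ Z).card = 1)).filter (fun C => C ∉ F) with hO
  have hFeq : ((D m B X).filter (fun C => ¬ (C ∩ Z).card = 1)).filter (fun C => C ∈ F) = F := by
    ext C
    simp only [mem_filter]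
    constructor
    · rintro ⟨_, hC⟩; exact hC
    · intro hC
      refine ⟨⟨hFX hC, ?_⟩, hC⟩
      rw [inter_comm, disjoint_iff_inter_eq_empty.1 (hFdZ C hC)]; simp
  have split : ∀ f : Finset α → ℚ, ∑ C ∈ D m B X, f C = ∑ C ∈ I, f C + (∑ C ∈ F, f C + ∑ C ∈ O, f C) := by
    intro f
    rw [← sum_filter_add_sum_filter_not (D m B X) (fun C => (C ∩ Z).card = 1) f]
    congr 1
    rw [← sum_filter_add_sum_filter_not ((D m B X).filter (fun C => ¬ (C ∩ Z).card = 1))
      (fun C => C ∈ F) f, hFeq]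
  set c1 : ℚ := (I.card : ℚ) with hc1
  have hOc : (O.card : ℚ) = bq - y - c1 := by
    have := split (fun _ => 1)
    simp only [sum_const, nsmul_eq_mul, mul_one] at this
    rw [hcardD] at this
    linarith
  have hOmem : ∀ C ∈ O, ∑ q ∈ C, dg F q = y := by
    intro C hC
    rw [hO, mem_filter, mem_filter] at hC
    exact hGO C hC.1.1 hC.2 hC.1.2
  have sF1 : ∑ C ∈ F, ∑ q ∈ C, dg F q = y * (y - e) := by
    rw [sum_congr rfl hGF, sum_const, nsmul_eq_mul]
  have sF2 : ∑ C ∈ F, (∑ q ∈ C, dg F q) ^ 2 = y * (y - e) ^ 2 := by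
    rw [sum_congr rfl (fun C hC => by rw [hGF C hC]), sum_const, nsmul_eq_mul]
  have sO1 : ∑ C ∈ O, ∑ q ∈ C, dg F q = (bq - y - c1) * y := by
    rw [sum_congr rfl hOmem, sum_const, nsmul_eq_mul, hOc]
  have sO2 : ∑ C ∈ O, (∑ q ∈ C, dg F q) ^ 2 = (bq - y - c1) * y ^ 2 := by
    rw [sum_congr rfl (fun C hC => by rw [hOmem C hC]), sum_const, nsmul_eq_mul, hOc]
  have sI1 : ∑ C ∈ I, ∑ q ∈ C, dg F q = r * m * y - y * (y - e) - (bq - y - c1) * y := by
    have := split (fun C => ∑ q ∈ C, dg F q)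
    rw [hlin, sF1, sO1] at this
    linarith
  have sI2 : ∑ C ∈ I, (∑ q ∈ C, dg F q) ^ 2
      = (r - 1) * (y * (y - e)) + (m * y) ^ 2 - y * (y - e) ^ 2 - (bq - y - c1) * y ^ 2 := by
    have := split (fun C => (∑ q ∈ C, dg F q) ^ 2)
    rw [hsq, sF2, sO2] at this
    linarith
  have CS1 : (r * m * y - y * (y - e) - (bq - y - c1) * y) ^ 2
      ≤ c1 * ((r - 1) * (y * (y - e)) + (m * y) ^ 2 - y * (y - e) ^ 2 - (bq - y - c1) * y ^ 2) := by
    rw [← sI1, ← sI2]; exact sq_sum_le_card_mul_sum_sq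
  have CS2 : (r * m * y - y * (y - e)) ^ 2
      ≤ (bq - y) * ((r - 1) * (y * (y - e)) + (m * y) ^ 2 - y * (y - e) ^ 2) := by
    have hs1 : ∑ C ∈ D m B X \ F, ∑ q ∈ C, dg F q = r * m * y - y * (y - e) := by
      have := sum_sdiff (f := fun C => ∑ q ∈ C, dg F q) hFX
      rw [hlin, sF1] at this
      linarith
    have hs2 : ∑ C ∈ D m B X \ F, (∑ q ∈ C, dg F q) ^ 2
        = (r - 1) * (y * (y - e)) + (m * y) ^ 2 - y * (y - e) ^ 2 := by
      have := sum_sdiff (f := fun C => (∑ q ∈ C, dg F q) ^ 2) hFX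
      rw [hsq, sF2] at this
      linarith
    have hs3 : ((D m B X \ F).card : ℚ) = bq - y := by
      rw [card_sdiff_of_subset hFX, Nat.cast_sub (card_le_card hFX), hcardD]
    rw [← hs1, ← hs2, ← hs3]; exact sq_sum_le_card_mul_sum_sq
  -- upper bound for `c1`
  have hZX : (Z \ X).card = m - 1 := by
    have : (Z \ X).card + (Z ∩ X).card = Z.card := by
      rw [add_comm]; exact card_inter_add_card_sdiff _ _
    rw [inter_comm] at this; omega
  have hZXP : Z \ X ⊆ univ \ X := sdiff_subset_sdiff (subset_univ _) (Subset.refl _)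
  have hcap : ∀ C ∈ D m B X, C ∩ (Z \ X) = C ∩ Z := by
    intro C hC
    ext z
    simp only [mem_inter, mem_sdiff]
    exact ⟨fun hh => ⟨hh.1, hh.2.1⟩, fun hh => ⟨hh.1, hh.2, fun hzX =>
      (disjoint_left.1 (mem_D.1 hC).2.1) hzX hh.1⟩⟩
  have hsumZ : ∑ C ∈ D m B X, ((C ∩ Z).card : ℚ) = ((m:ℚ) - 1) * r := by
    have := hstX.moment1 (by omega) ∅ (Z \ X) (empty_subset _) hZXP (disjoint_empty_left _) 1
      (by simp)
    simp only [empty_subset, filter_true, card_empty, zero_add, ff1] at this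
    rw [hZX, hPX, ← hrq, hrr, Nat.cast_sub (by omega)] at this
    rw [show ((m:ℚ) - 1) * r = ((m:ℚ) - ((1:ℕ):ℚ)) * r by simp, ← this]
    exact sum_congr rfl (fun C hC => by rw [hcap C hC])
  obtain ⟨z1, hz1, z2, hz2, hz12⟩ := one_lt_card.1 (show 1 < (Z \ X).card by omega)
  obtain ⟨C1, hC1, hC1s⟩ := hstX.ex {z1, z2} (by
    intro w hw
    simp only [mem_insert, mem_singleton] at hw
    rcases hw with rfl | rfl
    · exact hZXP hz1
    · exact hZXP hz2) (card_pair hz12)
  have hC12 : 2 ≤ (C1 ∩ Z).card := by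
    rw [← card_pair hz12]
    apply card_le_card
    intro w hw
    rw [mem_inter]
    refine ⟨hC1s hw, ?_⟩
    simp only [mem_insert, mem_singleton] at hw
    rcases hw with rfl | rfl
    · exact (mem_sdiff.1 hz1).1
    · exact (mem_sdiff.1 hz2).1
  have hc1lt : c1 < ((m:ℚ) - 1) * r := by
    rw [← hsumZ, ← sum_filter_add_sum_filter_not (D m B X) (fun C => (C ∩ Z).card = 1)]
    have a1 : ∑ C ∈ (D m B X).filter (fun C => (C ∩ Z).card = 1), ((C ∩ Z).card : ℚ) = c1 := by
      rw [hc1, card_eq_sum_ones]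
      push_cast
      apply sum_congr rfl
      intro C hC
      rw [mem_filter] at hC
      rw [hC.2]; simp
    have a2 : ((C1 ∩ Z).card : ℚ)
        ≤ ∑ C ∈ (D m B X).filter (fun C => ¬ (C ∩ Z).card = 1), ((C ∩ Z).card : ℚ) :=
      single_le_sum (f := fun C => ((C ∩ Z).card : ℚ)) (fun C _ => by positivity)
        (mem_filter.2 ⟨hC1, by omega⟩)
    have a3 : (2:ℚ) ≤ ((C1 ∩ Z).card : ℚ) := by exact_mod_cast hC12
    rw [a1]; linarith
  -- integrality
  obtain ⟨ρ, hρ⟩ := Nat.exists_eq_add_of_le hr2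
  have hrq2 : (r:ℚ) = m + (2 + ρ) := by rw [hρ]; push_cast; ring
  have hem : e * m = ((m:ℚ) - 1) * (((2:ℚ) + ρ) ^ 2 - (2 + ρ) - m) := by
    rw [he, hzc]
    have : bq * m = v * r := hbm
    rw [hvq, hrq2] at this
    rw [hrq2]
    linear_combination this
  have he0 : 0 ≤ e := by
    have h1 : (zc : ℚ) * m = ((m:ℚ) - 1) * (((2:ℚ) + ρ) * (1 + ρ)) := by
      have : (zc : ℚ) = e + (m - 1) := by rw [he]; ring
      rw [this]; linear_combination hem
    have h2 : zc * m = (m - 1) * ((2 + ρ) * (1 + ρ)) := by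
      have : ((zc * m : ℕ) : ℚ) = (((m - 1) * ((2 + ρ) * (1 + ρ)) : ℕ) : ℚ) := by
        push_cast [Nat.cast_sub (show 1 ≤ m by omega)]; exact h1
      exact_mod_cast this
    have h3 : m ∣ (m - 1) * ((2 + ρ) * (1 + ρ)) := ⟨zc, by rw [← h2]; ring⟩
    have hcop : Nat.Coprime m (m - 1) := by
      have : Nat.Coprime (m - 1 + 1) (m - 1) := by simp
      rwa [Nat.sub_add_cancel (by omega)] at this
    have h4 : m ∣ (2 + ρ) * (1 + ρ) := hcop.dvd_of_dvd_mul_left h3
    have h5 : m ≤ (2 + ρ) * (1 + ρ) := Nat.le_of_dvd (by positivity) h4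
    have h6 : (m - 1) * m ≤ zc * m := by rw [h2]; exact Nat.mul_le_mul_left _ h5
    have h7 : m - 1 ≤ zc := Nat.le_of_mul_le_mul_right h6 (by omega)
    have h8 : ((m - 1 : ℕ) : ℚ) ≤ zc := by exact_mod_cast h7
    rw [Nat.cast_sub (by omega)] at h8
    rw [he]; push_cast at h8; linarith
  have hy1 : (1:ℚ) ≤ y := by
    rw [hy]; exact_mod_cast card_pos.2 ⟨Y, hYF⟩
  have hyb : y ≤ bq := by
    rw [← hcardD, hy]; exact_mod_cast card_le_card hFX
  exact s2_algebra m (2 + ρ) r bq y e c1 v (by exact_mod_cast hm) (by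
    have : (0:ℚ) ≤ ρ := by positivity
    linarith) hrq2 hvq hbm hy1 hyb hem he0 (by positivity) hc1lt CS1 CS2

theorem Sys.s2 (h : Sys m 2 B) (hm : 3 ≤ m) (hn : 2 * m < Fintype.card α) :
    m = 3 ∧ Fintype.card α = 12 := by
  obtain ⟨r, hr⟩ := h.exists_r (by omega) (by omega) hn
  have e1 : m - 2 + 1 = m - 1 := by omega
  rw [e1] at hr
  have ht := h.tits (by omega) hn
  rw [e1] at ht
  have hr1 : r ≤ m + 1 := by
    by_contra hcon
    exact h.s2_r hm hn r hr (by omega)
  obtain ⟨k, rfl⟩ := Nat.exists_eq_add_of_le' hm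
  have e2 : k + 3 - 1 = k + 2 := by omega
  rw [e2] at hr ht
  have hle : (k + 2) * r ≤ (k + 2) * (k + 4) := Nat.mul_le_mul_left _ (by omega)
  have hn' : Fintype.card α = (k + 2) * r + (k + 4) := by omega
  have hk : k = 0 := by
    by_contra hk0
    have : 1 ≤ k := by omega
    nlinarith
  subst hk
  constructor
  · rfl
  · omega

end Pool.Agent.H179.SDP
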