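import Pool.Agent.H179.SDP.Large

set_option autoImplicit false
open Finset

namespace Pool.Agent.H179.SDP

variable {α : Type*} [DecidableEq α]

/-- indicator of membership -/
def chi (C : Finset α) (x : α) : ℚ := if x ∈ C then 1 else 0

/-- the alternating function of three pairs of points -/
def phi (a c : Fin 3 → α) (C : Finset α) : ℚ :=
  (chi C (a 0) - chi C (c 0)) * (chi C (a 1) - chi C (c 1)) * (chi C (a 2) - chi C (c 2))

theorem sub_indicator (C R R' : Finset α) (hR : R' ⊆ R) :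
    (if C ∩ R = R' then (1:ℚ) else 0)
      = ∑ U ∈ (R \ R').powerset, (-1) ^ U.card * (if R' ∪ U ⊆ C then (1:ℚ) else 0) := by
  have h1 : ∀ U ∈ (R \ R').powerset, (-1:ℚ) ^ U.card * (if R' ∪ U ⊆ C then (1:ℚ) else 0)
      = (if R' ⊆ C then 1 else 0) * ((∏ i ∈ U, (- chi C i)) * ∏ i ∈ (R \ R') \ U, (1:ℚ)) := by
    intro U _
    rw [prod_const_one, mul_one]
    have : ∏ i ∈ U, (- chi C i) = (-1) ^ U.card * (if U ⊆ C then 1 else 0) := by
      rw [prod_neg]
      congr 1
      by_cases hU : U ⊆ C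
      · rw [if_pos hU]
        apply prod_eq_one
        intro i hi; rw [chi, if_pos (hU hi)]
      · rw [if_neg hU]
        obtain ⟨i, hi, hi'⟩ := not_subset.1 hU
        exact prod_eq_zero hi (by rw [chi, if_neg hi'])
    rw [this]
    by_cases hU : U ⊆ C <;> by_cases hR' : R' ⊆ C <;> simp [hU, hR', union_subset_iff]
  rw [sum_congr rfl h1, ← mul_sum, ← prod_add]
  by_cases hR' : R' ⊆ C
  · rw [if_pos hR', one_mul]
    by_cases he : C ∩ R = R'
    · rw [if_pos he]
      symm
      apply prod_eq_one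
      intro i hi
      rw [mem_sdiff] at hi
      rw [chi, if_neg]; · ring
      intro hiC
      exact hi.2 (he ▸ mem_inter.2 ⟨hiC, hi.1⟩)
    · rw [if_neg he]
      symm
      have : ¬ (C ∩ R ⊆ R') := fun hsub => he (Subset.antisymm hsub (subset_inter hR' hR))
      obtain ⟨i, hi, hi'⟩ := not_subset.1 this
      rw [mem_inter] at hi
      exact prod_eq_zero (mem_sdiff.2 ⟨hi.2, hi'⟩) (by rw [chi, if_pos hi.1]; ring)
  · rw [if_neg hR', zero_mul, if_neg]
    rintro rfl
    exact hR' inter_subset_left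

variable [Fintype α] {m s : ℕ} {B : Finset (Finset α)}

omit [Fintype α] in
theorem chi3 (C : Finset α) (x y z : α) :
    chi C x * chi C y * chi C z = if ({x, y, z} : Finset α) ⊆ C then 1 else 0 := by
  unfold chi
  by_cases hx : x ∈ C <;> by_cases hy : y ∈ C <;> by_cases hz : z ∈ C <;>
    simp [hx, hy, hz, insert_subset_iff]

theorem Sys.h_zero (h : Sys m s B) (hsm : s ≤ m) (U : Finset α) (a c : Fin 3 → α)
    (hU : ∀ i, a i ∉ U ∧ c i ∉ U) (ha : Function.Injective a) (hc : Function.Injective c)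
    (hac : ∀ i j, a i ≠ c j) (hcard : U.card + 3 ≤ m + s) :
    ∑ C ∈ B.filter (U ⊆ ·), phi a c C = 0 := by
  have key : ∀ x y z : α, x ≠ y → x ≠ z → y ≠ z → x ∉ U → y ∉ U → z ∉ U →
      ∑ C ∈ B.filter (U ⊆ ·), chi C x * chi C y * chi C z
        = L (univ : Finset α).card (m + s) (2 * m) (U.card + 3) := by
    intro x y z hxy hxz hyz hx hy hz
    simp_rw [chi3]
    rw [← sum_filter, filter_filter, sum_const, nsmul_eq_mul, mul_one]
    have hd : Disjoint U {x, y, z} := by
      rw [disjoint_left]; intro w hw hw'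
      simp only [mem_insert, mem_singleton] at hw'
      rcases hw' with rfl | rfl | rfl
      · exact hx hw
      · exact hy hw
      · exact hz hw
    have hc3 : ({x, y, z} : Finset α).card = 3 := by
      rw [card_eq_three]; exact ⟨x, y, z, hxy, hxz, hyz, rfl⟩
    have hcU : (U ∪ {x, y, z}).card = U.card + 3 := by
      rw [card_union_of_disjoint hd, hc3]
    rw [← hcU, ← h.st.deg (by omega) _ (subset_univ _) (by omega)]
    congr 2
    ext C
    simp only [mem_filter, union_subset_iff]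
  have n01 : a 0 ≠ a 1 := ha.ne (by decide)
  have n02 : a 0 ≠ a 2 := ha.ne (by decide)
  have n12 : a 1 ≠ a 2 := ha.ne (by decide)
  have m01 : c 0 ≠ c 1 := hc.ne (by decide)
  have m02 : c 0 ≠ c 2 := hc.ne (by decide)
  have m12 : c 1 ≠ c 2 := hc.ne (by decide)
  have e : ∀ C ∈ B.filter (U ⊆ ·), phi a c C
      = chi C (a 0) * chi C (a 1) * chi C (a 2) - chi C (a 0) * chi C (a 1) * chi C (c 2)
      - chi C (a 0) * chi C (c 1) * chi C (a 2) + chi C (a 0) * chi C (c 1) * chi C (c 2)
      - chi C (c 0) * chi C (a 1) * chi C (a 2) + chi C (c 0) * chi C (a 1) * chi C (c 2)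
      + chi C (c 0) * chi C (c 1) * chi C (a 2) - chi C (c 0) * chi C (c 1) * chi C (c 2) := by
    intro C _; unfold phi; ring
  rw [sum_congr rfl e]
  simp only [sum_add_distrib, sum_sub_distrib]
  rw [key _ _ _ n01 n02 n12 (hU 0).1 (hU 1).1 (hU 2).1,
    key _ _ _ n01 (hac 0 2) (hac 1 2) (hU 0).1 (hU 1).1 (hU 2).2,
    key _ _ _ (hac 0 1) n02 (hac 2 1).symm (hU 0).1 (hU 1).2 (hU 2).1,
    key _ _ _ (hac 0 1) (hac 0 2) m12 (hU 0).1 (hU 1).2 (hU 2).2,
    key _ _ _ (hac 1 0).symm (hac 2 0).symm n12 (hU 0).2 (hU 1).1 (hU 2).1,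
    key _ _ _ (hac 1 0).symm m02 (hac 1 2) (hU 0).2 (hU 1).1 (hU 2).2,
    key _ _ _ m01 (hac 2 0).symm (hac 2 1).symm (hU 0).2 (hU 1).2 (hU 2).1,
    key _ _ _ m01 m02 m12 (hU 0).2 (hU 1).2 (hU 2).2]
  ring

/-- the sums over blocks with prescribed trace on `R` are determined up to sign -/
theorem Sys.e_sign (h : Sys m s B) (hsm : s ≤ m) (S R R' : Finset α) (a c : Fin 3 → α)
    (hU : ∀ i, a i ∉ S ∪ R ∧ c i ∉ S ∪ R) (ha : Function.Injective a) (hc : Function.Injective c)
    (hac : ∀ i j, a i ≠ c j) (hR' : R' ⊆ R) (hcard : S.card + R.card + 2 ≤ m + s) :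
    ∑ C ∈ B.filter (fun C => S ⊆ C ∧ C ∩ R = R'), phi a c C
      = (-1) ^ (R.card - R'.card) * ∑ C ∈ B.filter (fun C => S ⊆ C ∧ R ⊆ C), phi a c C := by
  have h1 : ∑ C ∈ B.filter (fun C => S ⊆ C ∧ C ∩ R = R'), phi a c C
      = ∑ U ∈ (R \ R').powerset, (-1) ^ U.card *
        ∑ C ∈ B.filter (fun C => S ∪ (R' ∪ U) ⊆ C), phi a c C := by
    rw [← filter_filter, sum_filter]
    have e1 : ∀ C ∈ B.filter (S ⊆ ·), (if C ∩ R = R' then phi a c C else 0)
        = ∑ U ∈ (R \ R').powerset, (-1) ^ U.card * (if R' ∪ U ⊆ C then phi a c C else 0) := by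
      intro C _
      have := sub_indicator C R R' hR'
      have e2 : (if C ∩ R = R' then phi a c C else 0)
          = (if C ∩ R = R' then (1:ℚ) else 0) * phi a c C := by split_ifs <;> simp
      rw [e2, this, sum_mul]
      apply sum_congr rfl
      intro U _
      split_ifs <;> simp
    rw [sum_congr rfl e1, sum_comm]
    apply sum_congr rfl
    intro U _
    rw [← mul_sum, ← sum_filter, filter_filter]
    congr 2
    ext C
    simp only [mem_filter, union_subset_iff]
  rw [h1]
  rw [sum_eq_single (R \ R')]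
  · rw [card_sdiff_of_subset hR', union_sdiff_of_subset hR']
    congr 2
    ext C
    simp only [mem_filter, union_subset_iff]
  · intro U hUU hne
    rw [mem_powerset] at hUU
    rw [mul_eq_zero]; right
    have hsub : S ∪ (R' ∪ U) ⊆ S ∪ R :=
      union_subset_union_right (union_subset hR' (hUU.trans sdiff_subset))
    apply h.h_zero hsm _ a c (fun i => ⟨fun hx => (hU i).1 (hsub hx), fun hx => (hU i).2 (hsub hx)⟩)
      ha hc hac
    have hlt : (R' ∪ U).card < R.card := by
      apply card_lt_card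
      rw [ssubset_iff_subset_ne]
      refine ⟨union_subset hR' (hUU.trans sdiff_subset), ?_⟩
      intro he
      apply hne
      apply Subset.antisymm hUU
      intro x hx
      rw [mem_sdiff] at hx
      have := he ▸ hx.1
      rcases mem_union.1 (he.symm ▸ hx.1 : x ∈ R' ∪ U) with hx' | hx'
      · exact absurd hx' hx.2
      · exact hx'
    have := card_union_le S (R' ∪ U)
    omega
  · intro hnm
    exact absurd (mem_powerset.2 (Subset.refl _)) hnm


omit [Fintype α] in
theorem phi_ne (a c : Fin 3 → α) (C : Finset α) (h : phi a c C ≠ 0) (i : Fin 3) :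
    (a i ∈ C ∧ c i ∉ C) ∨ (a i ∉ C ∧ c i ∈ C) := by
  unfold phi chi at h
  by_contra hn
  apply h
  have : (if a i ∈ C then (1:ℚ) else 0) - (if c i ∈ C then (1:ℚ) else 0) = 0 := by
    by_cases h1 : a i ∈ C <;> by_cases h2 : c i ∈ C <;> simp_all
  fin_cases i
  · simp only [Fin.zero_eta, Fin.isValue] at this; rw [this]; ring
  · simp only [Fin.mk_one, Fin.isValue] at this; rw [this]; ring
  · simp only [Fin.reduceFinMk, Fin.isValue] at this; rw [this]; ring

/-- passing to the symmetric difference with `b` changes the sign -/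
theorem Sys.invol (h : Sys m s B) (b S R R' : Finset α) (a c : Fin 3 → α) (hb : b ∈ B)
    (hSb : Disjoint S b) (hR : R ∪ ({a 0, a 1, a 2} ∪ {c 0, c 1, c 2}) = b)
    (hU : ∀ i, a i ∉ R ∧ c i ∉ R) (ha : Function.Injective a) (hc : Function.Injective c)
    (hac : ∀ i j, a i ≠ c j) (hR' : R' ⊆ R) (hcard : R'.card + 3 = m) :
    ∑ C ∈ B.filter (fun C => S ⊆ C ∧ C ∩ R = R'), phi a c C
      = - ∑ C ∈ B.filter (fun C => S ⊆ C ∧ C ∩ R = R \ R'), phi a c C := by
  rw [← sum_filter_ne_zero, ← sum_filter_ne_zero (s := B.filter (fun C => S ⊆ C ∧ C ∩ R = R \ R')),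
    ← sum_neg_distrib]
  have hRb : R ⊆ b := by rw [← hR]; exact subset_union_left
  have hab : ∀ i, a i ∈ b ∧ c i ∈ b := by
    intro i; rw [← hR]; fin_cases i <;> simp
  have hcr : R.card + 6 = 2 * m := by
    rw [← h.st.card b hb, ← hR]
    have n01 : a 0 ≠ a 1 := ha.ne (by decide)
    have n02 : a 0 ≠ a 2 := ha.ne (by decide)
    have n12 : a 1 ≠ a 2 := ha.ne (by decide)
    have m01 : c 0 ≠ c 1 := hc.ne (by decide)
    have m02 : c 0 ≠ c 2 := hc.ne (by decide)
    have m12 : c 1 ≠ c 2 := hc.ne (by decide)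
    rw [card_union_of_disjoint, card_union_of_disjoint]
    · rw [card_eq_three.2 ⟨_, _, _, n01, n02, n12, rfl⟩, card_eq_three.2 ⟨_, _, _, m01, m02, m12, rfl⟩]
    · rw [disjoint_left]
      intro x hx hx'
      simp only [mem_insert, mem_singleton] at hx hx'
      rcases hx with rfl | rfl | rfl <;> rcases hx' with e | e | e <;> exact hac _ _ e
    · rw [disjoint_left]
      intro x hx hx'
      simp only [mem_union, mem_insert, mem_singleton] at hx'
      rcases hx' with (rfl | rfl | rfl) | (rfl | rfl | rfl)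
      · exact (hU 0).1 hx
      · exact (hU 1).1 hx
      · exact (hU 2).1 hx
      · exact (hU 0).2 hx
      · exact (hU 1).2 hx
      · exact (hU 2).2 hx
  -- the key step
  have step : ∀ T : Finset α, T ⊆ R → T.card + 3 = m → ∀ C ∈ B, S ⊆ C → C ∩ R = T → phi a c C ≠ 0 →
      symmDiff C b ∈ B ∧ S ⊆ symmDiff C b ∧ symmDiff C b ∩ R = R \ T ∧
      phi a c (symmDiff C b) = - phi a c C := by
    intro T hT hTc C hC hSC hCR hph
    have hmem : ∀ x ∈ b, (x ∈ symmDiff C b ↔ x ∉ C) := by
      intro x hx; rw [mem_symmDiff]; tauto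
    refine ⟨?_, ?_, ?_, ?_⟩
    · apply h.sdp C hC b hb
      have e : C ∩ b = T ∪ ({if a 0 ∈ C then a 0 else c 0, if a 1 ∈ C then a 1 else c 1,
          if a 2 ∈ C then a 2 else c 2} : Finset α) := by
        ext x
        rw [← hCR]
        simp only [mem_inter, mem_union, mem_insert, mem_singleton]
        constructor
        · rintro ⟨hx, hxb⟩
          rw [← hR] at hxb
          simp only [mem_union, mem_insert, mem_singleton] at hxb
          rcases hxb with hxR | (rfl | rfl | rfl) | (rfl | rfl | rfl)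
          · exact Or.inl ⟨hx, hxR⟩
          · right; left; rw [if_pos hx]
          · right; right; left; rw [if_pos hx]
          · right; right; right; rw [if_pos hx]
          · right; left
            rcases phi_ne a c C hph 0 with ⟨_, h2⟩ | ⟨h1, _⟩
            · exact absurd hx h2
            · rw [if_neg h1]
          · right; right; left
            rcases phi_ne a c C hph 1 with ⟨_, h2⟩ | ⟨h1, _⟩
            · exact absurd hx h2
            · rw [if_neg h1]
          · right; right; right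
            rcases phi_ne a c C hph 2 with ⟨_, h2⟩ | ⟨h1, _⟩
            · exact absurd hx h2
            · rw [if_neg h1]
        · rintro (⟨hx, hxR⟩ | rfl | rfl | rfl)
          · exact ⟨hx, hRb hxR⟩
          · rcases phi_ne a c C hph 0 with ⟨h1, h2⟩ | ⟨h1, h2⟩
            · rw [if_pos h1]; exact ⟨h1, (hab 0).1⟩
            · rw [if_neg h1]; exact ⟨h2, (hab 0).2⟩
          · rcases phi_ne a c C hph 1 with ⟨h1, h2⟩ | ⟨h1, h2⟩
            · rw [if_pos h1]; exact ⟨h1, (hab 1).1⟩
            · rw [if_neg h1]; exact ⟨h2, (hab 1).2⟩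
          · rcases phi_ne a c C hph 2 with ⟨h1, h2⟩ | ⟨h1, h2⟩
            · rw [if_pos h1]; exact ⟨h1, (hab 2).1⟩
            · rw [if_neg h1]; exact ⟨h2, (hab 2).2⟩
      have hne : ∀ i j : Fin 3, i ≠ j →
          (if a i ∈ C then a i else c i) ≠ (if a j ∈ C then a j else c j) := by
        intro i j hij
        split_ifs
        · exact ha.ne hij
        · exact hac i j
        · exact (hac j i).symm
        · exact hc.ne hij
      have hnR : ∀ i : Fin 3, (if a i ∈ C then a i else c i) ∉ R := by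
        intro i; split_ifs
        · exact (hU i).1
        · exact (hU i).2
      rw [e, card_union_of_disjoint, card_eq_three.2 ⟨_, _, _, hne 0 1 (by decide), hne 0 2 (by decide),
        hne 1 2 (by decide), rfl⟩, hTc]
      rw [disjoint_left]
      intro x hx hx'
      simp only [mem_insert, mem_singleton] at hx'
      rcases hx' with rfl | rfl | rfl
      · exact hnR 0 (hT hx)
      · exact hnR 1 (hT hx)
      · exact hnR 2 (hT hx)
    · intro x hx
      rw [mem_symmDiff]
      exact Or.inl ⟨hSC hx, (disjoint_left.1 hSb) hx⟩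
    · ext x
      simp only [mem_inter, mem_sdiff, ← hCR]
      constructor
      · rintro ⟨h1, h2⟩
        exact ⟨h2, fun h3 => ((hmem x (hRb h2)).1 h1) h3.1⟩
      · rintro ⟨h2, h3⟩
        exact ⟨(hmem x (hRb h2)).2 (fun h4 => h3 ⟨h4, h2⟩), h2⟩
    · have hchi : ∀ x ∈ b, chi (symmDiff C b) x = 1 - chi C x := by
        intro x hx
        unfold chi
        by_cases hxC : x ∈ C
        · rw [if_neg (by rw [hmem x hx]; exact fun h => h hxC), if_pos hxC]; ring
        · rw [if_pos ((hmem x hx).2 hxC), if_neg hxC]; ring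
      unfold phi
      rw [hchi _ (hab 0).1, hchi _ (hab 0).2, hchi _ (hab 1).1, hchi _ (hab 1).2,
        hchi _ (hab 2).1, hchi _ (hab 2).2]
      ring
  have hT2 : (R \ R').card + 3 = m := by
    rw [card_sdiff_of_subset hR']
    have := card_le_card hR'
    omega
  apply sum_bij' (fun C _ => symmDiff C b) (fun C _ => symmDiff C b)
  · intro C hC
    simp only [mem_filter] at hC ⊢
    obtain ⟨h1, h2, h3, h4⟩ := step R' hR' hcard C hC.1.1 hC.1.2.1 hC.1.2.2 hC.2
    exact ⟨⟨h1, h2, h3⟩, by rw [h4]; exact neg_ne_zero.2 hC.2⟩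
  · intro C hC
    simp only [mem_filter] at hC ⊢
    obtain ⟨h1, h2, h3, h4⟩ := step (R \ R') sdiff_subset hT2 C hC.1.1 hC.1.2.1 hC.1.2.2 hC.2
    rw [Finset.sdiff_sdiff_eq_self hR'] at h3
    exact ⟨⟨h1, h2, h3⟩, by rw [h4]; exact neg_ne_zero.2 hC.2⟩
  · intro C hC; exact symmDiff_symmDiff_cancel_right _ _
  · intro C hC; exact symmDiff_symmDiff_cancel_right _ _
  · intro C hC
    simp only [mem_filter] at hC
    obtain ⟨h1, h2, h3, h4⟩ := step R' hR' hcard C hC.1.1 hC.1.2.1 hC.1.2.2 hC.2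
    rw [h4]; ring

theorem Sys.e_zero (h : Sys m s B) (hsm : s ≤ m) (hm : 4 ≤ m) (b S R : Finset α) (a c : Fin 3 → α)
    (hb : b ∈ B) (hSb : Disjoint S b) (hR : R ∪ ({a 0, a 1, a 2} ∪ {c 0, c 1, c 2}) = b)
    (hU : ∀ i, a i ∉ R ∧ c i ∉ R) (ha : Function.Injective a) (hc : Function.Injective c)
    (hac : ∀ i j, a i ≠ c j) (hRc : R.card + 6 = 2 * m) (hS : S.card + m ≤ s + 4) :
    ∑ C ∈ B.filter (fun C => S ⊆ C ∧ R ⊆ C), phi a c C = 0 := by
  have hab : ∀ i, a i ∈ b ∧ c i ∈ b := by
    intro i; rw [← hR]; fin_cases i <;> simp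
  have hU' : ∀ i, a i ∉ S ∪ R ∧ c i ∉ S ∪ R := by
    intro i
    rw [mem_union, mem_union, not_or, not_or]
    exact ⟨⟨fun hx => (disjoint_left.1 hSb) hx (hab i).1, (hU i).1⟩,
      ⟨fun hx => (disjoint_left.1 hSb) hx (hab i).2, (hU i).2⟩⟩
  obtain ⟨R', hR', hR'c⟩ := exists_subset_card_eq (show m - 3 ≤ R.card by omega)
  have e1 := h.e_sign hsm S R R' a c hU' ha hc hac hR' (by omega)
  have e2 := h.e_sign hsm S R (R \ R') a c hU' ha hc hac sdiff_subset (by omega)
  have e3 := h.invol b S R R' a c hb hSb hR hU ha hc hac hR' (by omega)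
  rw [card_sdiff_of_subset hR'] at e2
  have e4 : R.card - R'.card = m - 3 := by omega
  have e5 : R.card - (R.card - R'.card) = m - 3 := by omega
  rw [e4] at e1
  rw [e5] at e2
  rw [e1, e2] at e3
  have h2 : (-1:ℚ) ^ (m - 3) ≠ 0 := by positivity
  have h3 : (-1:ℚ) ^ (m - 3) * (2 * ∑ C ∈ B.filter (fun C => S ⊆ C ∧ R ⊆ C), phi a c C) = 0 := by
    linear_combination e3
  rcases mul_eq_zero.1 h3 with h4 | h4
  · exact absurd h4 h2
  · linarith

theorem Sys.swap (h : Sys m s B) (hsm : s ≤ m) (hm : 4 ≤ m) (b C₀ S : Finset α) (hb : b ∈ B)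
    (hC₀ : C₀ ∈ B) (hS : S ⊆ C₀ \ b) (hSc : S.card + m = s + 4) (hint : (C₀ ∩ b).card + 3 = 2 * m)
    (a : Fin 3 → α) (ha : Function.Injective a) (haK : ∀ i, a i ∈ C₀ ∩ b) :
    ∃ C₁ ∈ B, S ⊆ C₁ ∧ ∀ x ∈ b, (x ∈ C₁ ↔ (x ≠ a 0 ∧ x ≠ a 1 ∧ x ≠ a 2)) := by
  have hbc := h.st.card b hb
  have hQ : (b \ C₀).card = 3 := by
    have : (b \ C₀).card + (b ∩ C₀).card = b.card := by
      rw [add_comm]; exact card_inter_add_card_sdiff _ _
    rw [inter_comm] at this; omega
  obtain ⟨c0, c1, c2, n01, n02, n12, hQe⟩ := card_eq_three.1 hQ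
  set c : Fin 3 → α := ![c0, c1, c2] with hcdef
  have hcm : ∀ i, c i ∈ b \ C₀ := by
    intro i; rw [hQe]; fin_cases i <;> simp [hcdef]
  have hc : Function.Injective c := by
    intro i j hij
    fin_cases i <;> fin_cases j <;> simp_all [hcdef]
  have hac : ∀ i j, a i ≠ c j := by
    intro i j he
    have h1 := haK i
    have h2 := hcm j
    rw [mem_inter] at h1
    rw [mem_sdiff, ← he] at h2
    exact h2.2 h1.1
  have hSb : Disjoint S b := by
    rw [disjoint_left]; intro x hx; exact (mem_sdiff.1 (hS hx)).2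
  have hSC : S ⊆ C₀ := hS.trans sdiff_subset
  set Q : Finset α := {a 0, a 1, a 2} ∪ {c 0, c 1, c 2} with hQdef
  have haQ : ∀ i, a i ∈ Q := by intro i; rw [hQdef]; fin_cases i <;> simp
  have hcQ : ∀ i, c i ∈ Q := by intro i; rw [hQdef]; fin_cases i <;> simp
  have hQb : Q ⊆ b := by
    intro x hx
    rw [hQdef] at hx
    simp only [mem_union, mem_insert, mem_singleton] at hx
    rcases hx with (rfl | rfl | rfl) | (rfl | rfl | rfl)
    · exact (mem_inter.1 (haK 0)).2
    · exact (mem_inter.1 (haK 1)).2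
    · exact (mem_inter.1 (haK 2)).2
    · exact (mem_sdiff.1 (hcm 0)).1
    · exact (mem_sdiff.1 (hcm 1)).1
    · exact (mem_sdiff.1 (hcm 2)).1
  have hQc : Q.card = 6 := by
    have n01 : a 0 ≠ a 1 := ha.ne (by decide)
    have n02 : a 0 ≠ a 2 := ha.ne (by decide)
    have n12 : a 1 ≠ a 2 := ha.ne (by decide)
    have m01 : c 0 ≠ c 1 := hc.ne (by decide)
    have m02 : c 0 ≠ c 2 := hc.ne (by decide)
    have m12 : c 1 ≠ c 2 := hc.ne (by decide)
    rw [hQdef, card_union_of_disjoint]
    · rw [card_eq_three.2 ⟨_, _, _, n01, n02, n12, rfl⟩, card_eq_three.2 ⟨_, _, _, m01, m02, m12, rfl⟩]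
    · rw [disjoint_left]
      intro x hx hx'
      simp only [mem_insert, mem_singleton] at hx hx'
      rcases hx with rfl | rfl | rfl <;> rcases hx' with e | e | e <;> exact hac _ _ e
  set R := b \ Q with hRdef
  have hRc : R.card + 6 = 2 * m := by
    rw [hRdef, card_sdiff_of_subset hQb, hQc, hbc]; omega
  have hRC₀ : R ⊆ C₀ := by
    intro x hx
    rw [hRdef, mem_sdiff] at hx
    by_contra hn
    have : x ∈ b \ C₀ := mem_sdiff.2 ⟨hx.1, hn⟩
    rw [hQe] at this
    apply hx.2
    rw [hQdef]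
    simp only [hcdef, mem_union, mem_insert, mem_singleton] at this ⊢
    right; simpa using this
  have hU : ∀ i, a i ∉ R ∧ c i ∉ R := by
    intro i
    rw [hRdef, mem_sdiff, mem_sdiff]
    exact ⟨fun hx => hx.2 (haQ i), fun hx => hx.2 (hcQ i)⟩
  have hz := h.e_zero hsm hm b S R a c hb hSb (by rw [hRdef]; exact sdiff_union_of_subset hQb)
    hU ha hc hac hRc (by omega)
  have hC₀f : C₀ ∈ B.filter (fun C => S ⊆ C ∧ R ⊆ C) := mem_filter.2 ⟨hC₀, hSC, hRC₀⟩
  have hphi0 : phi a c C₀ = 1 := by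
    have e1 : ∀ i, chi C₀ (a i) = 1 := fun i => by
      rw [chi, if_pos (mem_inter.1 (haK i)).1]
    have e2 : ∀ i, chi C₀ (c i) = 0 := fun i => by
      rw [chi, if_neg (mem_sdiff.1 (hcm i)).2]
    unfold phi
    rw [e1, e1, e1, e2, e2, e2]; ring
  have hex : ∃ C₁ ∈ B.filter (fun C => S ⊆ C ∧ R ⊆ C), phi a c C₁ < 0 := by
    by_contra hno
    push Not at hno
    have := single_le_sum (f := fun C => phi a c C) (fun C hC => hno C hC) hC₀f
    simp only [hphi0, hz] at this
    linarith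
  obtain ⟨C₁, hC₁, hneg⟩ := hex
  rw [mem_filter] at hC₁
  obtain ⟨hC₁B, hSC₁, hRC₁⟩ := hC₁
  have huniq : ∀ i j k : Fin 3, j ≠ k → a j ∈ C₁ → a k ∈ C₁ → c i ∈ C₁ → False := by
    intro i j k hjk hj hk hi
    have hcard : (S ∪ (R ∪ {a j, a k})).card = m + s := by
      rw [card_union_of_disjoint, card_union_of_disjoint, card_pair (ha.ne hjk)]
      · omega
      · rw [disjoint_left]; intro x hx hx'
        simp only [mem_insert, mem_singleton] at hx'
        rcases hx' with rfl | rfl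
        · exact (hU j).1 hx
        · exact (hU k).1 hx
      · apply disjoint_of_subset_right _ hSb
        apply union_subset (by rw [hRdef]; exact sdiff_subset)
        intro x hx
        simp only [mem_insert, mem_singleton] at hx
        rcases hx with rfl | rfl
        · exact (mem_inter.1 (haK j)).2
        · exact (mem_inter.1 (haK k)).2
    have := h.st.uniq _ hcard C₁ hC₁B C₀ hC₀
      (union_subset hSC₁ (union_subset hRC₁ (by
        intro x hx; simp only [mem_insert, mem_singleton] at hx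
        rcases hx with rfl | rfl <;> assumption)))
      (union_subset hSC (union_subset hRC₀ (by
        intro x hx; simp only [mem_insert, mem_singleton] at hx
        rcases hx with rfl | rfl
        · exact (mem_inter.1 (haK j)).1
        · exact (mem_inter.1 (haK k)).1)))
    rw [this] at hi
    exact (mem_sdiff.1 (hcm i)).2 hi
  have hne : phi a c C₁ ≠ 0 := hneg.ne
  have hall : (∀ i, a i ∉ C₁) ∧ (∀ i, c i ∈ C₁) := by
    have p0 := phi_ne a c C₁ hne 0
    have p1 := phi_ne a c C₁ hne 1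
    have p2 := phi_ne a c C₁ hne 2
    unfold phi chi at hneg
    rcases p0 with ⟨u0, v0⟩ | ⟨u0, v0⟩ <;> rcases p1 with ⟨u1, v1⟩ | ⟨u1, v1⟩ <;>
      rcases p2 with ⟨u2, v2⟩ | ⟨u2, v2⟩
    · exfalso; simp [u0, v0, u1, v1, u2, v2] at hneg; linarith
    · exact absurd (huniq 2 0 1 (by decide) u0 u1 v2) not_false
    · exact absurd (huniq 1 0 2 (by decide) u0 u2 v1) not_false
    · exfalso; simp [u0, v0, u1, v1, u2, v2] at hneg; linarith
    · exact absurd (huniq 0 1 2 (by decide) u1 u2 v0) not_false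
    · exfalso; simp [u0, v0, u1, v1, u2, v2] at hneg; linarith
    · exfalso; simp [u0, v0, u1, v1, u2, v2] at hneg; linarith
    · constructor
      · intro i; fin_cases i <;> assumption
      · intro i; fin_cases i <;> assumption
  refine ⟨C₁, hC₁B, hSC₁, ?_⟩
  intro x hx
  constructor
  · intro hxC
    refine ⟨?_, ?_, ?_⟩ <;> rintro rfl
    · exact hall.1 0 hxC
    · exact hall.1 1 hxC
    · exact hall.1 2 hxC
  · rintro ⟨h0, h1, h2⟩
    by_cases hxQ : x ∈ Q
    · rw [hQdef] at hxQ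
      simp only [mem_union, mem_insert, mem_singleton] at hxQ
      rcases hxQ with (e | e | e) | (e | e | e)
      · exact absurd e h0
      · exact absurd e h1
      · exact absurd e h2
      · rw [e]; exact hall.2 0
      · rw [e]; exact hall.2 1
      · rw [e]; exact hall.2 2
    · exact hRC₁ (by rw [hRdef, mem_sdiff]; exact ⟨hx, hxQ⟩)

theorem Sys.no_trace (h : Sys m s B) (hsm : s ≤ m) (hm : 4 ≤ m) (b C₀ S : Finset α) (hb : b ∈ B)
    (hC₀ : C₀ ∈ B) (hS : S ⊆ C₀ \ b) (hSc : S.card + m = s + 4)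
    (hint : (C₀ ∩ b).card + 3 = 2 * m) : False := by
  obtain ⟨T, hT, hTc⟩ := exists_subset_card_eq (show 4 ≤ (C₀ ∩ b).card by omega)
  set f : Fin 4 → α := fun i => ((T.equivFinOfCardEq hTc).symm i : α) with hf
  have hfi : Function.Injective f := Subtype.val_injective.comp (Equiv.injective _)
  have hfK : ∀ i, f i ∈ C₀ ∩ b := fun i => hT ((T.equivFinOfCardEq hTc).symm i).2
  obtain ⟨C₁, hC₁, hS₁, h₁⟩ := h.swap hsm hm b C₀ S hb hC₀ hS hSc hint ![f 0, f 1, f 2]
    (by
      intro i j hij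
      fin_cases i <;> fin_cases j <;> first | rfl | (exfalso; simp at hij; exact absurd (hfi hij) (by decide)))
    (by intro i; fin_cases i <;> simp only [Matrix.cons_val] <;> apply hfK)
  obtain ⟨C₂, hC₂, hS₂, h₂⟩ := h.swap hsm hm b C₀ S hb hC₀ hS hSc hint ![f 0, f 1, f 3]
    (by
      intro i j hij
      fin_cases i <;> fin_cases j <;> first | rfl | (exfalso; simp at hij; exact absurd (hfi hij) (by decide)))
    (by intro i; fin_cases i <;> simp only [Matrix.cons_val] <;> apply hfK)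
  have hSb : Disjoint S b := by
    rw [disjoint_left]; intro x hx; exact (mem_sdiff.1 (hS hx)).2
  have hTb : T ⊆ b := hT.trans inter_subset_right
  have hfT : ∀ i, f i ∈ T := fun i => ((T.equivFinOfCardEq hTc).symm i).2
  have hcard : (S ∪ (b \ T)).card = m + s := by
    rw [card_union_of_disjoint (disjoint_of_subset_right sdiff_subset hSb),
      card_sdiff_of_subset hTb, hTc, h.st.card b hb]
    omega
  have hsub : ∀ x ∈ b \ T, ∀ i, x ≠ f i := by
    intro x hx i he
    rw [mem_sdiff] at hx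
    exact hx.2 (he ▸ hfT i)
  have e : C₁ = C₂ := h.st.uniq _ hcard C₁ hC₁ C₂ hC₂
    (union_subset hS₁ (fun x hx => (h₁ x (mem_sdiff.1 hx).1).2
      ⟨hsub x hx 0, hsub x hx 1, hsub x hx 2⟩))
    (union_subset hS₂ (fun x hx => (h₂ x (mem_sdiff.1 hx).1).2
      ⟨hsub x hx 0, hsub x hx 1, hsub x hx 3⟩))
  have hb3 : f 3 ∈ b := (mem_inter.1 (hfK 3)).2
  have in1 : f 3 ∈ C₁ := (h₁ _ hb3).2
    ⟨fun e => absurd (hfi e) (by decide), fun e => absurd (hfi e) (by decide),
      fun e => absurd (hfi e) (by decide)⟩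
  rw [e] at in1
  exact ((h₂ _ hb3).1 in1).2.2 rfl

end Pool.Agent.H179.SDP
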