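import Pool.Agent.H179.SDP.Small

set_option autoImplicit false
open Finset

namespace Pool.Agent.H179.SDP

variable {α : Type*} [DecidableEq α] [Fintype α] {m s : ℕ} {B : Finset (Finset α)}

theorem Sys.no_w3 (h : Sys m s B) (hm : 4 ≤ m) (hs : s + 2 = m) (hn : 2 * m < Fintype.card α) :
    False := by
  obtain ⟨b, hb, _⟩ := h.st.exists_block (S := ∅) (empty_subset _) (by simp)
    (by rw [card_univ]; omega)
  have hbc := h.st.card b hb
  obtain ⟨p, hp⟩ : ∃ p, p ∈ univ \ b := by
    rw [← Finset.Nonempty, ← card_pos, card_sdiff_of_subset (subset_univ _), card_univ]; omega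
  rw [mem_sdiff] at hp
  obtain ⟨T, hT, hTc⟩ := exists_subset_card_eq (show 2 * m - 3 ≤ b.card by omega)
  have hpT : p ∉ T := fun hx => hp.2 (hT hx)
  obtain ⟨C, hC, hsub⟩ := h.st.ex (insert p T) (subset_univ _)
    (by rw [card_insert_of_notMem hpT, hTc]; omega)
  have hne : C ≠ b := by rintro rfl; exact hp.2 (hsub (mem_insert_self _ _))
  have h1 := h.st.inter_lt hC hb hne
  have h2 : T.card ≤ (C ∩ b).card :=
    card_le_card (subset_inter ((subset_insert _ _).trans hsub) hT)
  have hint : (C ∩ b).card + 3 = 2 * m := by omega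
  have hCc := h.st.card C hC
  have hCb : (C \ b).card = 3 := by
    have : (C \ b).card + (C ∩ b).card = C.card := by
      rw [add_comm]; exact card_inter_add_card_sdiff _ _
    omega
  obtain ⟨S, hS, hSc⟩ := exists_subset_card_eq (show 2 ≤ (C \ b).card by omega)
  exact h.no_trace (by omega) hm b C S hb hC hS (by omega) hint

theorem Sys.no_w2 (h : Sys m s B) (hm : 4 ≤ m) (hs : s + 1 = m) (hn : 2 * m < Fintype.card α) :
    False := by
  have ht := h.tits (by omega) hn
  obtain ⟨b, hb, _⟩ := h.st.exists_block (S := ∅) (empty_subset _) (by simp)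
    (by rw [card_univ]; omega)
  have hbc := h.st.card b hb
  obtain ⟨p, hp⟩ : ∃ p, p ∈ univ \ b := by
    rw [← Finset.Nonempty, ← card_pos, card_sdiff_of_subset (subset_univ _), card_univ]; omega
  rw [mem_sdiff] at hp
  obtain ⟨T, hT, hTc⟩ := exists_subset_card_eq (show 2 * m - 3 ≤ b.card by omega)
  have hpT : p ∉ T := fun hx => hp.2 (hT hx)
  have hTb : (b \ T).card = 3 := by rw [card_sdiff_of_subset hT]; omega
  -- every block through `insert p T` meets `b \ T`
  have hmeet : ∀ C ∈ B.filter (insert p T ⊆ ·), ∃ a ∈ b \ T, a ∈ C := by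
    intro C hC
    rw [mem_filter] at hC
    by_contra hno
    push Not at hno
    have hint : C ∩ b = T := by
      apply Subset.antisymm
      · intro x hx
        rw [mem_inter] at hx
        by_contra hxT
        exact hno x (mem_sdiff.2 ⟨hx.2, hxT⟩) hx.1
      · exact subset_inter ((subset_insert _ _).trans hC.2) hT
    have hCc := h.st.card C hC.1
    have hCb : (C \ b).card = 3 := by
      have : (C \ b).card + (C ∩ b).card = C.card := by
        rw [add_comm]; exact card_inter_add_card_sdiff _ _
      rw [hint] at this; omega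
    exact h.no_trace (by omega) hm b C (C \ b) hb hC.1 (Subset.refl _) (by omega)
      (by rw [hint, hTc]; omega)
  haveI : Nonempty α := ⟨p⟩
  choose! f hf hf' using hmeet
  have hle : (B.filter (insert p T ⊆ ·)).card ≤ (b \ T).card := by
    apply card_le_card_of_injOn f (fun C hC => mem_coe.2 (hf C (mem_coe.1 hC)))
    intro C hC C' hC' he
    rw [mem_coe] at hC hC'
    have m1 := mem_filter.1 hC
    have m2 := mem_filter.1 hC'
    have hfb := mem_sdiff.1 (hf C hC)
    have hfn : f C ∉ insert p T := by
      rw [mem_insert, not_or]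
      exact ⟨fun e => hp.2 (e ▸ hfb.1), hfb.2⟩
    refine h.st.uniq (insert (f C) (insert p T)) ?_ C m1.1 C' m2.1
      (insert_subset (hf' C hC) m1.2) (insert_subset (by rw [he]; exact hf' C' hC') m2.2)
    rw [card_insert_of_notMem hfn, card_insert_of_notMem hpT, hTc]; omega
  have hmul := h.st.deg_mul (insert p T) (subset_univ _)
    (by rw [card_insert_of_notMem hpT, hTc]; omega)
  rw [card_insert_of_notMem hpT, hTc, card_univ] at hmul
  have e1 : m + s - (2 * m - 3 + 1) = 1 := by omega
  have e2 : 2 * m - (2 * m - 3 + 1) = 2 := by omega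
  rw [e1, e2, Nat.choose_one_right, Nat.choose_one_right] at hmul
  have e3 : m - s + 1 = 2 := by omega
  rw [e3] at ht
  rw [hTb] at hle
  omega

end Pool.Agent.H179.SDP
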