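import Pool.Agent.H179.SDP.CountQ

set_option autoImplicit false
open Finset

namespace Pool.Agent.H179.SDP

/-- the algebra at the end of the second moment argument -/
theorem star_algebra (w x s m v T j n0 y L0 L1 L2 r o : ℚ) (hw : 1 ≤ w) (hm : m = w + s - 1)
    (hv : v = w * (w + 1 + x) + s - 1) (hT : T = w * (w + x) + j) (hj : 0 ≤ j) (hjm : j ≤ m - 1)
    (hs : 1 ≤ s) (hx : s - 2 ≤ x) (hx0 : 0 ≤ x)
    (h0 : L0 * m = L1 * v) (h1 : L1 * (m - 1) = L2 * (v - 1)) (hm1 : 0 < m - 1)
    (hL1 : 0 < L1) (hr : r = w + 1 + x) (hy : L0 ≤ 10 * y) (hn0 : 0 ≤ n0) (ho : n0 ≤ o)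
    (hmix : o * (y * (T - m * (m - s)) / T) ^ 2 ≤ (r - 1) * ((L1 - L2) * y)) :
    n0 * w * (x - s + 2) ^ 2 ≤ 10 * m * (w + x) ^ 2 := by
  have hw0 : 0 < w := by linarith
  have hm0 : 0 < m := by linarith
  have hwx : 0 < w * (w + x) := by positivity
  have hT0 : 0 < T := by rw [hT]; linarith
  have hvT : T ≤ v - 1 := by
    have : v - 1 = w * (w + x) + (m - 1) := by rw [hv, hm]; ring
    rw [hT, this]; linarith
  have hv1 : 0 < v - 1 := by linarith
  have hv0 : 0 < v := by linarith
  have hL0 : 0 < L0 := by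
    by_contra hcon
    push Not at hcon
    have : L0 * m ≤ 0 := mul_nonpos_of_nonpos_of_nonneg hcon hm0.le
    have : 0 < L1 * v := by positivity
    linarith
  have hy0 : 0 < y := by linarith
  have ho0 : 0 ≤ o := hn0.trans ho
  set G : ℚ := T - m * (m - s) with hG
  have hGe : G = w * (x - s + 2) + j + s - 1 := by rw [hG, hT, hm]; ring
  have hGw : w * (x - s + 2) ≤ G := by rw [hGe]; linarith
  have hGw0 : 0 ≤ w * (x - s + 2) := mul_nonneg hw0.le (by linarith)
  -- clear denominators
  have e1 : o * y * G ^ 2 ≤ (r - 1) * (L1 - L2) * T ^ 2 := by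
    have : o * (y * G / T) ^ 2 = (o * y * G ^ 2) * y / T ^ 2 := by field_simp
    rw [this, div_le_iff₀ (by positivity)] at hmix
    by_contra hcon
    push Not at hcon
    have := mul_lt_mul_of_pos_right hcon hy0
    linarith
  have hK : (L1 - L2) * (v - 1) = L1 * (w * (w + x)) := by
    have : v - m = w * (w + x) := by rw [hv, hm]; ring
    linear_combination h1 + L1 * this
  -- multiply by `(v - 1)`
  have e2 : o * y * G ^ 2 * (v - 1) ≤ (w + x) * (L1 * (w * (w + x))) * T ^ 2 := by
    have := mul_le_mul_of_nonneg_right e1 hv1.le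
    have e : (r - 1) * (L1 - L2) * T ^ 2 * (v - 1) = (w + x) * ((L1 - L2) * (v - 1)) * T ^ 2 := by
      rw [hr]; ring
    rw [e, hK] at this
    exact this
  -- replace `y`
  have e3 : o * (L1 * v) * G ^ 2 * (v - 1) ≤ 10 * m * ((w + x) * (L1 * (w * (w + x))) * T ^ 2) := by
    have a1 : o * (L0 * m) * G ^ 2 * (v - 1) ≤ 10 * m * (o * y * G ^ 2 * (v - 1)) := by
      have : 0 ≤ o * G ^ 2 * (v - 1) * m := by positivity
      have := mul_le_mul_of_nonneg_left hy this
      linarith
    rw [h0] at a1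
    have a2 := mul_le_mul_of_nonneg_left e2 (show (0:ℚ) ≤ 10 * m by positivity)
    linarith
  have e4 : o * v * (v - 1) * G ^ 2 ≤ 10 * m * w * (w + x) ^ 2 * T ^ 2 := by
    by_contra hcon
    push Not at hcon
    have := mul_lt_mul_of_pos_right hcon hL1
    linarith
  have e5 : T ^ 2 ≤ v * (v - 1) := by
    rw [pow_two]
    exact mul_le_mul (by linarith) hvT hT0.le hv0.le
  have e6 : o * G ^ 2 ≤ 10 * m * w * (w + x) ^ 2 := by
    by_contra hcon
    push Not at hcon
    have b1 : 10 * m * w * (w + x) ^ 2 * T ^ 2 < o * G ^ 2 * T ^ 2 :=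
      mul_lt_mul_of_pos_right hcon (by positivity)
    have b2 : o * G ^ 2 * T ^ 2 ≤ o * G ^ 2 * (v * (v - 1)) :=
      mul_le_mul_of_nonneg_left e5 (by positivity)
    linarith
  have e7 : n0 * (w * (x - s + 2)) ^ 2 ≤ o * G ^ 2 :=
    mul_le_mul ho (pow_le_pow_left₀ hGw0 hGw 2) (by positivity) ho0
  have e8 : (n0 * w * (x - s + 2) ^ 2) * w ≤ (10 * m * (w + x) ^ 2) * w := by linarith
  exact le_of_mul_le_mul_right e8 hw0

variable {α : Type*} [DecidableEq α] [Fintype α] {m s : ℕ} {B : Finset (Finset α)}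

theorem Sys.star_gen (h : Sys m s B) (hs : 2 ≤ s) (w x : ℕ) (hm : m + 1 = w + s) (hsw : s ≤ w)
    (hw : 30 * m < w * w) (hs4 : s ≤ 4) (hx : s ≤ x)
    (hn : Fintype.card α = w * (w + 1 + x) + (s - 1) + m) {X Y Z : Finset α} (hX : X.card = m)
    (hY : Y ∈ D m B X) (hZ : Z ∈ D m B Y) (hXZ : ¬ Disjoint X Z) (hZX : s ≤ (Z \ X).card)
    (hy : L (Fintype.card α - m) s m 0 ≤ 10 * (((D m B X).filter (· ∈ D m B Z)).card : ℚ)) :
    ((w:ℚ) + 1 - (X ∩ Z).card) * w * ((x:ℚ) - s + 2) ^ 2 ≤ 10 * m * ((w:ℚ) + x) ^ 2 := by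
  have hsm : s < m := by omega
  have hYc := (mem_D.1 hY).1
  have hZc := (mem_D.1 hZ).1
  have hstX := h.stD hX
  have hPX := card_P (m := m) hX
  have hXDY : X ∈ D m B Y := D_symm hX hY
  have hYDZ : Y ∈ D m B Z := D_symm hYc hZ
  have hne : X ≠ Z := by
    rintro rfl; simp at hZX; omega
  set j := (X ∩ Z).card with hj
  have hjs : j < s := (h.stD hYc).inter_lt hXDY hZ hne
  have hj0 : 0 < j := by
    rw [hj, card_pos, nonempty_iff_ne_empty, Ne, ← disjoint_iff_inter_eq_empty]; exact hXZ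
  have hZXc : (Z \ X).card + j = m := by
    have : (Z \ X).card + (Z ∩ X).card = Z.card := by
      rw [add_comm]; exact card_inter_add_card_sdiff _ _
    rw [inter_comm] at this; omega
  set v := Fintype.card α - m with hv
  have hv' : v = w * (w + 1 + x) + (s - 1) := by omega
  have hvm : v = w * (w + x) + m := by
    rw [hv']; have : w * (w + 1 + x) = w * (w + x) + w := by ring
    omega
  set F := (D m B X).filter (· ∈ D m B Z) with hF
  have hFX : F ⊆ D m B X := filter_subset _ _
  have hFZ : ∀ C ∈ F, C ∈ D m B Z := fun C hC => (mem_filter.1 hC).2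
  obtain ⟨A, hA, hAc⟩ := exists_subset_card_eq (show s - 2 ≤ (Z \ X).card by omega)
  have hZXP : Z \ X ⊆ univ \ X := sdiff_subset_sdiff (subset_univ _) (Subset.refl _)
  set Z0 := (Z \ X) \ A with hZ0
  have hZ0c : Z0.card + j + s = m + 2 := by
    rw [hZ0, card_sdiff_of_subset hA, hAc]; omega
  set O := (D m B X).filter (fun C => A ⊆ C ∧ 2 ≤ (C ∩ Z0).card) with hO
  have hOZ : ∀ C ∈ O, C ∈ D m B X ∧ A ⊆ C ∧ s ≤ (C ∩ Z).card := by
    intro C hC
    rw [hO, mem_filter] at hC
    refine ⟨hC.1, hC.2.1, ?_⟩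
    have hd : Disjoint A (C ∩ Z0) := by
      rw [disjoint_left]; intro z hz hz'
      exact (mem_sdiff.1 (mem_inter.1 hz').2).2 hz
    have h1 : (A ∪ (C ∩ Z0)).card ≤ (C ∩ Z).card := by
      apply card_le_card
      intro z hz
      rcases mem_union.1 hz with hz | hz
      · exact mem_inter.2 ⟨hC.2.1 hz, (mem_sdiff.1 (hA hz)).1⟩
      · rw [mem_inter] at hz ⊢
        exact ⟨hz.1, (mem_sdiff.1 (mem_sdiff.1 hz.2).1).1⟩
    rw [card_union_of_disjoint hd, hAc] at h1
    have := hC.2.2
    omega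
  -- relations between the numbers `L`
  have hsv : s ≤ v := by omega
  have r0 := L_rec v s m 0 (by omega) hsm.le hsv
  have r1 := L_rec v s m 1 (by omega) hsm.le hsv
  have rs := L_rec v s m (s - 1) (by omega) hsm.le hsv
  have es : s - 1 + 1 = s := by omega
  rw [es, L_top] at rs
  simp only [zero_add, Nat.reduceAdd] at r0 r1
  push_cast at r0 r1
  rw [sub_zero, sub_zero] at r0
  have hmq : (m:ℚ) = w + s - 1 := by
    have : ((m + 1 : ℕ) : ℚ) = ((w + s : ℕ) : ℚ) := by rw [hm]
    push_cast at this; linarith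
  have hvq : (v:ℚ) = w * (w + 1 + x) + s - 1 := by
    rw [hv']; push_cast [Nat.cast_sub (show 1 ≤ s by omega)]; ring
  have hw1 : 1 ≤ w := by omega
  have hw0 : (0:ℚ) < w := by exact_mod_cast hw1
  have hLs : L v s m (s - 1) = (w:ℚ) + 1 + x := by
    apply mul_right_cancel₀ hw0.ne'
    have e1 : ((s - 1 : ℕ) : ℚ) = (s:ℚ) - 1 := by rw [Nat.cast_sub (by omega)]; simp
    rw [e1, hmq, hvq] at rs
    linear_combination rs
  have hL1pos : 0 < L v s m 1 := by
    unfold L
    have p1 : 0 < (v - 1).choose (s - 1) := Nat.choose_pos (by omega)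
    have p2 : 0 < (m - 1).choose (s - 1) := Nat.choose_pos (by omega)
    positivity
  have hmv : (m:ℚ) ≤ v := by exact_mod_cast (by omega : m ≤ v)
  have hm2 : (2:ℚ) ≤ m := by exact_mod_cast (by omega : 2 ≤ m)
  have hK : 0 ≤ L v s m 1 - L v s m 2 := by
    by_contra hcon
    push Not at hcon
    have a1 : L v s m 1 < L v s m 2 := by linarith
    have a2 : L v s m 1 * ((m:ℚ) - 1) ≤ L v s m 1 * ((v:ℚ) - 1) :=
      mul_le_mul_of_nonneg_left (by linarith) hL1pos.le
    have a3 : L v s m 1 * ((v:ℚ) - 1) < L v s m 2 * ((v:ℚ) - 1) :=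
      mul_lt_mul_of_pos_right a1 (by linarith)
    linarith
  -- no line contains all of `Z0`
  have hno : ∀ C ∈ O, ¬ Z0 ⊆ C := by
    intro C hC hsub
    have hCX := (hOZ C hC).1
    have hCZ := (hOZ C hC).2.2
    have hZXC : Z \ X ⊆ C := by
      intro z hz
      by_cases hzA : z ∈ A
      · exact (hOZ C hC).2.1 hzA
      · exact hsub (mem_sdiff.2 ⟨hz, hzA⟩)
    have hc1 : (C \ Z).card ≤ j := by
      have h1 : (C \ Z).card + (C ∩ Z).card = C.card := by
        rw [add_comm]; exact card_inter_add_card_sdiff _ _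
      have h2 : (Z \ X).card ≤ (C ∩ Z).card := card_le_card (subset_inter hZXC sdiff_subset)
      rw [(mem_D.1 hCX).1] at h1
      omega
    have h3 : (F.card : ℚ) ≤ ∑ q ∈ C \ Z, dg F q := by
      rw [sum_dg]
      have : ∀ Y'' ∈ F, (1:ℚ) ≤ (((C \ Z) ∩ Y'').card : ℚ) := by
        intro Y'' hY''
        have hnd := h.meets hX (hFX hY'') (hFZ _ hY'') hZc hXZ hCX hCZ
        obtain ⟨z, hz1, hz2⟩ := not_disjoint_iff.1 hnd
        have : 0 < ((C \ Z) ∩ Y'').card := by
          rw [card_pos]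
          exact ⟨z, mem_inter.2 ⟨mem_sdiff.2 ⟨hz1, fun hzZ =>
            (disjoint_left.1 (mem_D.1 (hFZ _ hY'')).2.1) hzZ hz2⟩, hz2⟩⟩
        exact_mod_cast this
      have := sum_le_sum this
      rw [sum_const, nsmul_eq_mul, mul_one] at this
      exact this
    have h4 : ∀ q ∈ C \ Z, dg F q ≤ L v s m 1 := by
      intro q hq
      have hqP : ({q} : Finset α) ⊆ univ \ X := by
        rw [singleton_subset_iff]; exact hstX.sub C hCX (mem_sdiff.1 hq).1
      have := hstX.deg hsm.le {q} hqP (by rw [card_singleton]; omega)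
      rw [card_singleton, hPX] at this
      rw [← this, dg]
      have hle : (F.filter (q ∈ ·)).card ≤ ((D m B X).filter (fun b => ({q} : Finset α) ⊆ b)).card := by
        apply card_le_card
        intro E hE
        rw [mem_filter] at hE ⊢
        exact ⟨hFX hE.1, by rw [singleton_subset_iff]; exact hE.2⟩
      exact_mod_cast hle
    have h5 := sum_le_sum h4
    rw [sum_const, nsmul_eq_mul] at h5
    have h6 : ((C \ Z).card : ℚ) * L v s m 1 ≤ 3 * L v s m 1 := by
      apply mul_le_mul_of_nonneg_right _ hL1pos.le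
      have : (C \ Z).card ≤ 3 := by omega
      exact_mod_cast this
    have h7 : L v s m 0 ≤ 30 * L v s m 1 := by linarith
    have h8 : L v s m 0 * m ≤ 30 * L v s m 1 * m := mul_le_mul_of_nonneg_right h7 (by linarith)
    rw [r0] at h8
    have h9 : (30:ℚ) * m < v := by
      have a1 : 30 * m < v := by
        rw [hvm]
        have : w * w ≤ w * (w + x) := Nat.mul_le_mul_left _ (by omega)
        omega
      exact_mod_cast a1
    have h10 : 30 * (m:ℚ) * L v s m 1 < v * L v s m 1 := mul_lt_mul_of_pos_right h9 hL1pos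
    linarith
  have hZ0P : ∀ z ∈ Z0, z ∈ Z ∧ z ∉ X ∧ z ∉ A := by
    intro z hz
    rw [hZ0, mem_sdiff, mem_sdiff] at hz
    exact ⟨hz.1.1, hz.1.2, hz.2⟩
  have hpair : ∀ p ∈ Z0, ∀ q ∈ Z0, p ≠ q → (A ∪ {p, q}).card = s := by
    intro p hp q hq hpq
    rw [card_union_of_disjoint, card_pair hpq, hAc]
    · omega
    · rw [disjoint_left]; intro z hz hz'
      simp only [mem_insert, mem_singleton] at hz'
      rcases hz' with rfl | rfl
      · exact (hZ0P _ hp).2.2 hz
      · exact (hZ0P _ hq).2.2 hz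
  have hdbe : Z0.card ≤ O.card := by
    apply dbe Z0 O (by omega)
    · intro p hp q hq hpq
      obtain ⟨C, hC, hsub⟩ := hstX.ex (A ∪ {p, q}) (by
        apply union_subset (hA.trans hZXP)
        intro z hz
        simp only [mem_insert, mem_singleton] at hz
        simp only [mem_sdiff, mem_univ, true_and]
        rcases hz with rfl | rfl
        · exact (hZ0P _ hp).2.1
        · exact (hZ0P _ hq).2.1) (hpair p hp q hq hpq)
      have hpC : p ∈ C := hsub (by simp)
      have hqC : q ∈ C := hsub (by simp)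
      refine ⟨C, ?_, hpC, hqC⟩
      rw [hO, mem_filter]
      refine ⟨hC, subset_union_left.trans hsub, ?_⟩
      rw [← card_pair hpq]
      apply card_le_card
      intro z hz
      simp only [mem_insert, mem_singleton] at hz
      rcases hz with rfl | rfl
      · exact mem_inter.2 ⟨hpC, hp⟩
      · exact mem_inter.2 ⟨hqC, hq⟩
    · intro p hp q hq hpq C hC C' hC' h1 h2 h3 h4
      have c1 := hOZ C hC
      have c2 := hOZ C' hC'
      exact hstX.uniq (A ∪ {p, q}) (hpair p hp q hq hpq) C c1.1 C' c2.1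
        (union_subset c1.2.1 (by
          intro z hz; simp only [mem_insert, mem_singleton] at hz
          rcases hz with rfl | rfl <;> assumption))
        (union_subset c2.2.1 (by
          intro z hz; simp only [mem_insert, mem_singleton] at hz
          rcases hz with rfl | rfl <;> assumption))
    · exact hno
  have hTc : ((univ : Finset α) \ (X ∪ Z)).card = w * (w + x) + j := by
    rw [card_sdiff_of_subset (subset_univ _), card_univ]
    have h1 : (X ∪ Z).card + j = 2 * m := by
      rw [hj, card_union_add_card_inter, hX, hZc]; ring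
    omega
  have hmix := h.mixing hs hsm hX hZc hXZ hA hAc O hOZ v (w * (w + x) + j) hPX hTc
    (by
      have e1 : m - s = w - 1 := by omega
      rw [e1]
      obtain ⟨w', rfl⟩ := Nat.exists_eq_add_of_le' hw1
      obtain ⟨x', rfl⟩ := Nat.exists_eq_add_of_le hx
      have e2 : m = w' + s := by omega
      rw [e2]
      simp only [Nat.add_sub_cancel]
      have e3 : (w' + s) * w' ≤ (w' + 1 + (s + x')) * (w' + 1) :=
        Nat.mul_le_mul (by omega) (by omega)
      have e4 : (w' + 1 + (s + x')) * (w' + 1) = (w' + 1) * (w' + 1 + (s + x')) := by ring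
      omega) (by
      have : 0 < w * (w + x) := by positivity
      omega) hK
  refine star_algebra w x s m v ((w * (w + x) + j : ℕ) : ℚ) j ((w:ℚ) + 1 - j)
    ((F.card : ℚ)) (L v s m 0) (L v s m 1) (L v s m 2) (L v s m (s - 1)) (O.card : ℚ)
    (by exact_mod_cast hw1) hmq hvq (by push_cast; ring) (by positivity) ?_ ?_ ?_ (by positivity)
    r0 r1 (by linarith) hL1pos hLs hy ?_ ?_ hmix
  · have : j + 1 ≤ m := by omega
    have : ((j + 1 : ℕ) : ℚ) ≤ m := by exact_mod_cast this
    push_cast at this; linarith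
  · exact_mod_cast (by omega : 1 ≤ s)
  · have : (s:ℚ) ≤ x := by exact_mod_cast hx
    linarith
  · have : j ≤ w := by omega
    have : (j:ℚ) ≤ w := by exact_mod_cast this
    linarith
  · have e1 : Z0.card + j = w + 1 := by omega
    have : ((Z0.card + j : ℕ) : ℚ) = ((w + 1 : ℕ) : ℚ) := by rw [e1]
    push_cast at this
    have e2 : ((Z0.card : ℕ) : ℚ) ≤ O.card := by exact_mod_cast hdbe
    linarith

end Pool.Agent.H179.SDP
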