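import Pool.Agent.H179.SDP.Adj

set_option autoImplicit false
open Finset

namespace Pool.Agent.H179.SDP

variable {α : Type*} [DecidableEq α]

/-- the inequality of Tits -/
theorem St.tits {P : Finset α} {t k : ℕ} {B : Finset (Finset α)} (h : St P t k B) (ht : t < k)
    (hk : k < P.card) : (t + 1) * (k - t + 1) ≤ P.card := by
  obtain ⟨S0, hS0, hS0c⟩ := exists_subset_card_eq (show t ≤ P.card by omega)
  obtain ⟨b1, hb1, _⟩ := h.ex S0 hS0 hS0c
  have hb1P := h.sub b1 hb1
  have hb1c := h.card b1 hb1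
  obtain ⟨p, hp⟩ : ∃ p, p ∈ P \ b1 := by
    rw [← Finset.Nonempty, ← card_pos, card_sdiff_of_subset hb1P]; omega
  rw [mem_sdiff] at hp
  obtain ⟨S, hS, hSc⟩ := exists_subset_card_eq (show t ≤ b1.card by omega)
  have hpS : p ∉ S := fun hx => hp.2 (hS hx)
  have hTc : (insert p S).card = t + 1 := by rw [card_insert_of_notMem hpS, hSc]
  have hTP : insert p S ⊆ P := insert_subset hp.1 (hS.trans hb1P)
  have hno : ∀ b ∈ B, ¬ (insert p S ⊆ b) := by
    intro b hb hsub
    have : b = b1 := h.uniq S hSc b hb b1 hb1 ((subset_insert _ _).trans hsub) hS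
    subst this
    exact hp.2 (hsub (mem_insert_self _ _))
  generalize insert p S = T at hTc hTP hno
  have hex : ∀ x ∈ T, ∃ b ∈ B, T.erase x ⊆ b := by
    intro x hx
    exact h.ex (T.erase x) ((erase_subset _ _).trans hTP) (by rw [card_erase_of_mem hx, hTc]; rfl)
  choose! f hf hfs using hex
  have hxf : ∀ x ∈ T, x ∉ f x := by
    intro x hx hxf
    apply hno (f x) (hf x hx)
    rw [← insert_erase hx]
    exact insert_subset hxf (hfs x hx)
  have hE : ∀ x ∈ T, (f x \ T).card = k - t := by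
    intro x hx
    have : f x ∩ T = T.erase x := by
      ext y
      simp only [mem_inter, mem_erase]
      constructor
      · rintro ⟨h1, h2⟩; refine ⟨?_, h2⟩; rintro rfl; exact hxf _ hx h1
      · rintro ⟨h1, h2⟩; exact ⟨hfs x hx (mem_erase.2 ⟨h1, h2⟩), h2⟩
    have h3 : (f x \ T).card + (f x ∩ T).card = (f x).card := by
      rw [add_comm]; exact card_inter_add_card_sdiff _ _
    rw [this, card_erase_of_mem hx, hTc, h.card _ (hf x hx)] at h3
    omega
  have hdis : ∀ x ∈ T, ∀ y ∈ T, x ≠ y → Disjoint (f x \ T) (f y \ T) := by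
    intro x hx y hy hxy
    rw [disjoint_left]
    intro z hz1 hz2
    rw [mem_sdiff] at hz1 hz2
    have hzT : z ∉ (T.erase x).erase y := fun hz => hz1.2 (mem_of_mem_erase (mem_of_mem_erase hz))
    have hc : (insert z ((T.erase x).erase y)).card = t := by
      rw [card_insert_of_notMem hzT, card_erase_of_mem (mem_erase.2 ⟨hxy.symm, hy⟩),
        card_erase_of_mem hx, hTc]
      have : 1 < T.card := one_lt_card.2 ⟨x, hx, y, hy, hxy⟩
      omega
    have := h.uniq _ hc (f x) (hf x hx) (f y) (hf y hy)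
      (insert_subset hz1.1 ((erase_subset _ _).trans (hfs x hx)))
      (insert_subset hz2.1 (by
        intro u hu
        rw [mem_erase, mem_erase] at hu
        exact hfs y hy (mem_erase.2 ⟨hu.1, hu.2.2⟩)))
    apply hxf x hx
    rw [this]
    exact hfs y hy (mem_erase.2 ⟨hxy, hx⟩)
  have hU : (T.biUnion (fun x => f x \ T)).card = (t + 1) * (k - t) := by
    rw [card_biUnion hdis, sum_congr rfl hE, sum_const, hTc, smul_eq_mul]
  have hsub : T.biUnion (fun x => f x \ T) ⊆ P \ T := by
    intro z hz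
    rw [mem_biUnion] at hz
    obtain ⟨x, hx, hz⟩ := hz
    rw [mem_sdiff] at hz ⊢
    exact ⟨h.sub _ (hf x hx) hz.1, hz.2⟩
  have := card_le_card hsub
  rw [hU, card_sdiff_of_subset hTP, hTc] at this
  have h1 : t + 1 ≤ P.card := by rw [← hTc]; exact card_le_card hTP
  calc (t + 1) * (k - t + 1) = (t + 1) * (k - t) + (t + 1) := by ring
    _ ≤ P.card := by omega

omit [DecidableEq α] in
/-- existence of a block through a small set -/
theorem St.exists_block {P : Finset α} {t k : ℕ} {B : Finset (Finset α)} (h : St P t k B)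
    {S : Finset α} (hS : S ⊆ P) (hc : S.card ≤ t) (ht : t ≤ P.card) : ∃ b ∈ B, S ⊆ b := by
  obtain ⟨S', h1, h2, h3⟩ := exists_subsuperset_card_eq hS hc ht
  obtain ⟨b, hb, hsb⟩ := h.ex S' h2 h3
  exact ⟨b, hb, h1.trans hsb⟩

end Pool.Agent.H179.SDP
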